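import Mathlib
import Pool.Agent.H98.DH.Core
import Pool.Agent.H96.RE.Approx
import Pool.Agent.H91.RE.Nf

/-! Bounded depth refutations with parity gates, part Det: this file joins several modules to save build time. -/

set_option autoImplicit false

section S_H98_DH_Defs

set_option autoImplicit false
open scoped Classical

namespace H98DH

open H96RE H91RE

/-! ### Blocks, light and heavy blocks, closure -/

section
variable {n m : ℕ} {ι : Type}

/-- the part of `T` in the block `v` -/
noncomputable def prt (blk : Fin n → Fin m) (T : Finset (Fin n)) (v : Fin m) : Finset (Fin n) :=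
  T.filter (fun i => blk i = v)

/-- the heavy blocks of `T` (`Lt R`: the set `R` is light) -/
noncomputable def heavy (blk : Fin n → Fin m) (Lt : Finset (Fin n) → Prop) (T : Finset (Fin n)) : Finset (Fin m) :=
  Finset.univ.filter (fun v => ¬ Lt (prt blk T v))

/-- the functions spanned by the monomials with at most `a` heavy blocks -/
noncomputable def Mh (blk : Fin n → Fin m) (Lt : Finset (Fin n) → Prop) (a : ℕ) : Submodule (ZMod 2) (Fn n) :=
  Submodule.span (ZMod 2) (mono '' {T | (heavy blk Lt T).card ≤ a})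

/-- replace the block `v` of `x` by that of `z` -/
noncomputable def merge (blk : Fin n → Fin m) (v : Fin m) (z x : Fin n → ZMod 2) : Fin n → ZMod 2 :=
  fun i => if blk i = v then z i else x i

/-- `|S(J) \ U| - |J|` -/
noncomputable def dfc (S : ι → Finset (Fin m)) (U : Finset (Fin m)) (J : Finset ι) : ℤ :=
  ((J.biUnion S \ U).card : ℤ) - J.card

/-- the closure: the union of all minimisers of `dfc` among the sets of at most `s` constraints -/
noncomputable def Sup [Fintype ι] (S : ι → Finset (Fin m)) (s : ℕ) (U : Finset (Fin m)) : Finset ι :=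
  (Finset.univ.filter (fun J : Finset ι => J.card ≤ s ∧ ∀ J' : Finset ι, J'.card ≤ s → dfc S U J ≤ dfc S U J')).biUnion id

/-- the points which satisfy the constraints of `J` -/
def Sat (C : ι → Set (Fin n → ZMod 2)) (J : Finset ι) : Set (Fin n → ZMod 2) := {x | ∀ j ∈ J, x ∈ C j}

/-- the expansion hypothesis -/
def Expd (S : ι → Finset (Fin m)) (s D0 : ℕ) : Prop :=
  ∀ J : Finset ι, s < 2 * J.card → J.card ≤ s → D0 + J.card < (J.biUnion S).card

/-- private blocks can be used: for every light set `L` in a block `v` of the constraint `j` there is a set `P` of assignments to the block `v`, all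
of which satisfy the constraint `j`, such that summing over `P` picks the monomial of `L` among the light monomials of the block `v` -/
def Priv (blk : Fin n → Fin m) (Lt : Finset (Fin n) → Prop) (S : ι → Finset (Fin m)) (C : ι → Set (Fin n → ZMod 2)) : Prop :=
  ∀ j, ∀ v ∈ S j, ∀ L : Finset (Fin n), (∀ i ∈ L, blk i = v) → Lt L →
    ∃ P : Finset (Fin n → ZMod 2), (∀ z ∈ P, ∀ x, merge blk v z x ∈ C j) ∧
      ∀ R : Finset (Fin n), (∀ i ∈ R, blk i = v) → Lt R → ∑ z ∈ P, mono R z = if R = L then 1 else 0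

end

/-! ### Good pairs -/

/-- `(A, L)` is good: `L` is a down-set of subsets of `Fin B`, `A` a set of points with as many elements, and no nonzero combination of the
monomials of `L` vanishes on `A`. -/
structure Good {B : ℕ} (A : Set (Fin B → ZMod 2)) (L : Set (Finset (Fin B))) : Prop where
  empty : ∅ ∈ L
  down : ∀ R R' : Finset (Fin B), R ⊆ R' → R' ∈ L → R ∈ L
  card : Nat.card A = Nat.card L
  ind : ∀ g ∈ Submodule.span (ZMod 2) (mono '' L), (∀ x ∈ A, g x = 0) → g = 0

/-- the `i`-th block of `y` -/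
def sub {a B : ℕ} (y : Fin (a * B) → ZMod 2) (i : Fin a) : Fin B → ZMod 2 := fun l => y (finProdFinEquiv (i, l))

/-- the `i`-th block of `T` -/
noncomputable def subT {a B : ℕ} (T : Finset (Fin (a * B))) (i : Fin a) : Finset (Fin B) :=
  Finset.univ.filter (fun l => finProdFinEquiv (i, l) ∈ T)

/-- `a`-fold product of the complement -/
def stepA {B : ℕ} (a : ℕ) (A : Set (Fin B → ZMod 2)) : Set (Fin (a * B) → ZMod 2) := {y | ∀ i, sub y i ∉ A}

/-- the light sets of the `a`-fold product of the complement -/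
def stepL {B : ℕ} (a : ℕ) (L : Set (Finset (Fin B))) : Set (Finset (Fin (a * B))) := {T | ∀ i, (subT T i)ᶜ ∉ L}

/-- the probability that a random set, which contains every element with probability `p`, belongs to `L` -/
noncomputable def wt {B : ℕ} (p : ℝ) (L : Set (Finset (Fin B))) : ℝ :=
  ∑ T ∈ Finset.univ.filter (fun T : Finset (Fin B) => T ∈ L), p ^ T.card * (1 - p) ^ (B - T.card)

/-! ### The constraints -/

/-- a system of `r` constraints with `t` pairs (block, pattern) each -/
abbrev Sys (r t m B : ℕ) := Fin r → Fin t → Fin m × (Fin B → ZMod 2)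

/-- the blocks of a constraint -/
noncomputable def SB {r t m B : ℕ} (ω : Sys r t m B) (j : Fin r) : Finset (Fin m) := Finset.univ.image (fun i => (ω j i).1)

/-- the points which satisfy the constraint `j`: for some of the pairs `(v, σ)` of the constraint, `x_v + σ ∈ A` -/
def CB {r t m B : ℕ} (A : Set (Fin B → ZMod 2)) (ω : Sys r t m B) (j : Fin r) : Set (Fin (m * B) → ZMod 2) :=
  {x | ∃ i, sub x (ω j i).1 + (ω j i).2 ∈ A}

/-- the block of a variable -/
def blk (m B : ℕ) (i : Fin (m * B)) : Fin m := (finProdFinEquiv.symm i).1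

/-- light sets of variables -/
def LtB {B : ℕ} (m : ℕ) (L : Set (Finset (Fin B))) (R : Finset (Fin (m * B))) : Prop := ∀ v : Fin m, subT R v ∈ L

/-- the set `T` is free for the system -/
def Free {r t m B : ℕ} (L : Set (Finset (Fin B))) (ω : Sys r t m B) (s : ℕ) (T : Finset (Fin (m * B))) : Prop :=
  ∀ J : Finset (Fin r), J.Nonempty → J.card ≤ s →
    J.card < (J.biUnion (SB ω) \ heavy (blk m B) (LtB m L) T).card

end H98DH

end S_H98_DH_Defs

section S_H98_DH_CL

set_option autoImplicit false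
open scoped Classical

namespace H98DH

variable {m : ℕ} {ι : Type} [Fintype ι]

/-- `J` is a minimiser -/
def IsMn {m : ℕ} {ι : Type} (S : ι → Finset (Fin m)) (s : ℕ) (U : Finset (Fin m)) (J : Finset ι) : Prop :=
  J.card ≤ s ∧ ∀ J' : Finset ι, J'.card ≤ s → dfc S U J ≤ dfc S U J'

theorem dfc_empty {m : ℕ} {ι : Type} (S : ι → Finset (Fin m)) (U : Finset (Fin m)) : dfc S U ∅ = 0 := by
  unfold dfc
  simp

/-- submodularity -/
theorem dfc_sub {m : ℕ} {ι : Type} (S : ι → Finset (Fin m)) (U : Finset (Fin m)) (J J' : Finset ι) :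
    dfc S U (J ∪ J') + dfc S U (J ∩ J') ≤ dfc S U J + dfc S U J' := by
  unfold dfc
  have h1 : (J ∪ J').biUnion S \ U = (J.biUnion S \ U) ∪ (J'.biUnion S \ U) := by
    rw [Finset.union_biUnion, Finset.union_sdiff_distrib]
  have h2 : (J ∩ J').biUnion S \ U ⊆ (J.biUnion S \ U) ∩ (J'.biUnion S \ U) := by
    intro v hv
    rw [Finset.mem_sdiff, Finset.mem_biUnion] at hv
    obtain ⟨⟨j, hj, hvj⟩, hvT⟩ := hv
    rw [Finset.mem_inter] at hj
    rw [Finset.mem_inter, Finset.mem_sdiff, Finset.mem_sdiff, Finset.mem_biUnion, Finset.mem_biUnion]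
    exact ⟨⟨⟨j, hj.1, hvj⟩, hvT⟩, ⟨⟨j, hj.2, hvj⟩, hvT⟩⟩
  have h3 := Finset.card_le_card h2
  have h4 := Finset.card_union_add_card_inter (J.biUnion S \ U) (J'.biUnion S \ U)
  have h5 := Finset.card_union_add_card_inter J J'
  rw [h1]
  omega

/-- adding the constraints of `J'` -/
theorem dfc_union {m : ℕ} {ι : Type} (S : ι → Finset (Fin m)) (U : Finset (Fin m)) (J J' : Finset ι) :
    dfc S U (J ∪ J') = dfc S U J + ((J'.biUnion S \ (U ∪ J.biUnion S)).card : ℤ) - (J' \ J).card := by
  unfold dfc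
  have h1 : (J ∪ J').biUnion S \ U = (J.biUnion S \ U) ∪ (J'.biUnion S \ (U ∪ J.biUnion S)) := by
    rw [Finset.union_biUnion]
    ext v
    simp only [Finset.mem_sdiff, Finset.mem_union]
    tauto
  have h2 : Disjoint (J.biUnion S \ U) (J'.biUnion S \ (U ∪ J.biUnion S)) := by
    rw [Finset.disjoint_left]
    intro v h1 h2
    simp only [Finset.mem_sdiff, Finset.mem_union] at h1 h2
    exact h2.2 (Or.inr h1.1)
  have h3 : (J ∪ J').card = J.card + (J' \ J).card := by
    rw [← Finset.union_sdiff_self_eq_union, Finset.card_union_of_disjoint Finset.disjoint_sdiff]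
  rw [h1, Finset.card_union_of_disjoint h2, h3]
  push_cast
  ring

theorem mn_small {S : ι → Finset (Fin m)} {s D0 : ℕ} (hC : Expd S s D0) {U : Finset (Fin m)} (hU : U.card ≤ D0)
    {J : Finset ι} (hJ : IsMn S s U J) : 2 * J.card ≤ s := by
  by_contra hcon
  have h1 := hC J (by omega) hJ.1
  have h2 : (J.biUnion S).card ≤ (J.biUnion S \ U).card + U.card := by
    have := Finset.le_card_sdiff U (J.biUnion S)
    omega
  have h3 := hJ.2 ∅ (by simp)
  rw [dfc_empty] at h3
  unfold dfc at h3
  omega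

theorem mn_union {S : ι → Finset (Fin m)} {s D0 : ℕ} (hC : Expd S s D0) {U : Finset (Fin m)} (hU : U.card ≤ D0)
    {J J' : Finset ι} (hJ : IsMn S s U J) (hJ' : IsMn S s U J') : IsMn S s U (J ∪ J') := by
  have h1 := mn_small hC hU hJ
  have h2 := mn_small hC hU hJ'
  have h3 := Finset.card_union_le J J'
  refine ⟨by omega, fun K hK => ?_⟩
  have h4 := dfc_sub S U J J'
  have h5 := hJ.2 (J ∩ J') ((Finset.card_le_card Finset.inter_subset_left).trans hJ.1)
  have h6 := hJ'.2 K hK
  linarith

theorem exists_mn (S : ι → Finset (Fin m)) (s : ℕ) (U : Finset (Fin m)) : ∃ J, IsMn S s U J := by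
  obtain ⟨J, hJ, hmin⟩ := Finset.exists_min_image (Finset.univ.filter (fun J : Finset ι => J.card ≤ s)) (dfc S U)
    ⟨∅, Finset.mem_filter.mpr ⟨Finset.mem_univ _, by simp⟩⟩
  refine ⟨J, (Finset.mem_filter.mp hJ).2, fun J' hJ' => hmin J' (Finset.mem_filter.mpr ⟨Finset.mem_univ _, hJ'⟩)⟩

theorem sub_sup {S : ι → Finset (Fin m)} {s : ℕ} {U : Finset (Fin m)} {J : Finset ι} (hJ : IsMn S s U J) :
    J ⊆ Sup S s U := by
  intro j hj
  exact Finset.mem_biUnion.mpr ⟨J, Finset.mem_filter.mpr ⟨Finset.mem_univ _, hJ⟩, hj⟩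

/-- the closure is itself a minimiser -/
theorem sup_mn {S : ι → Finset (Fin m)} {s D0 : ℕ} (hC : Expd S s D0) {U : Finset (Fin m)} (hU : U.card ≤ D0) :
    IsMn S s U (Sup S s U) := by
  obtain ⟨J0, hJ0⟩ := exists_mn S s U
  have h : ∀ F : Finset (Finset ι), (∀ J ∈ F, IsMn S s U J) → IsMn S s U (J0 ∪ F.biUnion id) := by
    intro F
    induction F using Finset.induction_on with
    | empty =>
      intro _
      rw [Finset.biUnion_empty, Finset.union_empty]
      exact hJ0
    | insert J F hJ ih =>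
      intro hF
      have h1 := ih (fun J' hJ' => hF J' (Finset.mem_insert_of_mem hJ'))
      have h2 := hF J (Finset.mem_insert_self J F)
      rw [Finset.biUnion_insert]
      have h3 : J0 ∪ (id J ∪ F.biUnion id) = J ∪ (J0 ∪ F.biUnion id) := by
        rw [Finset.union_left_comm]
        rfl
      rw [h3]
      exact mn_union hC hU h2 h1
  have h1 := h (Finset.univ.filter (fun J => IsMn S s U J)) (fun J hJ => (Finset.mem_filter.mp hJ).2)
  have h2 : J0 ∪ (Finset.univ.filter (fun J => IsMn S s U J)).biUnion id = Sup S s U := by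
    have h3 : (Finset.univ.filter (fun J => IsMn S s U J)).biUnion id = Sup S s U := by
      unfold Sup IsMn
      congr
    rw [h3, Finset.union_eq_right]
    exact sub_sup hJ0
  rwa [h2] at h1

/-- (C2) -/
theorem sup_card {S : ι → Finset (Fin m)} {s D0 : ℕ} (hC : Expd S s D0) {U : Finset (Fin m)} (hU : U.card ≤ D0) :
    2 * (Sup S s U).card ≤ s := mn_small hC hU (sup_mn hC hU)

theorem sup_new {S : ι → Finset (Fin m)} {s D0 : ℕ} (hC : Expd S s D0) {U : Finset (Fin m)} (hU : U.card ≤ D0) :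
    ((Sup S s U).biUnion S \ U).card ≤ (Sup S s U).card := by
  have h := (sup_mn hC hU).2 ∅ (by simp)
  rw [dfc_empty] at h
  unfold dfc at h
  omega

/-- (C1) -/
theorem sup_sub {S : ι → Finset (Fin m)} {s D0 : ℕ} (hC : Expd S s D0) {U U' : Finset (Fin m)} (hU : U.card ≤ D0)
    (hU' : U'.card ≤ D0) (h : U' ⊆ U ∪ (Sup S s U).biUnion S) : Sup S s U' ⊆ Sup S s U := by
  have m1 := sup_mn hC hU
  have m2 := sup_mn hC hU'
  have c1 := sup_card hC hU
  have c2 := sup_card hC hU'
  set A := Sup S s U with hA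
  set A' := Sup S s U' with hA'
  have h3 := Finset.card_union_le A A'
  refine Finset.subset_union_right.trans (sub_sup (J := A ∪ A') ⟨by omega, fun K hK => ?_⟩)
  have h4 := dfc_union S U A A'
  have h5 := dfc_union S U' (A ∩ A') A'
  rw [Finset.union_eq_right.mpr (Finset.inter_subset_right : A ∩ A' ⊆ A')] at h5
  have h6 := m2.2 (A ∩ A') ((Finset.card_le_card Finset.inter_subset_left).trans m1.1)
  have h7 : (A' \ (A ∩ A')).card = (A' \ A).card := by
    congr 1
    ext v
    simp only [Finset.mem_sdiff, Finset.mem_inter]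
    tauto
  have h8 : (A'.biUnion S \ (U ∪ A.biUnion S)).card ≤ (A'.biUnion S \ (U' ∪ (A ∩ A').biUnion S)).card := by
    refine Finset.card_le_card (Finset.sdiff_subset_sdiff (Finset.Subset.refl _) (Finset.union_subset h ?_))
    exact (Finset.biUnion_subset_biUnion_of_subset_left S Finset.inter_subset_left).trans Finset.subset_union_right
  have h9 := m1.2 K hK
  rw [h7] at h5
  have h10 : ((A'.biUnion S \ (U ∪ A.biUnion S)).card : ℤ) ≤ ((A'.biUnion S \ (U' ∪ (A ∩ A').biUnion S)).card : ℤ) := by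
    exact_mod_cast h8
  linarith

theorem sup_mono {S : ι → Finset (Fin m)} {s D0 : ℕ} (hC : Expd S s D0) {U U' : Finset (Fin m)} (hU : U.card ≤ D0)
    (h : U' ⊆ U) : Sup S s U' ⊆ Sup S s U :=
  sup_sub hC hU ((Finset.card_le_card h).trans hU) (h.trans Finset.subset_union_left)

theorem sup_hall0 {S : ι → Finset (Fin m)} {s D0 : ℕ} (hC : Expd S s D0) {U : Finset (Fin m)} (hU : U.card ≤ D0)
    {I J : Finset ι} (hI : I.card ≤ s) (hTI : Sup S s U ⊆ I) (hJI : J ⊆ I) (hJ : Disjoint J (Sup S s U)) :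
    J.card ≤ (J.biUnion S \ (U ∪ (Sup S s U).biUnion S)).card := by
  by_cases hne : J = ∅
  · rw [hne]
    simp
  · have m1 := sup_mn hC hU
    set c := Sup S s U with hc
    have hcs : (c ∪ J).card ≤ s := (Finset.card_le_card (Finset.union_subset hTI hJI)).trans hI
    have h1 : dfc S U c < dfc S U (c ∪ J) := by
      rcases lt_or_ge (dfc S U c) (dfc S U (c ∪ J)) with h | h
      · exact h
      · exfalso
        have hmin : IsMn S s U (c ∪ J) := ⟨hcs, fun K hK => h.trans (m1.2 K hK)⟩
        have h2 := sub_sup hmin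
        obtain ⟨j, hj⟩ := Finset.nonempty_of_ne_empty hne
        exact (Finset.disjoint_left.mp hJ hj) (h2 (Finset.mem_union_right _ hj))
    have h2 := dfc_union S U c J
    have h3 : (J \ c).card = J.card := by rw [Finset.sdiff_eq_self_of_disjoint hJ]
    rw [h3] at h2
    omega

/-- (C3): distinct private blocks outside the closure -/
theorem sup_sdr {S : ι → Finset (Fin m)} {s D0 : ℕ} (hC : Expd S s D0) {U : Finset (Fin m)} (hU : U.card ≤ D0)
    {I : Finset ι} (hI : I.card ≤ s) (hTI : Sup S s U ⊆ I) :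
    ∃ r : {j // j ∈ I \ Sup S s U} → Fin m, Function.Injective r ∧
      ∀ j, r j ∈ S j.1 ∧ r j ∉ U ∧ r j ∉ (Sup S s U).biUnion S := by
  set c := Sup S s U with hc
  have hall := (Finset.all_card_le_biUnion_card_iff_exists_injective
    (fun j : {j // j ∈ I \ c} => S j.1 \ (U ∪ c.biUnion S))).mp (by
      intro A
      have h1 := sup_hall0 hC hU hI hTI (J := A.map (Function.Embedding.subtype _)) (by
        intro j hj
        obtain ⟨a, -, rfl⟩ := Finset.mem_map.mp hj
        exact (Finset.mem_sdiff.mp a.2).1) (by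
        rw [Finset.disjoint_left]
        intro j hj
        obtain ⟨a, -, rfl⟩ := Finset.mem_map.mp hj
        exact (Finset.mem_sdiff.mp a.2).2)
      rw [Finset.card_map] at h1
      refine h1.trans (Finset.card_le_card ?_)
      intro v hv
      rw [Finset.mem_sdiff, Finset.mem_biUnion] at hv
      obtain ⟨⟨j, hj, hvj⟩, hv2⟩ := hv
      obtain ⟨a, ha, rfl⟩ := Finset.mem_map.mp hj
      exact Finset.mem_biUnion.mpr ⟨a, ha, Finset.mem_sdiff.mpr ⟨hvj, hv2⟩⟩)
  obtain ⟨r, hr, hrm⟩ := hall
  refine ⟨r, hr, fun j => ?_⟩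
  have h1 := hrm j
  rw [Finset.mem_sdiff, Finset.mem_union] at h1
  exact ⟨h1.1, fun h => h1.2 (Or.inl h), fun h => h1.2 (Or.inr h)⟩

/-- the closure of a free set is empty -/
theorem sup_free {S : ι → Finset (Fin m)} {s : ℕ} {U : Finset (Fin m)}
    (hF : ∀ J : Finset ι, J.Nonempty → J.card ≤ s → J.card < (J.biUnion S \ U).card) : Sup S s U = ∅ := by
  rw [Finset.eq_empty_iff_forall_notMem]
  intro j hj
  obtain ⟨J, hJ, hjJ⟩ := Finset.mem_biUnion.mp hj
  have hm := (Finset.mem_filter.mp hJ).2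
  have h1 := hF J ⟨j, hjJ⟩ hm.1
  have h2 := hm.2 ∅ (by simp)
  rw [dfc_empty] at h2
  unfold dfc at h2
  omega

/-- (C4) -/
theorem sup_self {S : ι → Finset (Fin m)} {s D0 : ℕ} (hs : 1 ≤ s) (hC : Expd S s D0) (j : ι) (hj : (S j).card ≤ D0) :
    j ∈ Sup S s (S j) := by
  by_contra hn
  have m1 := sup_mn hC hj
  have c1 := sup_card hC hj
  have h1 : (insert j (Sup S s (S j))).card = (Sup S s (S j)).card + 1 := Finset.card_insert_of_notMem hn
  have h2 := m1.2 (insert j (Sup S s (S j))) (by omega)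
  unfold dfc at h2
  have h3 : (insert j (Sup S s (S j))).biUnion S \ S j ⊆ (Sup S s (S j)).biUnion S \ S j := by
    intro v hv
    rw [Finset.biUnion_insert] at hv
    simp only [Finset.mem_sdiff, Finset.mem_union] at hv ⊢
    exact ⟨hv.1.resolve_left hv.2, hv.2⟩
  have h4 := Finset.card_le_card h3
  omega

/-- a larger form of (C4) -/
theorem mem_sup {S : ι → Finset (Fin m)} {s D0 : ℕ} (hs : 1 ≤ s) (hC : Expd S s D0) (j : ι) {U : Finset (Fin m)}
    (hU : U.card ≤ D0) (hj : S j ⊆ U ∪ (Sup S s U).biUnion S) : j ∈ Sup S s U := by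
  by_contra hn
  have m1 := sup_mn hC hU
  have c1 := sup_card hC hU
  have h1 : (insert j (Sup S s U)).card = (Sup S s U).card + 1 := Finset.card_insert_of_notMem hn
  have h2 := m1.2 (insert j (Sup S s U)) (by omega)
  unfold dfc at h2
  have h3 : (insert j (Sup S s U)).biUnion S \ U ⊆ (Sup S s U).biUnion S \ U := by
    intro v hv
    rw [Finset.biUnion_insert] at hv
    simp only [Finset.mem_sdiff, Finset.mem_union] at hv ⊢
    rcases hv.1 with h | h
    · rcases Finset.mem_union.mp (hj h) with h5 | h5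
      · exact absurd h5 hv.2
      · exact ⟨h5, hv.2⟩
    · exact ⟨h, hv.2⟩
  have h4 := Finset.card_le_card h3
  omega


theorem sup_spec {S : ι → Finset (Fin m)} {s D0 : ℕ} (hE : Expd S s D0) {U : Finset (Fin m)} (hU : U.card ≤ D0) :
    2 * (Sup S s U).card ≤ s ∧ (∀ J : Finset ι, J.card ≤ s → dfc S U (Sup S s U) ≤ dfc S U J) ∧
      ∀ J : Finset ι, J.card ≤ s → dfc S U J ≤ dfc S U (Sup S s U) → J ⊆ Sup S s U := by
  have h := sup_mn hE hU
  exact ⟨sup_card hE hU, h.2, fun J hJ hle => sub_sup ⟨hJ, fun J' hJ' => hle.trans (h.2 J' hJ')⟩⟩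

/-- (C3).  (`hne` is needed: for `m = 0` there are no functions `ι → Fin 0`.) -/
theorem sup_hall {S : ι → Finset (Fin m)} {s D0 : ℕ} (hE : Expd S s D0) {U : Finset (Fin m)} (hU : U.card ≤ D0)
    {J : Finset ι} (h1 : Sup S s U ⊆ J) (h2 : J.card ≤ s) (hne : (J \ Sup S s U).Nonempty) :
    ∃ p : ι → Fin m, (∀ j ∈ J \ Sup S s U, ∀ j' ∈ J \ Sup S s U, p j = p j' → j = j') ∧
      ∀ j ∈ J \ Sup S s U, p j ∈ S j ∧ p j ∉ U ∧ p j ∉ (Sup S s U).biUnion S := by
  obtain ⟨r, hr, hrp⟩ := sup_sdr hE hU h2 h1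
  obtain ⟨j0, hj0⟩ := hne
  refine ⟨fun j => if h : j ∈ J \ Sup S s U then r ⟨j, h⟩ else r ⟨j0, hj0⟩, ?_, ?_⟩
  · intro j hj j' hj' he
    simp only [dif_pos hj, dif_pos hj'] at he
    exact congrArg Subtype.val (hr he)
  · intro j hj
    simp only [dif_pos hj]
    exact hrp ⟨j, hj⟩

theorem sup_mem {S : ι → Finset (Fin m)} {s D0 : ℕ} (hE : Expd S s D0) (hs : 1 ≤ s) (j : ι) (hj : (S j).card ≤ D0) :
    j ∈ Sup S s (S j) := sup_self hs hE j hj

theorem sup_empty {S : ι → Finset (Fin m)} {s : ℕ} {U : Finset (Fin m)}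
    (h : ∀ J : Finset ι, J.Nonempty → J.card ≤ s → J.card < (J.biUnion S \ U).card) : Sup S s U = ∅ := sup_free h

end H98DH

end S_H98_DH_CL

section S_H98_DH_OB

set_option autoImplicit false
open scoped Classical

namespace H98DH

open H96RE H91RE

variable {n m : ℕ} {blk : Fin n → Fin m} {Lt : Finset (Fin n) → Prop}

private theorem mem_heavyOB {T : Finset (Fin n)} {v : Fin m} :
    v ∈ heavy blk Lt T ↔ ¬ Lt (prt blk T v) := by
  unfold heavy
  rw [Finset.mem_filter]
  exact ⟨fun h => h.2, fun h => ⟨Finset.mem_univ _, h⟩⟩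

private theorem mem_prtOB {T : Finset (Fin n)} {v : Fin m} {i : Fin n} :
    i ∈ prt blk T v ↔ i ∈ T ∧ blk i = v := by
  unfold prt
  rw [Finset.mem_filter]

theorem heavy_mono (hLt : ∀ R R' : Finset (Fin n), R ⊆ R' → Lt R' → Lt R) {T T' : Finset (Fin n)} (h : T ⊆ T') :
    heavy blk Lt T ⊆ heavy blk Lt T' := by
  intro v hv
  rw [mem_heavyOB] at hv ⊢
  intro h1
  refine hv (hLt _ _ ?_ h1)
  exact Finset.filter_subset_filter _ h

theorem heavy_insert (hLt : ∀ R R' : Finset (Fin n), R ⊆ R' → Lt R' → Lt R) (i : Fin n) (T : Finset (Fin n)) :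
    heavy blk Lt (insert i T) ⊆ insert (blk i) (heavy blk Lt T) := by
  intro v hv
  rw [Finset.mem_insert]
  by_cases h : v = blk i
  · exact Or.inl h
  · right
    rw [mem_heavyOB] at hv ⊢
    intro h1
    refine hv (hLt _ _ ?_ h1)
    intro l hl
    rw [mem_prtOB] at hl ⊢
    rcases Finset.mem_insert.1 hl.1 with h2 | h2
    · exact absurd (by rw [← hl.2, h2]) h
    · exact ⟨h2, hl.2⟩

theorem heavy_union (hLt : ∀ R R' : Finset (Fin n), R ⊆ R' → Lt R' → Lt R) (T R : Finset (Fin n)) :
    (heavy blk Lt (T ∪ R)).card ≤ (heavy blk Lt T).card + R.card := by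
  induction R using Finset.induction_on with
  | empty => rw [Finset.union_empty, Finset.card_empty, Nat.add_zero]
  | insert i R hi ih =>
    rw [Finset.union_insert, Finset.card_insert_of_notMem hi]
    have h1 := Finset.card_le_card (heavy_insert hLt i (T ∪ R) (blk := blk))
    have h2 := Finset.card_insert_le (blk i) (heavy blk Lt (T ∪ R))
    omega

theorem heavy_sub (hLt : ∀ R R' : Finset (Fin n), R ⊆ R' → Lt R' → Lt R) {T T' : Finset (Fin n)} {W : Finset (Fin m)}
    (h : ∀ i ∈ T', i ∈ T ∨ blk i ∈ W) : heavy blk Lt T' ⊆ heavy blk Lt T ∪ W := by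
  intro v hv
  rw [Finset.mem_union]
  by_cases hW : v ∈ W
  · exact Or.inr hW
  · left
    rw [mem_heavyOB] at hv ⊢
    intro h1
    refine hv (hLt _ _ ?_ h1)
    intro l hl
    rw [mem_prtOB] at hl ⊢
    rcases h l hl.1 with h2 | h2
    · exact ⟨h2, hl.2⟩
    · rw [hl.2] at h2
      exact absurd h2 hW

/-- the orders we use: injective, refining the number of heavy blocks -/
def HOrd (blk : Fin n → Fin m) (Lt : Finset (Fin n) → Prop) (o : Finset (Fin n) → ℕ) : Prop :=
  Function.Injective o ∧ ∀ T T' : Finset (Fin n), (heavy blk Lt T').card < (heavy blk Lt T).card → o T' < o T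

theorem hord_exists (blk : Fin n → Fin m) (Lt : Finset (Fin n) → Prop) : ∃ o, HOrd blk Lt o := by
  let e := Fintype.equivFin (Finset (Fin n))
  set N := Fintype.card (Finset (Fin n)) with hN
  refine ⟨fun T => (heavy blk Lt T).card * N + (e T : ℕ), ?_, ?_⟩
  · intro T T' h
    have h1 : (e T : ℕ) < N := (e T).2
    have h2 : (e T' : ℕ) < N := (e T').2
    have h3 : ((heavy blk Lt T).card * N + (e T : ℕ)) % N =
        ((heavy blk Lt T').card * N + (e T' : ℕ)) % N := by
      have h' : (heavy blk Lt T).card * N + (e T : ℕ) =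
        (heavy blk Lt T').card * N + (e T' : ℕ) := h
      rw [h']
    rw [Nat.mul_add_mod_self_right, Nat.mul_add_mod_self_right, Nat.mod_eq_of_lt h1,
      Nat.mod_eq_of_lt h2] at h3
    exact e.injective (Fin.ext h3)
  · intro T T' h
    have h2 : (e T' : ℕ) < N := (e T').2
    have h1 : ((heavy blk Lt T').card + 1) * N ≤ (heavy blk Lt T).card * N :=
      Nat.mul_le_mul_right _ h
    show (heavy blk Lt T').card * N + (e T' : ℕ) < (heavy blk Lt T).card * N + (e T : ℕ)
    have h3 : ((heavy blk Lt T').card + 1) * N = (heavy blk Lt T').card * N + N := by ring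
    omega

private noncomputable def LamOB (blk : Fin n → Fin m) (v : Fin m) (L : Finset (Fin n))
    (P : Finset (Fin n → ZMod 2)) : Fn n →ₗ[ZMod 2] Fn n where
  toFun h := fun x => mono L x * ∑ z ∈ P, h (merge blk v z x)
  map_add' := by
    intro f g
    funext x
    show mono L x * ∑ z ∈ P, (f (merge blk v z x) + g (merge blk v z x)) =
      mono L x * ∑ z ∈ P, f (merge blk v z x) + mono L x * ∑ z ∈ P, g (merge blk v z x)
    rw [Finset.sum_add_distrib, mul_add]
  map_smul' := by
    intro c f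
    funext x
    show mono L x * ∑ z ∈ P, (c * f (merge blk v z x)) =
      c * (mono L x * ∑ z ∈ P, f (merge blk v z x))
    rw [← Finset.mul_sum]
    ring

private theorem LamOB_apply (v : Fin m) (L : Finset (Fin n)) (P : Finset (Fin n → ZMod 2))
    (h : Fn n) (x : Fin n → ZMod 2) :
    LamOB blk v L P h x = mono L x * ∑ z ∈ P, h (merge blk v z x) := rfl

private theorem LamOB_mono (v : Fin m) (L : Finset (Fin n)) (P : Finset (Fin n → ZMod 2))
    (T : Finset (Fin n)) :
    LamOB blk v L P (mono T) =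
      (∑ z ∈ P, mono (prt blk T v) z) • mono (L ∪ T.filter (fun i => ¬ blk i = v)) := by
  funext x
  rw [LamOB_apply, ← mono_mul]
  show _ = (∑ z ∈ P, mono (prt blk T v) z) * (mono L x * mono (T.filter (fun i => ¬ blk i = v)) x)
  have h1 : ∀ z : Fin n → ZMod 2, mono T (merge blk v z x) =
      mono (prt blk T v) z * mono (T.filter (fun i => ¬ blk i = v)) x := by
    intro z
    unfold mono merge prt
    rw [Finset.prod_ite]
  simp only [h1]
  rw [← Finset.sum_mul]
  ring

theorem one_block {o : Finset (Fin n) → ℕ} (ho : HOrd blk Lt o) (v : Fin m) (Z W : Set (Fin n → ZMod 2))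
    (T : Finset (Fin n)) (hT : Lt (prt blk T v)) (P : Finset (Fin n → ZMod 2))
    (hP : ∀ R : Finset (Fin n), (∀ i ∈ R, blk i = v) → Lt R → ∑ z ∈ P, mono R z = if R = prt blk T v then 1 else 0)
    (hW : ∀ x ∈ Z, ∀ z ∈ P, merge blk v z x ∈ W) (hred : Red o (H96RX.van W) T) : Red o (H96RX.van Z) T := by
  obtain ⟨L, hL⟩ : ∃ L, L = prt blk T v := ⟨_, rfl⟩
  have hLv : ∀ i ∈ L, blk i = v := by
    intro i hi
    rw [hL] at hi
    exact (mem_prtOB.1 hi).2
  rw [← hL] at hT hP
  have hun : ∀ T' : Finset (Fin n), prt blk T' v = L →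
      L ∪ T'.filter (fun i => ¬ blk i = v) = T' := by
    intro T' h
    rw [← h]
    exact Finset.filter_union_filter_not_eq _ _
  have hTT : LamOB blk v L P (mono T) = mono T := by
    rw [LamOB_mono, ← hL, hP L hLv hT, if_pos rfl, one_smul, hun T hL.symm]
  have hS : Submodule.span (ZMod 2) (mono '' {T' | o T' < o T}) ≤
      Submodule.comap (LamOB blk v L P)
        (Submodule.span (ZMod 2) (mono '' {T' | o T' < o T})) := by
    rw [Submodule.span_le]
    rintro _ ⟨T', hT', rfl⟩
    have hT'' : o T' < o T := hT'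
    show LamOB blk v L P (mono T') ∈ Submodule.span (ZMod 2) (mono '' {T' | o T' < o T})
    rw [LamOB_mono]
    have hpv : ∀ i ∈ prt blk T' v, blk i = v := fun i hi => (mem_prtOB.1 hi).2
    by_cases h1 : prt blk T' v = L
    · rw [hun T' h1]
      exact Submodule.smul_mem _ _ (Submodule.subset_span ⟨T', hT', rfl⟩)
    · by_cases h2 : Lt (prt blk T' v)
      · rw [hP _ hpv h2, if_neg h1, zero_smul]
        exact Submodule.zero_mem _
      · refine Submodule.smul_mem _ _ (Submodule.subset_span ⟨_, ?_, rfl⟩)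
        show o (L ∪ T'.filter (fun i => ¬ blk i = v)) < o T
        apply ho.2
        have h3 : heavy blk Lt (L ∪ T'.filter (fun i => ¬ blk i = v)) ⊆
            (heavy blk Lt T').erase v := by
          intro u hu
          rw [mem_heavyOB] at hu
          rw [Finset.mem_erase, mem_heavyOB]
          by_cases huv : u = v
          · exfalso
            apply hu
            have e1 : prt blk (L ∪ T'.filter (fun i => ¬ blk i = v)) u = L := by
              ext i
              rw [mem_prtOB, Finset.mem_union, Finset.mem_filter, huv]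
              constructor
              · rintro ⟨h4 | h4, h5⟩
                · exact h4
                · exact absurd h5 h4.2
              · intro h4
                exact ⟨Or.inl h4, hLv i h4⟩
            rw [e1]
            exact hT
          · refine ⟨huv, ?_⟩
            have e1 : prt blk (L ∪ T'.filter (fun i => ¬ blk i = v)) u = prt blk T' u := by
              ext i
              rw [mem_prtOB, mem_prtOB, Finset.mem_union, Finset.mem_filter]
              constructor
              · rintro ⟨h4 | h4, h5⟩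
                · exact absurd (h5.symm.trans (hLv i h4)) huv
                · exact ⟨h4.1, h5⟩
              · rintro ⟨h4, h5⟩
                exact ⟨Or.inr ⟨h4, fun h6 => huv (h5.symm.trans h6)⟩, h5⟩
            rw [e1] at hu
            exact hu
        have h4 : v ∈ heavy blk Lt T' := mem_heavyOB.2 h2
        have h5 := Finset.card_le_card h3
        have h6 := Finset.card_erase_lt_of_mem h4
        have h7 : (heavy blk Lt T').card ≤ (heavy blk Lt T).card := by
          by_contra hcon
          rw [not_le] at hcon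
          have := ho.2 T' T hcon
          omega
        omega
  unfold Red at hred ⊢
  obtain ⟨a, ha, b, hb, hab⟩ := Submodule.mem_sup.1 hred
  rw [← hTT, ← hab, map_add]
  refine Submodule.add_mem_sup ?_ (hS hb)
  show ∀ x ∈ Z, LamOB blk v L P a x = 0
  intro x hx
  rw [LamOB_apply, Finset.sum_eq_zero (fun z hz => ha _ (hW x hx z hz)), mul_zero]

end H98DH

end S_H98_DH_OB

section S_H98_DH_RS

set_option autoImplicit false
open scoped Classical

namespace H98DH

open H96RE H91RE

theorem red_sup {n m : ℕ} {ι : Type} [Fintype ι] {blk : Fin n → Fin m} {Lt : Finset (Fin n) → Prop}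
    {o : Finset (Fin n) → ℕ} (ho : HOrd blk Lt o)
    {S : ι → Finset (Fin m)} {C : ι → Set (Fin n → ZMod 2)}
    (hC : ∀ j x y, (∀ i, blk i ∈ S j → x i = y i) → x ∈ C j → y ∈ C j) (hpriv : Priv blk Lt S C)
    {s D0 : ℕ} (hE : Expd S s D0) (T : Finset (Fin n)) (hT : (heavy blk Lt T).card ≤ D0)
    (J : Finset ι) (h1 : Sup S s (heavy blk Lt T) ⊆ J) (h2 : J.card ≤ s)
    (hred : Red o (H96RX.van (Sat C J)) T) : Red o (H96RX.van (Sat C (Sup S s (heavy blk Lt T)))) T := by
  set A := Sup S s (heavy blk Lt T) with hA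
  by_cases hne : (J \ A).Nonempty
  swap
  · have e : J = A := Finset.Subset.antisymm
      (Finset.sdiff_eq_empty_iff_subset.1 (Finset.not_nonempty_iff_eq_empty.1 hne)) h1
    rw [← e]
    exact hred
  obtain ⟨p, hpinj, hp⟩ := sup_hall hE hT h1 h2 hne
  have hlight : ∀ j ∈ J \ A, Lt (prt blk T (p j)) := by
    intro j hj
    by_contra h
    exact (hp j hj).2.1 (Finset.mem_filter.2 ⟨Finset.mem_univ _, h⟩)
  have hP : ∀ j : ι, ∃ P : Finset (Fin n → ZMod 2), j ∈ J \ A →
      ((∀ z ∈ P, ∀ x, merge blk (p j) z x ∈ C j) ∧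
        ∀ R : Finset (Fin n), (∀ i ∈ R, blk i = p j) → Lt R →
          ∑ z ∈ P, mono R z = if R = prt blk T (p j) then 1 else 0) := by
    intro j
    by_cases hj : j ∈ J \ A
    · obtain ⟨P, h3, h4⟩ := hpriv j (p j) (hp j hj).1 (prt blk T (p j))
        (fun i hi => (Finset.mem_filter.1 hi).2) (hlight j hj)
      exact ⟨P, fun _ => ⟨h3, h4⟩⟩
    · exact ⟨∅, fun h => absurd h hj⟩
  choose P hP using hP
  let X : Finset ι → Set (Fin n → ZMod 2) := fun J1 =>
    {x | x ∈ Sat C A ∧ ∀ j ∈ J1, ∃ z ∈ P j, ∀ i, blk i = p j → x i = z i}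
  have hX : X (J \ A) ⊆ Sat C J := by
    intro x hx j hj
    by_cases hjA : j ∈ A
    · exact hx.1 j hjA
    · obtain ⟨z, hz, hxz⟩ := hx.2 j (Finset.mem_sdiff.2 ⟨hj, hjA⟩)
      have h5 := (hP j (Finset.mem_sdiff.2 ⟨hj, hjA⟩)).1 z hz x
      have e : merge blk (p j) z x = x := by
        funext i
        unfold merge
        split_ifs with h
        · exact (hxz i h).symm
        · rfl
      rwa [e] at h5
  have hmono : ∀ {V W : Submodule (ZMod 2) (Fn n)}, V ≤ W → Red o V T → Red o W T :=
    fun h h' => (sup_le_sup_right h _) h'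
  have hvan : ∀ {Z W : Set (Fin n → ZMod 2)}, Z ⊆ W → H96RX.van W ≤ H96RX.van Z :=
    fun h g hg x hx => hg x (h hx)
  have key : ∀ J1 : Finset ι, J1 ⊆ J \ A → Red o (H96RX.van (X J1)) T →
      Red o (H96RX.van (Sat C A)) T := by
    intro J1
    induction J1 using Finset.induction_on with
    | empty =>
      intro _ h
      have h8 : Sat C A ⊆ X ∅ := fun x hx => ⟨hx, fun j hj => absurd hj (Finset.notMem_empty j)⟩
      exact hmono (hvan h8) h
    | insert j J1 hj ih =>
      intro hsub h
      apply ih (fun _ h => hsub (Finset.mem_insert_of_mem h))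
      have hjm : j ∈ J \ A := hsub (Finset.mem_insert_self _ _)
      refine one_block ho (p j) (X J1) (X (insert j J1)) T (hlight j hjm) (P j) (hP j hjm).2 ?_ h
      intro x hx z hz
      refine ⟨?_, ?_⟩
      · intro j' hj'
        apply hC j' x _ _ (hx.1 j' hj')
        intro i hi
        have h6 : blk i ≠ p j := fun e =>
          (hp j hjm).2.2 (Finset.mem_biUnion.2 ⟨j', hj', e ▸ hi⟩)
        unfold merge
        rw [if_neg h6]
      · intro j' hj'
        rcases Finset.mem_insert.1 hj' with rfl | hj''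
        · exact ⟨z, hz, fun i hi => by unfold merge; rw [if_pos hi]⟩
        · obtain ⟨z', hz', h5⟩ := hx.2 j' hj''
          refine ⟨z', hz', fun i hi => ?_⟩
          have h6 : blk i ≠ p j := by
            intro e
            have h7 := hpinj j' (hsub (Finset.mem_insert_of_mem hj'')) j hjm (hi.symm.trans e)
            rw [h7] at hj''
            exact hj hj''
          unfold merge
          rw [if_neg h6]
          exact h5 i hi
  exact key (J \ A) subset_rfl (hmono (hvan hX) hred)

end H98DH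

end S_H98_DH_RS

section S_H98_DH_AR

set_option autoImplicit false
open scoped Classical

namespace H98DH

open H96RE H91RE

private theorem AR_mulX {n : ℕ} (i : Fin n) (g : Fn n) :
    mulX i g = LinearMap.mulLeft (ZMod 2) (mono {i}) g := by
  funext x
  show x i * g x = (mono {i} * g) x
  rw [Pi.mul_apply]
  unfold mono
  rw [Finset.prod_singleton]

private theorem AR_mulL {n : ℕ} (i : Fin n) (T : Finset (Fin n)) :
    LinearMap.mulLeft (ZMod 2) (mono {i}) (mono T) = mono (insert i T) := by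
  rw [LinearMap.mulLeft_apply, mono_mul, Finset.insert_eq]

private theorem AR_anti {n : ℕ} {ι : Type} (C : ι → Set (Fin n → ZMod 2)) {J J' : Finset ι} (h : J ⊆ J') :
    H96RX.van (Sat C J) ≤ H96RX.van (Sat C J') :=
  fun _ hg x hx => hg x fun j hj => hx j (h hj)

private theorem AR_mulmem {n : ℕ} (Z : Set (Fin n → ZMod 2)) (i : Fin n) (g : Fn n)
    (hg : g ∈ H96RX.van Z) : LinearMap.mulLeft (ZMod 2) (mono {i}) g ∈ H96RX.van Z := by
  intro x hx
  rw [LinearMap.mulLeft_apply, Pi.mul_apply, hg x hx, mul_zero]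

private theorem AR_setz {n m : ℕ} {ι : Type} (blk : Fin n → Fin m) (S : ι → Finset (Fin m))
    (C : ι → Set (Fin n → ZMod 2))
    (hC : ∀ j x y, (∀ i, blk i ∈ S j → x i = y i) → x ∈ C j → y ∈ C j) (J : Finset ι) (A : Finset (Fin n))
    (hA : ∀ i, blk i ∈ J.biUnion S → i ∈ A) (g : Fn n) (hg : g ∈ H96RX.van (Sat C J)) :
    setz A g ∈ H96RX.van (Sat C J) := by
  intro x hx
  rw [setz_apply]
  refine hg _ fun j hj => ?_
  refine hC j x _ (fun i hi => ?_) (hx j hj)
  rw [if_pos (hA i (Finset.mem_biUnion.mpr ⟨j, hj, hi⟩))]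

private theorem AR_vars {n m : ℕ} {ι : Type} (blk : Fin n → Fin m) (S : ι → Finset (Fin m))
    (C : ι → Set (Fin n → ZMod 2))
    (hC : ∀ j x y, (∀ i, blk i ∈ S j → x i = y i) → x ∈ C j → y ∈ C j)
    (o : Finset (Fin n) → ℕ) (ho : Function.Injective o) (J : Finset ι) (T : Finset (Fin n)) (r : Fn n)
    (hr : r ∈ Submodule.span (ZMod 2) (mono '' {T' | ¬ Red o (H96RX.van (Sat C J)) T' ∧ o T' ≤ o T}))
    (hV : mono T - r ∈ H96RX.van (Sat C J)) :
    r ∈ Submodule.span (ZMod 2) (mono '' {T' | ¬ Red o (H96RX.van (Sat C J)) T' ∧ o T' ≤ o T ∧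
      ∀ i ∈ T', i ∈ T ∨ blk i ∈ J.biUnion S}) := by
  set A : Finset (Fin n) := T ∪ Finset.univ.filter (fun i => blk i ∈ J.biUnion S) with hA
  have hAmem : ∀ i ∈ A, i ∈ T ∨ blk i ∈ J.biUnion S := by
    intro i hi
    rcases Finset.mem_union.mp hi with h | h
    · exact Or.inl h
    · exact Or.inr (Finset.mem_filter.mp h).2
  have hA2 : ∀ i, blk i ∈ J.biUnion S → i ∈ A := fun i hi =>
    Finset.mem_union_right _ (Finset.mem_filter.mpr ⟨Finset.mem_univ i, hi⟩)
  have h1 : setz A r ∈ Submodule.span (ZMod 2) (mono '' {T' | ¬ Red o (H96RX.van (Sat C J)) T' ∧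
      o T' ≤ o T ∧ ∀ i ∈ T', i ∈ T ∨ blk i ∈ J.biUnion S}) := by
    have hle : Submodule.span (ZMod 2) (mono '' {T' | ¬ Red o (H96RX.van (Sat C J)) T' ∧ o T' ≤ o T}) ≤
        Submodule.comap (setz A)
          (Submodule.span (ZMod 2) (mono '' {T' | ¬ Red o (H96RX.van (Sat C J)) T' ∧ o T' ≤ o T ∧
            ∀ i ∈ T', i ∈ T ∨ blk i ∈ J.biUnion S})) := by
      rw [Submodule.span_le]
      rintro _ ⟨T', hT', rfl⟩
      show setz A (mono T') ∈
        Submodule.span (ZMod 2) (mono '' {T' | ¬ Red o (H96RX.van (Sat C J)) T' ∧ o T' ≤ o T ∧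
            ∀ i ∈ T', i ∈ T ∨ blk i ∈ J.biUnion S})
      by_cases hs : T' ⊆ A
      · rw [setz_mono_of_subset A T' hs]
        exact Submodule.subset_span ⟨T', ⟨hT'.1, hT'.2, fun i hi => hAmem i (hs hi)⟩, rfl⟩
      · rw [setz_mono_of_not_subset A T' hs]
        exact Submodule.zero_mem _
    exact hle hr
  have h2 : mono T - setz A r ∈ H96RX.van (Sat C J) := by
    have := AR_setz blk S C hC J A hA2 _ hV
    rwa [map_sub, setz_mono_of_subset A T Finset.subset_union_left] at this
  have h3 : r - setz A r ∈ H96RX.van (Sat C J) := by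
    have := Submodule.sub_mem _ h2 hV
    rwa [sub_sub_sub_cancel_left] at this
  have h4 : r - setz A r ∈ Submodule.span (ZMod 2) (mono '' {T' | ¬ Red o (H96RX.van (Sat C J)) T'}) := by
    refine Submodule.sub_mem _ (Submodule.span_mono ?_ hr) (Submodule.span_mono ?_ h1)
    · rintro _ ⟨T', hT', rfl⟩
      exact ⟨T', hT'.1, rfl⟩
    · rintro _ ⟨T', hT', rfl⟩
      exact ⟨T', hT'.1, rfl⟩
  have h5 := irr_unique o ho _ _ h3 h4
  rw [sub_eq_zero] at h5
  rw [h5]
  exact h1

private theorem AR_ind {n m : ℕ} (blk : Fin n → Fin m) (W : Finset (Fin m)) (B : Set (Fin n → ZMod 2))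
    (hB : ∀ x y, (∀ i, blk i ∈ W → x i = y i) → x ∈ B → y ∈ B) :
    indic Bᶜ ∈ Submodule.span (ZMod 2) (mono '' {T' : Finset (Fin n) | ∀ i ∈ T', blk i ∈ W}) := by
  set A : Finset (Fin n) := Finset.univ.filter (fun i => blk i ∈ W) with hA
  have h1 : setz A (indic Bᶜ) = indic Bᶜ := by
    funext x
    rw [setz_apply]
    have hag : ∀ i, blk i ∈ W → (fun i => if i ∈ A then x i else 0) i = x i := by
      intro i hi
      show (if i ∈ A then x i else 0) = x i
      rw [if_pos (Finset.mem_filter.mpr ⟨Finset.mem_univ i, hi⟩)]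
    have hiff : (fun i => if i ∈ A then x i else 0) ∈ B ↔ x ∈ B :=
      ⟨hB _ _ hag, hB _ _ fun i hi => (hag i hi).symm⟩
    unfold indic
    by_cases hx : x ∈ B
    · have e1 : (fun i => if i ∈ A then x i else 0) ∉ Bᶜ := fun h => h (hiff.mpr hx)
      have e2 : x ∉ Bᶜ := fun h => h hx
      rw [if_neg e1, if_neg e2]
    · have e1 : (fun i => if i ∈ A then x i else 0) ∈ Bᶜ := fun h => hx (hiff.mp h)
      have e2 : x ∈ Bᶜ := hx
      rw [if_pos e1, if_pos e2]
  have h2 : ∀ g : Fn n, setz A g ∈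
      Submodule.span (ZMod 2) (mono '' {T' : Finset (Fin n) | ∀ i ∈ T', blk i ∈ W}) := by
    intro g
    have hle : Submodule.span (ZMod 2) (Set.range (mono : Finset (Fin n) → Fn n)) ≤
        Submodule.comap (setz A)
          (Submodule.span (ZMod 2) (mono '' {T' : Finset (Fin n) | ∀ i ∈ T', blk i ∈ W})) := by
      rw [Submodule.span_le]
      rintro _ ⟨T', rfl⟩
      show setz A (mono T') ∈
        Submodule.span (ZMod 2) (mono '' {T' : Finset (Fin n) | ∀ i ∈ T', blk i ∈ W})
      by_cases hs : T' ⊆ A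
      · rw [setz_mono_of_subset A T' hs]
        exact Submodule.subset_span ⟨T', fun i hi => (Finset.mem_filter.mp (hs hi)).2, rfl⟩
      · rw [setz_mono_of_not_subset A T' hs]
        exact Submodule.zero_mem _
    exact hle (by rw [mono_top n]; trivial)
  rw [← h1]
  exact h2 _

theorem ar_operator {n m : ℕ} {ι : Type} [Fintype ι] (blk : Fin n → Fin m) (Lt : Finset (Fin n) → Prop)
    (hLt0 : Lt ∅) (hLt : ∀ R R' : Finset (Fin n), R ⊆ R' → Lt R' → Lt R)
    (S : ι → Finset (Fin m)) (C : ι → Set (Fin n → ZMod 2))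
    (hC : ∀ j x y, (∀ i, blk i ∈ S j → x i = y i) → x ∈ C j → y ∈ C j) (hpriv : Priv blk Lt S C)
    {s D0 : ℕ} (hs : 1 ≤ s) (hS : ∀ j, (S j).card ≤ D0) (hE : Expd S s D0) :
    ∃ K : Submodule (ZMod 2) (Fn n), (∀ j, indic (C j)ᶜ ∈ K) ∧
      (∀ g ∈ K, ∀ a, a + 1 ≤ D0 → g ∈ Mh blk Lt a → ∀ i, mulX i g ∈ K) ∧
      Disjoint (Submodule.span (ZMod 2)
        (mono '' {T | (heavy blk Lt T).card ≤ D0 ∧ Sup S s (heavy blk Lt T) = ∅})) K := by
  obtain ⟨o, ho⟩ := hord_exists blk Lt
  choose P hP0 hPirr hPsub hPmono using fun J : Finset ι => proj o ho.1 (H96RX.van (Sat C J))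
  have hPv : ∀ (J : Finset ι) (T : Finset (Fin n)), P J (mono T) ∈
      Submodule.span (ZMod 2) (mono '' {T' | ¬ Red o (H96RX.van (Sat C J)) T' ∧ o T' ≤ o T ∧
        ∀ i ∈ T', i ∈ T ∨ blk i ∈ J.biUnion S}) :=
    fun J T => AR_vars blk S C hC o ho.1 J T _ (hPmono J T) (hPsub J (mono T))
  have hcard : ∀ T T' : Finset (Fin n), o T' ≤ o T →
      (heavy blk Lt T').card ≤ (heavy blk Lt T).card := by
    intro T T' h
    by_contra hc
    have := ho.2 T' T (by omega)
    omega
  -- independence of the set of constraints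
  have h1 : ∀ (T : Finset (Fin n)) (J : Finset ι), (heavy blk Lt T).card ≤ D0 →
      Sup S s (heavy blk Lt T) ⊆ J → J.card ≤ s →
      P J (mono T) = P (Sup S s (heavy blk Lt T)) (mono T) := by
    intro T J hT hTJ hJ
    set c := Sup S s (heavy blk Lt T) with hc
    have h2 : P J (mono T - P c (mono T)) = 0 := hP0 J _ (AR_anti C hTJ (hPsub c (mono T)))
    rw [map_sub, sub_eq_zero] at h2
    rw [h2]
    have h3 : Set.EqOn (P J) (LinearMap.id (R := ZMod 2) (M := Fn n))
        (mono '' {T' | ¬ Red o (H96RX.van (Sat C c)) T' ∧ o T' ≤ o T ∧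
          ∀ i ∈ T', i ∈ T ∨ blk i ∈ c.biUnion S}) := by
      rintro _ ⟨T', ⟨hirr, hoT, hsub⟩, rfl⟩
      have hT' : (heavy blk Lt T').card ≤ D0 := (hcard T T' hoT).trans hT
      have hs' : Sup S s (heavy blk Lt T') ⊆ c := sup_sub hE hT hT' (heavy_sub hLt hsub)
      show P J (mono T') = mono T'
      refine hPirr J T' fun hred => hirr ?_
      have h4 := red_sup ho hC hpriv hE T' hT' J (hs'.trans hTJ) hJ hred
      exact (sup_le_sup_right (AR_anti C hs') _) h4
    exact LinearMap.eqOn_span h3 (hPv c T)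
  -- the operator
  let b := Module.Basis.mk (mono_indep n) (mono_top n).ge
  let R : Fn n →ₗ[ZMod 2] Fn n :=
    b.constr (ZMod 2) (fun T => if (heavy blk Lt T).card ≤ D0 then
      P (Sup S s (heavy blk Lt T)) (mono T) else 0)
  have hR : ∀ T : Finset (Fin n), (heavy blk Lt T).card ≤ D0 →
      R (mono T) = P (Sup S s (heavy blk Lt T)) (mono T) := by
    intro T hT
    have hb : b T = mono T := Module.Basis.mk_apply (mono_indep n) (mono_top n).ge T
    have h2 : R (b T) = if (heavy blk Lt T).card ≤ D0 then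
      P (Sup S s (heavy blk Lt T)) (mono T) else 0 := b.constr_basis (ZMod 2) _ T
    rw [← hb, h2, if_pos hT, hb]
  -- multiplication
  have hmul : ∀ (i : Fin n) (a : ℕ), a + 1 ≤ D0 → ∀ g ∈ Mh blk Lt a,
      R (LinearMap.mulLeft (ZMod 2) (mono {i}) g) = R (LinearMap.mulLeft (ZMod 2) (mono {i}) (R g)) := by
    intro i a ha g hg
    have h2 : Set.EqOn (R ∘ₗ LinearMap.mulLeft (ZMod 2) (mono {i}))
        (R ∘ₗ LinearMap.mulLeft (ZMod 2) (mono {i}) ∘ₗ R)
        (mono '' {T : Finset (Fin n) | (heavy blk Lt T).card ≤ a}) := by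
      rintro _ ⟨T, hT, rfl⟩
      have hT1 : (heavy blk Lt T).card ≤ a := hT
      have hTE' : (heavy blk Lt T).card ≤ D0 := by omega
      set U : Finset (Fin m) := insert (blk i) (heavy blk Lt T) with hU
      have hUc : U.card ≤ D0 := (Finset.card_insert_le _ _).trans (by omega)
      set J := Sup S s U with hJ
      have hJB : J.card ≤ s := by
        have h0 : 2 * J.card ≤ s := (sup_spec hE hUc).1
        omega
      have hins : ∀ T' : Finset (Fin n), (heavy blk Lt T').card ≤ a →
          (heavy blk Lt (insert i T')).card ≤ D0 := by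
        intro T' hT'
        refine (Finset.card_le_card (heavy_insert hLt i T')).trans ?_
        exact (Finset.card_insert_le _ _).trans (by omega)
      have hcT : Sup S s (heavy blk Lt T) ⊆ J :=
        sup_sub hE hUc hTE' ((Finset.subset_insert _ _).trans Finset.subset_union_left)
      have hcTi : Sup S s (heavy blk Lt (insert i T)) ⊆ J :=
        sup_sub hE hUc (hins T hT1) ((heavy_insert hLt i T).trans Finset.subset_union_left)
      show R (LinearMap.mulLeft (ZMod 2) (mono {i}) (mono T)) =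
        R (LinearMap.mulLeft (ZMod 2) (mono {i}) (R (mono T)))
      have h3 : R (LinearMap.mulLeft (ZMod 2) (mono {i}) (mono T)) =
          P J (LinearMap.mulLeft (ZMod 2) (mono {i}) (mono T)) := by
        rw [AR_mulL, hR _ (hins T hT1), h1 _ J (hins T hT1) hcTi hJB]
      have h4 : P J (LinearMap.mulLeft (ZMod 2) (mono {i}) (mono T)) =
          P J (LinearMap.mulLeft (ZMod 2) (mono {i}) (R (mono T))) := by
        rw [← sub_eq_zero, ← map_sub, ← map_sub, hR T hTE']
        exact hP0 J _ (AR_mulmem _ i _ (AR_anti C hcT (hPsub _ (mono T))))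
      have h5 : Set.EqOn (P J ∘ₗ LinearMap.mulLeft (ZMod 2) (mono {i}))
          (R ∘ₗ LinearMap.mulLeft (ZMod 2) (mono {i}))
          (mono '' {T' | ¬ Red o (H96RX.van (Sat C (Sup S s (heavy blk Lt T)))) T' ∧ o T' ≤ o T ∧
            ∀ i ∈ T', i ∈ T ∨ blk i ∈ (Sup S s (heavy blk Lt T)).biUnion S}) := by
        rintro _ ⟨T', ⟨hirr, hoT, hsub⟩, rfl⟩
        have hT' : (heavy blk Lt T').card ≤ a := (hcard T T' hoT).trans hT1
        have hs' : Sup S s (heavy blk Lt (insert i T')) ⊆ J := by
          refine sup_sub hE hUc (hins T' hT') ?_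
          intro v hv
          rcases Finset.mem_insert.mp (heavy_insert hLt i T' hv) with rfl | hv
          · exact Finset.mem_union_left _ (Finset.mem_insert_self _ _)
          · rcases Finset.mem_union.mp (heavy_sub hLt hsub hv) with h6 | h6
            · exact Finset.mem_union_left _ (Finset.mem_insert_of_mem h6)
            · exact Finset.mem_union_right _ (Finset.biUnion_subset_biUnion_of_subset_left S hcT h6)
        show P J (LinearMap.mulLeft (ZMod 2) (mono {i}) (mono T')) =
          R (LinearMap.mulLeft (ZMod 2) (mono {i}) (mono T'))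
        rw [AR_mulL, hR _ (hins T' hT'), h1 _ J (hins T' hT') hs' hJB]
      have h6 := LinearMap.eqOn_span h5 (hPv (Sup S s (heavy blk Lt T)) T)
      rw [← hR T hTE'] at h6
      rw [h3, h4]
      exact h6
    exact LinearMap.eqOn_span h2 hg
  have hheavy0 : heavy blk Lt ∅ = ∅ := by
    unfold heavy
    refine Finset.filter_false_of_mem fun v _ => ?_
    intro h
    apply h
    unfold prt
    rw [Finset.filter_empty]
    exact hLt0
  have hSj : ∀ (j : ι) (T' : Finset (Fin n)), (∀ i ∈ T', blk i ∈ S j) → heavy blk Lt T' ⊆ S j := by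
    intro j T' h
    have h2 := heavy_sub (T := (∅ : Finset (Fin n))) (W := S j) hLt fun i hi => Or.inr (h i hi)
    rwa [hheavy0, Finset.empty_union] at h2
  -- the constraints
  have hax : ∀ j, R (indic (C j)ᶜ) = 0 := by
    intro j
    set J := Sup S s (S j) with hJ
    have hJB : J.card ≤ s := by
      have h0 : 2 * J.card ≤ s := (sup_spec hE (hS j)).1
      omega
    have hjJ : j ∈ J := sup_mem hE hs j (hS j)
    have h5 : Set.EqOn R (P J) (mono '' {T' : Finset (Fin n) | ∀ i ∈ T', blk i ∈ S j}) := by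
      rintro _ ⟨T', hT', rfl⟩
      have hsub : heavy blk Lt T' ⊆ S j := hSj j T' hT'
      have hT'E : (heavy blk Lt T').card ≤ D0 := (Finset.card_le_card hsub).trans (hS j)
      rw [hR _ hT'E, h1 _ J hT'E (sup_sub hE (hS j) hT'E (hsub.trans Finset.subset_union_left)) hJB]
    rw [LinearMap.eqOn_span h5 (AR_ind blk (S j) (C j) (hC j))]
    refine hP0 J _ fun x hx => ?_
    have e1 : x ∉ (C j)ᶜ := fun h => h (hx j hjJ)
    unfold indic
    rw [if_neg e1]
  have hMmul : ∀ (i : Fin n) (a : ℕ), a + 1 ≤ D0 → ∀ g ∈ Mh blk Lt a,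
      LinearMap.mulLeft (ZMod 2) (mono {i}) g ∈ Mh blk Lt D0 := by
    intro i a ha g hg
    have hle : Mh blk Lt a ≤ Submodule.comap (LinearMap.mulLeft (ZMod 2) (mono {i})) (Mh blk Lt D0) := by
      unfold Mh
      rw [Submodule.span_le]
      rintro _ ⟨T', hT', rfl⟩
      have hT'' : (heavy blk Lt T').card ≤ a := hT'
      show LinearMap.mulLeft (ZMod 2) (mono {i}) (mono T') ∈
        Submodule.span (ZMod 2) (mono '' {T | (heavy blk Lt T).card ≤ D0})
      rw [AR_mulL]
      refine Submodule.subset_span ⟨_, ?_, rfl⟩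
      show (heavy blk Lt (insert i T')).card ≤ D0
      refine (Finset.card_le_card (heavy_insert hLt i T')).trans ?_
      exact (Finset.card_insert_le _ _).trans (by omega)
    exact hle hg
  refine ⟨Mh blk Lt D0 ⊓ LinearMap.ker R, ?_, ?_, ?_⟩
  · intro j
    refine Submodule.mem_inf.mpr ⟨?_, LinearMap.mem_ker.mpr (hax j)⟩
    refine Submodule.span_mono ?_ (AR_ind blk (S j) (C j) (hC j))
    rintro _ ⟨T', hT', rfl⟩
    exact ⟨T', (Finset.card_le_card (hSj j T' hT')).trans (hS j), rfl⟩
  · intro g hg a ha hga i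
    have hgR : R g = 0 := LinearMap.mem_ker.mp (Submodule.mem_inf.mp hg).2
    rw [AR_mulX]
    refine Submodule.mem_inf.mpr ⟨hMmul i a ha g hga, LinearMap.mem_ker.mpr ?_⟩
    rw [hmul i a ha g hga, hgR, map_zero, map_zero]
  -- the free monomials are fixed
  · rw [Submodule.disjoint_def]
    intro f hf hfK
    have h6 : Set.EqOn R (LinearMap.id (R := ZMod 2) (M := Fn n))
        (mono '' {T | (heavy blk Lt T).card ≤ D0 ∧ Sup S s (heavy blk Lt T) = ∅}) := by
      rintro _ ⟨T, ⟨hT, hG⟩, rfl⟩
      show R (mono T) = mono T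
      rw [hR T hT, hG]
      have h7 : mono T - P ∅ (mono T) = 0 := by
        funext x
        exact hPsub ∅ (mono T) x fun j hj => absurd hj (Finset.notMem_empty j)
      rw [sub_eq_zero] at h7
      exact h7.symm
    have h7 := LinearMap.eqOn_span h6 hf
    have h8 : R f = 0 := LinearMap.mem_ker.mp (Submodule.mem_inf.mp hfK).2
    rw [h8] at h7
    exact h7.symm

end H98DH

end S_H98_DH_AR

section S_H98_DH_MU

set_option autoImplicit false
open scoped Classical

namespace H98DH

open H96RE H91RE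

variable {n m : ℕ} {blk : Fin n → Fin m} {Lt : Finset (Fin n) → Prop}

theorem Mh_le {a b : ℕ} (h : a ≤ b) : Mh blk Lt a ≤ Mh blk Lt b := by
  unfold Mh
  refine Submodule.span_mono (Set.image_mono ?_)
  intro T hT
  exact le_trans (show (heavy blk Lt T).card ≤ a from hT) h

theorem Mh_mul (hLt : ∀ R R' : Finset (Fin n), R ⊆ R' → Lt R' → Lt R) {a c : ℕ} {g h : Fn n}
    (hg : g ∈ Mh blk Lt a) (hh : h ∈ Pol n c) : g * h ∈ Mh blk Lt (a + c) := by
  have h1 : Mh blk Lt a * Pol n c ≤ Mh blk Lt (a + c) := by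
    unfold Mh Pol
    rw [Submodule.span_mul_span]
    refine Submodule.span_le.2 ?_
    rintro _ ⟨_, ⟨T, hT, rfl⟩, _, ⟨T', hT', rfl⟩, rfl⟩
    have h2 : mono T * mono T' = mono (T ∪ T') := mono_mul T T'
    have h3 : (heavy blk Lt (T ∪ T')).card ≤ a + c :=
      (heavy_union hLt T T').trans (Nat.add_le_add hT hT')
    exact Submodule.subset_span ⟨T ∪ T', h3, h2.symm⟩
  exact h1 (Submodule.mul_mem_mul hg hh)

private theorem MU_insert {i : Fin n} {T : Finset (Fin n)} (hi : i ∉ T) (g : Fn n) :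
    g * mono (insert i T) = mulX i (g * mono T) := by
  funext x
  simp only [Pi.mul_apply, mono, mulX, Finset.prod_insert hi]
  ring

private theorem MU_empty (g : Fn n) : g * mono (∅ : Finset (Fin n)) = g := by
  funext x
  simp [mono]

theorem K_mul (hLt : ∀ R R' : Finset (Fin n), R ⊆ R' → Lt R' → Lt R) {K : Submodule (ZMod 2) (Fn n)} {D0 : ℕ}
    (hK : ∀ g ∈ K, ∀ a, a + 1 ≤ D0 → g ∈ Mh blk Lt a → ∀ i, mulX i g ∈ K) {a c : ℕ} (hac : a + c ≤ D0)
    {g h : Fn n} (hg : g ∈ K) (hg' : g ∈ Mh blk Lt a) (hh : h ∈ Pol n c) : g * h ∈ K := by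
  have key : ∀ T : Finset (Fin n), a + T.card ≤ D0 → g * mono T ∈ K := by
    intro T
    induction T using Finset.induction_on with
    | empty =>
      intro _
      rw [MU_empty]
      exact hg
    | insert i T hi ih =>
      intro hE
      rw [Finset.card_insert_of_notMem hi] at hE
      rw [MU_insert hi]
      exact hK _ (ih (by omega)) (a + T.card) (by omega) (Mh_mul hLt hg' (mono_mem (le_refl T.card))) i
  unfold Pol at hh
  induction hh using Submodule.span_induction with
  | mem h hh =>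
    obtain ⟨T, hT, rfl⟩ := hh
    exact key T (by have hT' : T.card ≤ c := hT; omega)
  | zero => rw [mul_zero]; exact Submodule.zero_mem _
  | add u v _ _ hu hv => rw [mul_add]; exact Submodule.add_mem _ hu hv
  | smul c u _ hu => rw [mul_smul_comm]; exact Submodule.smul_mem _ c hu

private theorem MU_span (A : Finset (Fin n)) (f : Fn n) (hf : setz A f = f) :
    f ∈ Submodule.span (ZMod 2) (mono '' {T' : Finset (Fin n) | T' ⊆ A}) := by
  have hle : Submodule.span (ZMod 2) (Set.range (mono : Finset (Fin n) → Fn n)) ≤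
      Submodule.comap (setz A) (Submodule.span (ZMod 2) (mono '' {T' : Finset (Fin n) | T' ⊆ A})) := by
    rw [Submodule.span_le]
    rintro _ ⟨T', rfl⟩
    show setz A (mono T') ∈ Submodule.span (ZMod 2) (mono '' {T' : Finset (Fin n) | T' ⊆ A})
    by_cases hs : T' ⊆ A
    · rw [setz_mono_of_subset A T' hs]
      exact Submodule.subset_span ⟨T', hs, rfl⟩
    · rw [setz_mono_of_not_subset A T' hs]
      exact Submodule.zero_mem _
  have h1 : f ∈ Submodule.span (ZMod 2) (Set.range (mono : Finset (Fin n) → Fn n)) := by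
    rw [mono_top]
    exact Submodule.mem_top
  have h2 : setz A f ∈ Submodule.span (ZMod 2) (mono '' {T' : Finset (Fin n) | T' ⊆ A}) := hle h1
  rwa [hf] at h2

theorem indic_C_mem {ι : Type} {S : ι → Finset (Fin m)} {C : ι → Set (Fin n → ZMod 2)}
    (hC : ∀ j x y, (∀ i, blk i ∈ S j → x i = y i) → x ∈ C j → y ∈ C j) (j : ι) :
    indic (C j)ᶜ ∈ Submodule.span (ZMod 2) (mono '' {T' : Finset (Fin n) | ∀ i ∈ T', blk i ∈ S j}) := by
  obtain ⟨A, hA⟩ : ∃ A : Finset (Fin n), A = Finset.univ.filter (fun i => blk i ∈ S j) := ⟨_, rfl⟩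
  have hmem : ∀ i, i ∈ A ↔ blk i ∈ S j := by
    intro i
    rw [hA]
    simp
  have h1 := MU_span A (indic (C j)ᶜ) (by
    funext x
    rw [setz_apply]
    unfold indic
    have hiff : (fun i => if i ∈ A then x i else 0) ∈ C j ↔ x ∈ C j := by
      constructor
      · intro h
        refine hC j _ _ (fun i hi => ?_) h
        rw [if_pos ((hmem i).2 hi)]
      · intro h
        refine hC j _ _ (fun i hi => ?_) h
        rw [if_pos ((hmem i).2 hi)]
    have hiff' : ((fun i => if i ∈ A then x i else 0) ∈ (C j)ᶜ) = (x ∈ (C j)ᶜ) := by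
      rw [Set.mem_compl_iff, Set.mem_compl_iff, hiff]
    by_cases h : x ∈ (C j)ᶜ
    · rw [if_pos h, if_pos (by rw [hiff']; exact h)]
    · rw [if_neg h, if_neg (by rw [hiff']; exact h)])
  refine Submodule.span_mono (Set.image_mono ?_) h1
  intro T hT i hi
  exact (hmem i).1 (hT hi)

theorem K_ind (hLt : ∀ R R' : Finset (Fin n), R ⊆ R' → Lt R' → Lt R) {K : Submodule (ZMod 2) (Fn n)} {D0 : ℕ}
    (hK : ∀ g ∈ K, ∀ a, a + 1 ≤ D0 → g ∈ Mh blk Lt a → ∀ i, mulX i g ∈ K)
    {ι : Type} {S : ι → Finset (Fin m)} {C : ι → Set (Fin n → ZMod 2)}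
    (hC : ∀ j x y, (∀ i, blk i ∈ S j → x i = y i) → x ∈ C j → y ∈ C j) {j : ι} (hj : indic (C j)ᶜ ∈ K)
    {a : ℕ} (ha : a + (S j).card < D0) {g : Fn n} (hg : g ∈ Mh blk Lt a) : g * indic (C j)ᶜ ∈ K := by
  have hf := indic_C_mem hC j
  obtain ⟨f, hfe⟩ : ∃ f : Fn n, f = indic (C j)ᶜ := ⟨_, rfl⟩
  rw [← hfe] at hf hj ⊢
  have hdeg : ∀ T1 : Finset (Fin n), (heavy blk Lt T1).card ≤ a → f * mono T1 ∈ Mh blk Lt (a + (S j).card) := by
    intro T1 hT1
    have h1 : Submodule.span (ZMod 2) (mono '' {T' : Finset (Fin n) | ∀ i ∈ T', blk i ∈ S j}) *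
        Submodule.span (ZMod 2) {mono T1} ≤ Mh blk Lt (a + (S j).card) := by
      unfold Mh
      rw [Submodule.span_mul_span]
      refine Submodule.span_le.2 ?_
      rintro _ ⟨_, ⟨T, hT, rfl⟩, _, rfl, rfl⟩
      have h2 : mono T * mono T1 = mono (T ∪ T1) := mono_mul T T1
      have h3 : heavy blk Lt (T ∪ T1) ⊆ heavy blk Lt T1 ∪ S j := by
        apply heavy_sub hLt
        intro i hi
        rcases Finset.mem_union.1 hi with hi | hi
        · exact Or.inr (hT i hi)
        · exact Or.inl hi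
      have h4 : (heavy blk Lt (T ∪ T1)).card ≤ a + (S j).card :=
        (Finset.card_le_card h3).trans ((Finset.card_union_le _ _).trans (by omega))
      exact Submodule.subset_span ⟨T ∪ T1, h4, h2.symm⟩
    exact h1 (Submodule.mul_mem_mul hf (Submodule.mem_span_singleton_self _))
  have key : ∀ T : Finset (Fin n), (heavy blk Lt T).card ≤ a → f * mono T ∈ K := by
    intro T
    induction T using Finset.induction_on with
    | empty =>
      intro _
      rw [MU_empty]
      exact hj
    | insert i T hi ih =>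
      intro hE
      have hE' : (heavy blk Lt T).card ≤ a :=
        (Finset.card_le_card (heavy_mono hLt (Finset.subset_insert i T))).trans hE
      rw [MU_insert hi]
      exact hK _ (ih hE') (a + (S j).card) (by omega) (hdeg T hE') i
  unfold Mh at hg
  induction hg using Submodule.span_induction with
  | mem h hh =>
    obtain ⟨T, hT, rfl⟩ := hh
    rw [mul_comm]
    exact key T hT
  | zero => rw [zero_mul]; exact Submodule.zero_mem _
  | add u v _ _ hu hv => rw [add_mul]; exact Submodule.add_mem _ hu hv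
  | smul c u _ hu => rw [smul_mul_assoc]; exact Submodule.smul_mem _ c hu

end H98DH

end S_H98_DH_MU
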