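import Mathlib
import Pool.Agent.H96.RE.ThmC
import Pool.Agent.H98.DP.Det

/-! Bounded depth refutations with parity gates, part Cir: this file joins several modules to save build time. -/

set_option autoImplicit false

section S_H98_DH_AP

set_option autoImplicit false
open scoped Classical

namespace H98DH

open H96RE H91RE

theorem par_rep {n e : ℕ} {G : ℕ → Fn n} {I : Set ℕ} {F : Fn n} (hF : F ∈ Par e G I) :
    ∃ p ∈ Pol n e, ∃ s : Finset ℕ, (∀ g ∈ s, g ∈ I) ∧ F = p + ∑ g ∈ s, G g := by
  unfold Par at hF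
  obtain ⟨p, hp, z, hz, rfl⟩ := Submodule.mem_sup.1 hF
  rw [Finsupp.mem_span_image_iff_linearCombination] at hz
  obtain ⟨l, hl, rfl⟩ := hz
  refine ⟨p, hp, l.support, fun g hg => ?_, ?_⟩
  · exact (Finsupp.mem_supported (ZMod 2) l).1 hl (Finset.mem_coe.2 hg)
  · rw [Finsupp.linearCombination_apply, Finsupp.sum]
    have h01 : ∀ t : ZMod 2, t ≠ 0 → t = 1 := by decide
    rw [Finset.sum_congr rfl fun g hg => ?_]
    rw [h01 _ (Finsupp.mem_support_iff.1 hg), one_smul]

theorem ee_mono {D : ℕ} {w ee : ℕ → ℕ} (hs : ∀ k < D, ee (k + 1) = ee k * w (k + 1)) (hw : ∀ k, 1 ≤ w k)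
    {k l : ℕ} (hkl : k ≤ l) (hl : l ≤ D) : ee k ≤ ee l := by
  induction l, hkl using Nat.le_induction with
  | base => exact le_refl _
  | succ l hkl ih =>
    have h1 := ih (by omega)
    rw [hs l (by omega)]
    exact le_trans h1 (Nat.le_mul_of_pos_right _ (by have := hw (l + 1); omega))

theorem approx_gates {n e D S : ℕ} (c : Circ n e D S) {w ee : ℕ → ℕ} (hee : ee 0 = e)
    (hs : ∀ k < D, ee (k + 1) = ee k * w (k + 1)) (hw : ∀ k, 1 ≤ w k) {q ε : ℝ} (hq0 : 0 ≤ q) (hq1 : q < 1)
    (hε : ∀ k < D, (1 - q ^ (ee k) / 2) ^ (w (k + 1)) ≤ ε) :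
    ∃ (ap : ℕ → Fn n) (Er : ℕ → Set (Fin n → ZMod 2)),
      (∀ g < S, ap g ∈ Pol n (ee (c.lev g)) ∧ H96RX.Om (Fin n → ZMod 2) q (Er g) ≤ ε * (1 + q) ^ n) ∧
      ∀ x, (∀ g < S, x ∉ Er g) → ∀ g < S, c.G g x = ap g x := by
  have h01 : ∀ t : ZMod 2, t = 0 ∨ t = 1 := by decide
  have key : ∀ k ≤ D, ∃ (ap : ℕ → Fn n) (Er : ℕ → Set (Fin n → ZMod 2)),
      (∀ g < S, c.lev g ≤ k → ap g ∈ Pol n (ee (c.lev g)) ∧ H96RX.Om (Fin n → ZMod 2) q (Er g) ≤ ε * (1 + q) ^ n) ∧
      ∀ x, (∀ g < S, c.lev g ≤ k → x ∉ Er g) → ∀ g < S, c.lev g ≤ k → c.G g x = ap g x := by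
    intro k
    induction k with
    | zero =>
      intro _
      refine ⟨fun _ => 0, fun _ => ∅, fun g hg hk => ?_, fun x _ g hg hk => ?_⟩
      · have := c.pos g hg
        omega
      · have := c.pos g hg
        omega
    | succ k ih =>
      intro hk
      obtain ⟨ap, Er, h1, h2⟩ := ih (by omega)
      have step : ∀ g, g < S → c.lev g = k + 1 → ∃ (A : Fn n) (E : Set (Fin n → ZMod 2)), A ∈ Pol n (ee (k + 1)) ∧
          H96RX.Om (Fin n → ZMod 2) q E ≤ ε * (1 + q) ^ n ∧
          ∀ x, (∀ g' < S, c.lev g' ≤ k → c.G g' x = ap g' x) → x ∉ E → c.G g x = A x := by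
        intro g hg hlev
        obtain ⟨H, hH1, hH2⟩ := c.or g hg
        choose p hp s hs' hF using fun (h : Fn n) (hh : h ∈ H) => par_rep (hH1 h hh)
        obtain ⟨P, hPd⟩ : ∃ P : Set ((Fin n → ZMod 2) → ZMod 2),
            P = {f | ∃ (h : Fn n) (hh : h ∈ H), f = p h hh + ∑ g' ∈ s h hh, ap g'} := ⟨_, rfl⟩
        have hP : ∀ f ∈ P, f ∈ Pol n (ee k) := by
          intro f hf
          rw [hPd] at hf
          obtain ⟨h, hh, rfl⟩ := hf
          refine Submodule.add_mem _ (Pol_mono ?_ (hp h hh)) (Submodule.sum_mem _ fun g' hg' => ?_)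
          · rw [← hee]
            exact ee_mono hs hw (Nat.zero_le k) (by omega)
          · obtain ⟨h3, h4⟩ := hs' h hh g' hg'
            refine Pol_mono ?_ (h1 g' h3 (by omega)).1
            exact ee_mono hs hw (by omega) (by omega)
        obtain ⟨a, ha, ha1, hOm⟩ := approx (w (k + 1)) hq0 hq1 P hP
        refine ⟨(fun _ => 1) + a, {x | ¬ (∀ p ∈ P, p x = 0) ∧ a x ≠ 0}, ?_, ?_, ?_⟩
        · rw [hs k (by omega)]
          exact Submodule.add_mem _ (const_mem 1) ha
        · refine le_trans hOm (mul_le_mul_of_nonneg_right (hε k (by omega)) ?_)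
          exact pow_nonneg (by linarith) n
        · intro x hx hE
          have hval : ∀ (h : Fn n) (hh : h ∈ H), h x = (p h hh + ∑ g' ∈ s h hh, ap g') x := by
            intro h hh
            rw [Pi.add_apply, Finset.sum_apply]
            have h5 := congrFun (hF h hh) x
            rw [Pi.add_apply, Finset.sum_apply] at h5
            rw [h5]
            rw [Finset.sum_congr rfl fun g' hg' => ?_]
            obtain ⟨h3, h4⟩ := hs' h hh g' hg'
            exact hx g' h3 (by omega)
          show c.G g x = 1 + a x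
          by_cases hall : ∀ p ∈ P, p x = 0
          · rw [ha1 x hall]
            have h6 : ¬ c.G g x = 1 := by
              intro h7
              obtain ⟨h, hh, hhx⟩ := (hH2 x).1 h7
              have h8 := hall _ (by rw [hPd]; exact ⟨h, hh, rfl⟩)
              rw [← hval h hh, hhx] at h8
              exact one_ne_zero h8
            rw [(h01 _).resolve_right h6]
            decide
          · have h6 : a x = 0 := by
              by_contra h7
              exact hE ⟨hall, h7⟩
            rw [h6, add_zero]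
            push Not at hall
            obtain ⟨f, hf, hfx⟩ := hall
            rw [hPd] at hf
            obtain ⟨h, hh, rfl⟩ := hf
            refine (hH2 x).2 ⟨h, hh, ?_⟩
            rw [hval h hh]
            exact (h01 _).resolve_left hfx
      choose A E hA hE hx using step
      refine ⟨fun g => if h : g < S ∧ c.lev g = k + 1 then A g h.1 h.2 else ap g,
        fun g => if h : g < S ∧ c.lev g = k + 1 then E g h.1 h.2 else Er g, ?_, ?_⟩
      · intro g hg hgk
        by_cases h3 : c.lev g = k + 1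
        · have h4 : g < S ∧ c.lev g = k + 1 := ⟨hg, h3⟩
          simp only [dif_pos h4]
          have h7 : ee (c.lev g) = ee (k + 1) := congrArg ee h3
          refine ⟨?_, hE g hg h3⟩
          rw [h7]
          exact hA g hg h3
        · have h4 : ¬ (g < S ∧ c.lev g = k + 1) := fun h => h3 h.2
          simp only [dif_neg h4]
          exact h1 g hg (by omega)
      · intro x hx'
        have h5 : ∀ g < S, c.lev g ≤ k → c.G g x = ap g x := by
          refine h2 x fun g hg hgk => ?_
          have h6 := hx' g hg (by omega)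
          have h4 : ¬ (g < S ∧ c.lev g = k + 1) := fun h => by omega
          simp only [dif_neg h4] at h6
          exact h6
        intro g hg hgk
        by_cases h3 : c.lev g = k + 1
        · have h4 : g < S ∧ c.lev g = k + 1 := ⟨hg, h3⟩
          simp only [dif_pos h4]
          refine hx g hg h3 x h5 ?_
          have h6 := hx' g hg (by omega)
          simp only [dif_pos h4] at h6
          exact h6
        · have h4 : ¬ (g < S ∧ c.lev g = k + 1) := fun h => h3 h.2
          simp only [dif_neg h4]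
          exact h5 g hg (by omega)
  obtain ⟨ap, Er, h1, h2⟩ := key D le_rfl
  refine ⟨ap, Er, fun g hg => h1 g hg (c.le g hg), fun x hx g hg => ?_⟩
  exact h2 x (fun g hg _ => hx g hg) g hg (c.le g hg)

end H98DH

end S_H98_DH_AP

section S_H98_DH_TC

set_option autoImplicit false
open scoped Classical

namespace H98DH

open H96RE H91RE

private theorem TC_zmod (a : ZMod 2) : a = 0 ∨ a = 1 := by
  revert a
  decide

private theorem TC_union {n : ℕ} (D' : ℕ) (Er : ℕ → Set (Fin n → ZMod 2)) (N : ℕ) :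
    H96RX.rk (Fin n → ZMod 2) D' {x | ∃ i < N, x ∈ Er i} ≤
      ∑ i ∈ Finset.range N, H96RX.rk (Fin n → ZMod 2) D' (Er i) := by
  induction N with
  | zero =>
    have h1 : {x : Fin n → ZMod 2 | ∃ i < 0, x ∈ Er i} = ∅ := by
      ext x
      simp
    rw [h1, H96RX.rk_empty]
    exact Nat.zero_le _
  | succ N ih =>
    have h1 : {x : Fin n → ZMod 2 | ∃ i < N + 1, x ∈ Er i} = {x | ∃ i < N, x ∈ Er i} ∪ Er N := by
      ext x
      constructor
      · rintro ⟨i, hi, hx⟩
        rcases Nat.lt_succ_iff_lt_or_eq.1 hi with h | h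
        · exact Or.inl ⟨i, h, hx⟩
        · rw [h] at hx
          exact Or.inr hx
      · rintro (⟨i, hi, hx⟩ | hx)
        · exact ⟨i, hi.trans (Nat.lt_succ_self N), hx⟩
        · exact ⟨N, Nat.lt_succ_self N, hx⟩
    rw [h1, Finset.sum_range_succ]
    have h2 := H96RX.rk_submod (V := Fin n → ZMod 2) D' {x | ∃ i < N, x ∈ Er i} (Er N)
    omega

private theorem TC_exists {n N D' : ℕ} (G' : Finset (Finset (Fin n))) (hG' : ∀ T ∈ G', T.card ≤ D')
    (Er : ℕ → Set (Fin n → ZMod 2))
    (h : ∑ i ∈ Finset.range N, H96RX.rk (Fin n → ZMod 2) D' (Er i) < G'.card) :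
    ∃ φ ∈ Submodule.span (ZMod 2) (mono '' (G' : Set (Finset (Fin n)))), φ ≠ 0 ∧
      ∀ i < N, ∀ x ∈ Er i, φ x = 0 := by
  obtain ⟨X, hX⟩ : ∃ X : Submodule (ZMod 2) ((Fin n → ZMod 2) → ZMod 2),
      X = Submodule.span (ZMod 2) (mono '' (G' : Set (Finset (Fin n)))) := ⟨_, rfl⟩
  have hfX : Module.finrank (ZMod 2) X = G'.card := by
    have h1 : LinearIndependent (ZMod 2) (fun T : G' => mono (T : Finset (Fin n))) :=
      (mono_indep n).comp (fun T : G' => (T : Finset (Fin n))) Subtype.val_injective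
    have h2 := finrank_span_eq_card h1
    have h3 : Set.range (fun T : G' => mono (T : Finset (Fin n))) = mono '' (G' : Set (Finset (Fin n))) := by
      ext g
      constructor
      · rintro ⟨T, rfl⟩
        exact ⟨T.1, T.2, rfl⟩
      · rintro ⟨T, hT, rfl⟩
        exact ⟨⟨T, hT⟩, rfl⟩
    rw [h3, Fintype.card_coe] at h2
    rw [hX]
    exact h2
  have hXR : X ≤ H96RX.RM (Fin n → ZMod 2) D' := by
    rw [← Pol_eq_RM, hX]
    refine Submodule.span_le.2 ?_
    rintro _ ⟨T, hT, rfl⟩
    exact mono_mem (hG' T hT)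
  obtain ⟨U, hU⟩ : ∃ U : Set (Fin n → ZMod 2), U = {x | ∃ i < N, x ∈ Er i} := ⟨_, rfl⟩
  have h2 := TC_union D' Er N
  rw [← hU] at h2
  have h3 := H96RX.rk_add (V := Fin n → ZMod 2) D' U
  have h4 := Submodule.finrank_sup_add_finrank_inf_eq X (H96RX.RM (Fin n → ZMod 2) D' ⊓ H96RX.van U)
  have h5 : Module.finrank (ZMod 2) ↥(X ⊔ (H96RX.RM (Fin n → ZMod 2) D' ⊓ H96RX.van U)) ≤
      Module.finrank (ZMod 2) (H96RX.RM (Fin n → ZMod 2) D') :=
    Submodule.finrank_mono (sup_le hXR inf_le_left)
  have h6 : 0 < Module.finrank (ZMod 2) ↥(X ⊓ (H96RX.RM (Fin n → ZMod 2) D' ⊓ H96RX.van U)) := by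
    omega
  have h7 : X ⊓ (H96RX.RM (Fin n → ZMod 2) D' ⊓ H96RX.van U) ≠ ⊥ := by
    intro h8
    rw [h8, finrank_bot] at h6
    exact lt_irrefl _ h6
  obtain ⟨φ, hφ, hφ0⟩ := Submodule.exists_mem_ne_zero_of_ne_bot h7
  refine ⟨φ, ?_, hφ0, fun i hi x hx => ?_⟩
  · rw [← hX]
    exact hφ.1
  · exact hφ.2.2 x (by rw [hU]; exact ⟨i, hi, hx⟩)

theorem gate_bound {n e D f S t D1 D0 : ℕ} {ι : Type} {C : ι → Set (Fin n → ZMod 2)}
    (M : ℕ → Submodule (ZMod 2) (Fn n)) (K : Submodule (ZMod 2) (Fn n))
    (hMle : ∀ a b, a ≤ b → M a ≤ M b)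
    (hM : ∀ a c, ∀ g ∈ M a, ∀ h ∈ Pol n c, g * h ∈ M (a + c))
    (hK : ∀ a c, a + c ≤ D0 → ∀ g ∈ K, g ∈ M a → ∀ h ∈ Pol n c, g * h ∈ K)
    (hK2 : ∀ j a, a + t < D0 → ∀ g ∈ M a, g * indic (C j)ᶜ ∈ K)
    (Gs : Set (Finset (Fin n))) (hG1 : ∀ T ∈ Gs, mono T ∈ M D1)
    (hG2 : Disjoint (Submodule.span (ZMod 2) (mono '' Gs)) K)
    {w ee : ℕ → ℕ} (hee : ee 0 = e) (hs : ∀ k < D, ee (k + 1) = ee k * w (k + 1)) (hw : ∀ k, 1 ≤ w k)
    (hdeg : D1 + (f + 1) * ee D + t < D0) {q ε : ℝ} (hq0 : 0 < q) (hq1 : q < 1)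
    (hε : ∀ k < D, (1 - q ^ (ee k) / 2) ^ (w (k + 1)) ≤ ε) (href : Refutes C e D f S) (D' : ℕ) :
    ((Finset.univ.filter (fun T : Finset (Fin n) => T.card = D' ∧ T ∈ Gs)).card : ℝ) * q ^ D' ≤
      S * (ε * (1 + q) ^ n) := by
  obtain ⟨c, N, F, hF, hline, hlast⟩ := href
  obtain ⟨ap, Er, hap, hEr⟩ := approx_gates c hee hs hw hq0.le hq1 hε
  have hch : ∀ i, ∃ a : Fn n, i < N →
      a ∈ Pol n (ee D) ∧ ∀ x, (∀ g < S, x ∉ Er g) → a x = 1 + F i x := by
    intro i
    by_cases hi : i < N
    · obtain ⟨p, hp, s, hsI, hFi⟩ := par_rep (hF i hi)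
      obtain ⟨c1, hc1, hc1x⟩ : ∃ c1 : Fn n, c1 ∈ Pol n (ee D) ∧ ∀ x, c1 x = 1 :=
        ⟨fun _ => 1, const_mem 1, fun _ => rfl⟩
      refine ⟨c1 + (p + ∑ g ∈ s, ap g), fun _ => ⟨?_, ?_⟩⟩
      · refine Submodule.add_mem _ hc1 (Submodule.add_mem _ ?_ (Submodule.sum_mem _ fun g hg => ?_))
        · refine Pol_mono ?_ hp
          rw [← hee]
          exact ee_mono hs hw (Nat.zero_le _) le_rfl
        · exact Pol_mono (ee_mono hs hw (c.le g (hsI g hg)) le_rfl) (hap g (hsI g hg)).1
      · intro x hx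
        rw [hFi]
        simp only [Pi.add_apply, Finset.sum_apply, hc1x]
        rw [Finset.sum_congr rfl fun g hg => (hEr x hx g (hsI g hg)).symm]
    · exact ⟨0, fun h => absurd h hi⟩
  choose a ha using hch
  obtain ⟨G', hG'⟩ : ∃ G' : Finset (Finset (Fin n)),
      G' = Finset.univ.filter (fun T : Finset (Fin n) => T.card = D' ∧ T ∈ Gs) := ⟨_, rfl⟩
  rw [← hG']
  have hG'm : ∀ T, T ∈ G' ↔ T.card = D' ∧ T ∈ Gs := by
    intro T
    rw [hG', Finset.mem_filter]
    exact ⟨fun h => h.2, fun h => ⟨Finset.mem_univ _, h⟩⟩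
  have claim : G'.card ≤ ∑ g ∈ Finset.range S, H96RX.rk (Fin n → ZMod 2) D' (Er g) := by
    by_contra hcon
    obtain ⟨φ, hφX, hφ0, hφE⟩ := TC_exists G' (fun T hT => ((hG'm T).1 hT).1.le) Er (not_le.1 hcon)
    apply hφ0
    have hφG : φ ∈ Submodule.span (ZMod 2) (mono '' Gs) := by
      refine (Submodule.span_mono (Set.image_mono ?_)) hφX
      intro T hT
      exact ((hG'm T).1 hT).2
    have hφM : φ ∈ M D1 := by
      refine (Submodule.span_le.2 ?_) hφG
      rintro _ ⟨T, hT, rfl⟩
      exact hG1 T hT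
    have hout : ∀ x, φ x ≠ 0 → ∀ g < S, x ∉ Er g := fun x hx g hg hxg => hx (hφE g hg x hxg)
    have hval : ∀ i < N, ∀ x, φ x ≠ 0 → a i x = 1 + F i x := fun i hi x hx =>
      (ha i hi).2 x (hout x hx)
    have hMa : ∀ i < N, φ * a i ∈ M (D1 + ee D) := fun i hi => hM _ _ φ hφM _ (ha i hi).1
    have hPC : ∀ i, i < N → φ * a i ∈ K := by
      intro i
      induction i using Nat.strong_induction_on with
      | _ i ih =>
        intro hi
        rcases hline i hi with ⟨j, hj⟩ | ⟨Kf, hKf, hKi, hcov⟩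
        · have h2 : φ * a i = (φ * a i) * indic (C j)ᶜ := by
            funext x
            by_cases hφx : φ x = 0
            · simp only [Pi.mul_apply, hφx, zero_mul]
            · simp only [Pi.mul_apply]
              rw [hval i hi x hφx]
              unfold indic
              by_cases hx : x ∈ C j
              · rw [if_neg (by simpa using hx), hj x hx]
                have h4 : (1 : ZMod 2) + 1 = 0 := by decide
                rw [h4, mul_zero, mul_zero]
              · rw [if_pos (by simpa using hx), mul_one]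
          rw [h2]
          have h5 : (f + 1) * ee D = f * ee D + ee D := by ring
          exact hK2 j (D1 + ee D) (by omega) _ (hMa i hi)
        · have hQ : ∀ K' : Finset ℕ, (∀ j ∈ K', j < i) →
              (∏ j ∈ K', (1 + a j)) ∈ Pol n (ee D * K'.card) := by
            intro K'
            induction K' using Finset.induction_on with
            | empty =>
              intro _
              rw [Finset.prod_empty]
              exact const_mem 1
            | insert j K' hjK ihK =>
              intro hlt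
              rw [Finset.prod_insert hjK, Finset.card_insert_of_notMem hjK, Nat.mul_succ,
                add_comm (ee D * K'.card) (ee D)]
              have hjN : j < N := (hlt j (Finset.mem_insert_self j K')).trans hi
              refine Pol_mul (Submodule.add_mem _ (const_mem 1) (ha j hjN).1) ?_
              exact ihK fun l hl => hlt l (Finset.mem_insert_of_mem hl)
          have hstep : ∀ K' : Finset ℕ, (∀ j ∈ K', j < i) → K'.card ≤ f →
              φ * a i * (1 + ∏ j ∈ K', (1 + a j)) ∈ K := by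
            intro K'
            induction K' using Finset.induction_on with
            | empty =>
              intro _ _
              have h3 : φ * a i * (1 + ∏ j ∈ (∅ : Finset ℕ), (1 + a j)) = 0 := by
                funext x
                have h4 : (1 : ZMod 2) + 1 = 0 := by decide
                rw [Finset.prod_empty]
                simp only [Pi.mul_apply, Pi.add_apply, Pi.one_apply, Pi.zero_apply, h4, mul_zero]
              rw [h3]
              exact Submodule.zero_mem _
            | insert j K' hjK ihK =>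
              intro hlt hcard
              rw [Finset.card_insert_of_notMem hjK] at hcard
              have hji : j < i := hlt j (Finset.mem_insert_self j K')
              have hjN : j < N := hji.trans hi
              have hlt' : ∀ l ∈ K', l < i := fun l hl => hlt l (Finset.mem_insert_of_mem hl)
              have h3 : φ * a i * (1 + ∏ l ∈ insert j K', (1 + a l)) =
                  φ * a i * (1 + ∏ l ∈ K', (1 + a l)) + φ * a j * (a i * ∏ l ∈ K', (1 + a l)) := by
                rw [Finset.prod_insert hjK]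
                ring
              rw [h3]
              refine Submodule.add_mem _ (ihK hlt' (by omega)) ?_
              refine hK (D1 + ee D) (ee D + ee D * K'.card) ?_ _ (ih j hji hjN) (hMa j hjN) _
                (Pol_mul (ha i hi).1 (hQ K' hlt'))
              have h4 : ee D * K'.card + ee D ≤ ee D * f := by
                rw [← Nat.mul_succ]
                exact Nat.mul_le_mul_left _ hcard
              have h5 : (f + 1) * ee D = ee D * f + ee D := by ring
              omega
          have h3 : φ * a i = φ * a i * (1 + ∏ j ∈ Kf, (1 + a j)) := by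
            funext x
            by_cases hφx : φ x = 0
            · simp only [Pi.mul_apply, hφx, zero_mul]
            · simp only [Pi.mul_apply, Pi.add_apply, Pi.one_apply, Finset.prod_apply]
              rw [hval i hi x hφx]
              have h6 : (1 : ZMod 2) + 1 = 0 := by decide
              by_cases hx : ∀ k ∈ Kf, F k x = 1
              · rw [hcov x hx, h6, mul_zero, zero_mul]
              · push Not at hx
                obtain ⟨j, hj, hxj⟩ := hx
                have hjN : j < N := (hKi j hj).trans hi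
                have h4 : (1 : ZMod 2) + a j x = 0 := by
                  rw [hval j hjN x hφx]
                  rcases TC_zmod (F j x) with h7 | h7
                  · rw [h7]
                    decide
                  · exact absurd h7 hxj
                rw [Finset.prod_eq_zero hj h4, add_zero, mul_one]
          rw [h3]
          exact hstep Kf hKi hKf
    obtain ⟨i, hi, hFi⟩ := hlast
    have h2 : φ * a i = φ := by
      funext x
      rw [Pi.mul_apply]
      by_cases hφx : φ x = 0
      · rw [hφx, zero_mul]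
      · rw [hval i hi x hφx, hFi x, add_zero, mul_one]
    have h3 : φ ∈ K := by
      rw [← h2]
      exact hPC i hi
    exact Submodule.disjoint_def.1 hG2 φ hφG h3
  have hsum : ((∑ g ∈ Finset.range S, H96RX.rk (Fin n → ZMod 2) D' (Er g) : ℕ) : ℝ) * q ^ D' ≤
      S * (ε * (1 + q) ^ n) := by
    rw [Nat.cast_sum, Finset.sum_mul]
    calc _ ≤ ∑ _g ∈ Finset.range S, (ε * (1 + q) ^ n) := by
          refine Finset.sum_le_sum fun g hg => ?_
          have hgS := Finset.mem_range.1 hg
          have h2 := H96RX.pow_mul_rk_le (V := Fin n → ZMod 2) hq0.le hq1 D' (Er g)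
          rw [mul_comm]
          exact h2.trans (hap g hgS).2
      _ = S * (ε * (1 + q) ^ n) := by
          rw [Finset.sum_const, Finset.card_range, nsmul_eq_mul]
  refine le_trans ?_ hsum
  exact mul_le_mul_of_nonneg_right (by exact_mod_cast claim) (pow_nonneg hq0.le _)

theorem weight_bound {n : ℕ} {q A : ℝ} (Gs : Set (Finset (Fin n)))
    (h : ∀ D' : ℕ, ((Finset.univ.filter (fun T : Finset (Fin n) => T.card = D' ∧ T ∈ Gs)).card : ℝ) * q ^ D' ≤ A) :
    ∑ T ∈ Finset.univ.filter (fun T : Finset (Fin n) => T ∈ Gs), q ^ T.card ≤ (n + 1) * A := by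
  have h1 : ∑ T ∈ Finset.univ.filter (fun T : Finset (Fin n) => T ∈ Gs), q ^ T.card =
      ∑ D' ∈ Finset.range (n + 1), ((Finset.univ.filter
        (fun T : Finset (Fin n) => T.card = D' ∧ T ∈ Gs)).card : ℝ) * q ^ D' := by
    rw [← Finset.sum_fiberwise_of_maps_to (s := Finset.univ.filter (fun T : Finset (Fin n) => T ∈ Gs))
      (t := Finset.range (n + 1)) (g := fun T => T.card) (by
        intro T _
        rw [Finset.mem_range]
        have h2 := Finset.card_le_univ T
        rw [Fintype.card_fin] at h2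
        omega)]
    refine Finset.sum_congr rfl fun D' _ => ?_
    have h3 : (Finset.univ.filter (fun T : Finset (Fin n) => T.card = D' ∧ T ∈ Gs)) =
        (Finset.univ.filter (fun T : Finset (Fin n) => T ∈ Gs)).filter (fun T => T.card = D') := by
      ext T
      simp only [Finset.mem_filter, Finset.mem_univ, true_and]
      exact and_comm
    rw [h3, ← nsmul_eq_mul, ← Finset.sum_const]
    refine Finset.sum_congr rfl fun T hT => ?_
    rw [(Finset.mem_filter.1 hT).2]
  rw [h1]
  calc _ ≤ ∑ _D' ∈ Finset.range (n + 1), A := Finset.sum_le_sum fun D' _ => h D'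
    _ = (n + 1) * A := by
      rw [Finset.sum_const, Finset.card_range, nsmul_eq_mul]
      push_cast
      ring

end H98DH

end S_H98_DH_TC

section S_H98_DH_DET

set_option autoImplicit false
open scoped Classical

namespace H98DH

open H96RE H91RE

theorem det_bound {n m e D f Sz t s D1 D0 : ℕ} {ι : Type} [Fintype ι] (blk : Fin n → Fin m) (Lt : Finset (Fin n) → Prop)
    (hLt0 : Lt ∅) (hLt : ∀ R R' : Finset (Fin n), R ⊆ R' → Lt R' → Lt R)
    (S : ι → Finset (Fin m)) (C : ι → Set (Fin n → ZMod 2))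
    (hC : ∀ j x y, (∀ i, blk i ∈ S j → x i = y i) → x ∈ C j → y ∈ C j) (hpriv : Priv blk Lt S C)
    (hs : 1 ≤ s) (hSt : ∀ j, (S j).card ≤ t) (hE : Expd S s D0)
    {w ee : ℕ → ℕ} (hee : ee 0 = e) (hs' : ∀ k < D, ee (k + 1) = ee k * w (k + 1)) (hw : ∀ k, 1 ≤ w k)
    (hdeg : D1 + (f + 1) * ee D + t < D0) {q ε : ℝ} (hq0 : 0 < q) (hq1 : q < 1)
    (hε : ∀ k < D, (1 - q ^ (ee k) / 2) ^ (w (k + 1)) ≤ ε) (href : Refutes C e D f Sz) :
    ∑ T ∈ Finset.univ.filter (fun T : Finset (Fin n) => (heavy blk Lt T).card ≤ D1 ∧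
      ∀ J : Finset ι, J.Nonempty → J.card ≤ s → J.card < (J.biUnion S \ heavy blk Lt T).card), q ^ T.card ≤
      (n + 1) * (Sz * (ε * (1 + q) ^ n)) := by
  have hSD : ∀ j, (S j).card ≤ D0 := fun j => (hSt j).trans (by omega)
  obtain ⟨K, hK1, hK2, hK3⟩ := ar_operator blk Lt hLt0 hLt S C hC hpriv hs hSD hE
  set Gs : Set (Finset (Fin n)) := {T | (heavy blk Lt T).card ≤ D1 ∧
    ∀ J : Finset ι, J.Nonempty → J.card ≤ s → J.card < (J.biUnion S \ heavy blk Lt T).card} with hGs
  have hG1 : ∀ T ∈ Gs, mono T ∈ Mh blk Lt D1 := fun T hT => Submodule.subset_span ⟨T, hT.1, rfl⟩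
  have hsub : Gs ⊆ {T | (heavy blk Lt T).card ≤ D0 ∧ Sup S s (heavy blk Lt T) = ∅} := fun T hT =>
    ⟨hT.1.trans (by omega), sup_empty hT.2⟩
  have hG2 : Disjoint (Submodule.span (ZMod 2) (mono '' Gs)) K :=
    hK3.mono_left (Submodule.span_mono (Set.image_mono hsub))
  refine le_trans (le_of_eq (Finset.sum_congr ?_ fun _ _ => rfl)) (weight_bound Gs fun D' =>
    gate_bound (t := t) (D1 := D1) (D0 := D0) (Mh blk Lt) K
    (fun a b hab => Mh_le hab) (fun a c g hg h hh => Mh_mul hLt hg hh)
    (fun a c hac g hg hg' h hh => K_mul hLt hK2 hac hg hg' hh)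
    (fun j a ha g hg => K_ind hLt hK2 hC (hK1 j) (lt_of_le_of_lt (Nat.add_le_add_left (hSt j) a) ha) hg)
    Gs hG1 hG2 hee hs' hw hdeg hq0 hq1 hε href D')
  ext T
  constructor
  · intro h
    exact (@Finset.mem_filter _ _ (_) _ _).2 ⟨Finset.mem_univ _, ((@Finset.mem_filter _ _ (_) _ _).1 h).2⟩
  · intro h
    exact (@Finset.mem_filter _ _ (_) _ _).2 ⟨Finset.mem_univ _, ((@Finset.mem_filter _ _ (_) _ _).1 h).2⟩

end H98DH

end S_H98_DH_DET
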