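import Mathlib
import Pool.Agent.H98.DP.Det

/-! Bounded depth refutations with parity gates, part Gd: this file joins several modules to save build time. -/

set_option autoImplicit false

section S_H98_DH_GA

set_option autoImplicit false
open scoped Classical

namespace H98DH

open H96RE H91RE

theorem good_point (b : ℕ) : Good ({0} : Set (Fin b → ZMod 2)) {∅} := by
  refine ⟨rfl, ?_, ?_, ?_⟩
  · intro R R' h1 h2
    have h3 : R' = ∅ := h2
    rw [h3] at h1
    exact Finset.subset_empty.mp h1
  · rw [Nat.card_unique, Nat.card_unique]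
  · intro g hg h0
    rw [Set.image_singleton, Submodule.mem_span_singleton] at hg
    obtain ⟨c, rfl⟩ := hg
    have h1 := h0 0 rfl
    have h2 : mono (∅ : Finset (Fin b)) 0 = 1 := by
      unfold mono
      exact Finset.prod_empty
    rw [Pi.smul_apply, h2, smul_eq_mul, mul_one] at h1
    rw [h1, zero_smul]

theorem good_span {B : ℕ} {A : Set (Fin B → ZMod 2)} {L : Set (Finset (Fin B))} (h : Good A L) (F : Fn B) :
    ∃ g ∈ Submodule.span (ZMod 2) (mono '' L), ∀ x ∈ A, g x = F x := by
  have hli : LinearIndependent (ZMod 2) (fun T : L => mono (T : Finset (Fin B))) :=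
    (mono_indep B).comp _ Subtype.val_injective
  have hrange : Set.range (fun T : L => mono (T : Finset (Fin B))) = mono '' L :=
    (Set.image_eq_range _ _).symm
  have hfr : Module.finrank (ZMod 2) (Submodule.span (ZMod 2) (mono '' L)) = Nat.card L := by
    rw [← hrange, finrank_span_eq_card hli, Nat.card_eq_fintype_card]
  have hfr2 : Module.finrank (ZMod 2) (A → ZMod 2) = Nat.card A := by
    rw [Module.finrank_fintype_fun_eq_card, Nat.card_eq_fintype_card]
  let ρ : Submodule.span (ZMod 2) (mono '' L) →ₗ[ZMod 2] (A → ZMod 2) :=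
    { toFun := fun g x => (g : Fn B) x
      map_add' := fun _ _ => rfl
      map_smul' := fun _ _ => rfl }
  have hinj : Function.Injective ρ := by
    rw [← LinearMap.ker_eq_bot, LinearMap.ker_eq_bot']
    intro g hg
    apply Subtype.ext
    refine h.ind g g.2 ?_
    intro x hx
    exact congrFun hg ⟨x, hx⟩
  have hsur : Function.Surjective ρ :=
    (LinearMap.injective_iff_surjective_of_finrank_eq_finrank (by rw [hfr, hfr2, h.card])).mp hinj
  obtain ⟨g, hg⟩ := hsur (fun x => F x)
  exact ⟨g, g.2, fun x hx => congrFun hg ⟨x, hx⟩⟩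

theorem good_translate {B : ℕ} {A : Set (Fin B → ZMod 2)} {L : Set (Finset (Fin B))} (h : Good A L)
    (σ : Fin B → ZMod 2) : Good {x | x + σ ∈ A} L := by
  have hss : ∀ x : Fin B → ZMod 2, x + σ + σ = x := by
    intro x
    funext i
    rw [Pi.add_apply, Pi.add_apply, add_assoc, CharTwo.add_self_eq_zero, add_zero]
  refine ⟨h.empty, h.down, ?_, ?_⟩
  · rw [← h.card]
    exact Nat.card_congr ((Equiv.addRight σ).subtypeEquiv (fun x => Iff.rfl))
  · intro g hg h0
    let τ : Fn B →ₗ[ZMod 2] Fn B :=
      { toFun := fun g x => g (x + σ)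
        map_add' := fun _ _ => rfl
        map_smul' := fun _ _ => rfl }
    have hτ : Submodule.span (ZMod 2) (mono '' L) ≤ (Submodule.span (ZMod 2) (mono '' L)).comap τ := by
      rw [Submodule.span_le]
      rintro _ ⟨R, hR, rfl⟩
      show τ (mono R) ∈ Submodule.span (ZMod 2) (mono '' L)
      have h1 : τ (mono R) = ∑ t ∈ R.powerset, (∏ i ∈ R \ t, σ i) • mono t := by
        funext x
        rw [Finset.sum_apply]
        have h2 : τ (mono R) x = ∏ i ∈ R, (x i + σ i) := rfl
        rw [h2, Finset.prod_add]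
        refine Finset.sum_congr rfl ?_
        intro t _
        rw [Pi.smul_apply, smul_eq_mul, mul_comm]
        rfl
      rw [h1]
      refine Submodule.sum_mem _ ?_
      intro t ht
      rw [Finset.mem_powerset] at ht
      exact Submodule.smul_mem _ _ (Submodule.subset_span ⟨t, h.down t R ht hR, rfl⟩)
    have h1 : τ g = 0 := by
      refine h.ind _ (hτ hg) ?_
      intro x hx
      show g (x + σ) = 0
      refine h0 _ ?_
      show x + σ + σ ∈ A
      rw [hss]
      exact hx
    funext x
    have h2 : τ g (x + σ) = g x := by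
      show g (x + σ + σ) = g x
      rw [hss]
    rw [← h2, h1]
    rfl

theorem good_dual {B : ℕ} {A : Set (Fin B → ZMod 2)} {L : Set (Finset (Fin B))} (h : Good A L) {L0 : Finset (Fin B)}
    (hL0 : L0 ∈ L) : ∃ P : Finset (Fin B → ZMod 2), (∀ z ∈ P, z ∈ A) ∧
      ∀ R ∈ L, ∑ z ∈ P, mono R z = if R = L0 then 1 else 0 := by
  choose d hd1 hd2 using fun z : Fin B → ZMod 2 => good_span h (fun x => if x = z then 1 else 0)
  let b := Module.Basis.mk (mono_indep B) (mono_top B).ge
  have hb : ∀ R, b.coord L0 (mono R) = if R = L0 then 1 else 0 := by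
    intro R
    have h1 : mono R = b R := (Module.Basis.mk_apply (mono_indep B) (mono_top B).ge R).symm
    rw [h1, Module.Basis.coord_apply, Module.Basis.repr_self, Finsupp.single_apply]
  have h01 : ∀ t : ZMod 2, t = 0 ∨ t = 1 := by decide
  refine ⟨Finset.univ.filter (fun z => z ∈ A ∧ b.coord L0 (d z) = 1), ?_, ?_⟩
  · intro z hz
    exact (Finset.mem_filter.mp hz).2.1
  · intro R hR
    have hf : mono R - ∑ z ∈ Finset.univ.filter (fun z => z ∈ A), (mono R z) • d z = 0 := by
      refine h.ind _ ?_ ?_
      · refine Submodule.sub_mem _ (Submodule.subset_span ⟨R, hR, rfl⟩) ?_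
        exact Submodule.sum_mem _ fun z _ => Submodule.smul_mem _ _ (hd1 z)
      · intro x hx
        rw [Pi.sub_apply, Finset.sum_apply, Finset.sum_eq_single x]
        · rw [Pi.smul_apply, hd2 x x hx, if_pos rfl, smul_eq_mul, mul_one, sub_self]
        · intro z _ hzx
          rw [Pi.smul_apply, hd2 z x hx, if_neg (Ne.symm hzx), smul_zero]
        · intro hx2
          exact absurd (Finset.mem_filter.mpr ⟨Finset.mem_univ _, hx⟩) hx2
    have h2 : mono R = ∑ z ∈ Finset.univ.filter (fun z => z ∈ A), (mono R z) • d z := sub_eq_zero.mp hf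
    rw [← hb R]
    have h3 : b.coord L0 (mono R) =
        ∑ z ∈ Finset.univ.filter (fun z => z ∈ A), (mono R z) * b.coord L0 (d z) := by
      conv_lhs => rw [h2]
      rw [map_sum]
      refine Finset.sum_congr rfl ?_
      intro z _
      rw [map_smul, smul_eq_mul]
    rw [h3, ← Finset.filter_filter, Finset.sum_filter]
    refine Finset.sum_congr rfl ?_
    intro z _
    rcases h01 (b.coord L0 (d z)) with h4 | h4
    · rw [h4, mul_zero, if_neg (by decide)]
    · rw [h4, mul_one, if_pos rfl]

end H98DH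

end S_H98_DH_GA

section S_H98_DH_GB

set_option autoImplicit false
open scoped Classical

namespace H98DH

open H96RE H91RE

theorem sum_mono {B : ℕ} (T : Finset (Fin B)) :
    ∑ x : Fin B → ZMod 2, mono T x = if T = Finset.univ then 1 else 0 := by
  have h1 : ∀ x : Fin B → ZMod 2, mono T x = ∏ i, (if i ∈ T then x i else 1) := by
    intro x
    rw [Finset.prod_ite_mem, Finset.univ_inter]
    rfl
  rw [Finset.sum_congr rfl fun x _ => h1 x]
  have h2 := Finset.prod_univ_sum (fun _ : Fin B => (Finset.univ : Finset (ZMod 2)))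
    (fun i (c : ZMod 2) => if i ∈ T then c else 1)
  rw [Fintype.piFinset_univ] at h2
  rw [← h2]
  by_cases hT : T = Finset.univ
  · rw [if_pos hT]
    refine Finset.prod_eq_one fun i _ => ?_
    have hi : i ∈ T := by rw [hT]; exact Finset.mem_univ i
    simp only [hi, if_true]
    decide
  · rw [if_neg hT]
    obtain ⟨i, hi⟩ : ∃ i, i ∉ T := by
      by_contra hcon
      push Not at hcon
      exact hT (Finset.eq_univ_iff_forall.mpr hcon)
    refine Finset.prod_eq_zero (Finset.mem_univ i) ?_
    simp only [hi, if_false]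
    decide

private theorem GB_orth {B : ℕ} {L M : Set (Finset (Fin B))} (hLM : ∀ T ∈ M, ∀ U ∈ L, T ∪ U ≠ Finset.univ)
    {f g : Fn B} (hf : f ∈ Submodule.span (ZMod 2) (mono '' M)) (hg : g ∈ Submodule.span (ZMod 2) (mono '' L)) :
    ∑ x : Fin B → ZMod 2, f x * g x = 0 := by
  induction hf using Submodule.span_induction with
  | mem f hf =>
    obtain ⟨T, hT, rfl⟩ := hf
    induction hg using Submodule.span_induction with
    | mem g hg =>
      obtain ⟨U, hU, rfl⟩ := hg
      have h1 : ∀ x : Fin B → ZMod 2, mono T x * mono U x = mono (T ∪ U) x := by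
        intro x
        rw [← mono_mul]
        rfl
      rw [Finset.sum_congr rfl fun x _ => h1 x, sum_mono, if_neg (hLM T hT U hU)]
    | zero => simp
    | add g g' _ _ h1 h2 =>
      have h3 : ∀ x : Fin B → ZMod 2, mono T x * (g + g') x = mono T x * g x + mono T x * g' x := by
        intro x
        rw [Pi.add_apply, mul_add]
      rw [Finset.sum_congr rfl fun x _ => h3 x, Finset.sum_add_distrib, h1, h2, add_zero]
    | smul c g _ h1 =>
      have h3 : ∀ x : Fin B → ZMod 2, mono T x * (c • g) x = c * (mono T x * g x) := by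
        intro x
        rw [Pi.smul_apply, smul_eq_mul]
        ring
      rw [Finset.sum_congr rfl fun x _ => h3 x, ← Finset.mul_sum, h1, mul_zero]
  | zero => simp
  | add f f' _ _ h1 h2 =>
    have h3 : ∀ x : Fin B → ZMod 2, (f + f') x * g x = f x * g x + f' x * g x := by
      intro x
      rw [Pi.add_apply, add_mul]
    rw [Finset.sum_congr rfl fun x _ => h3 x, Finset.sum_add_distrib, h1, h2, add_zero]
  | smul c f _ h1 =>
    have h3 : ∀ x : Fin B → ZMod 2, (c • f) x * g x = c * (f x * g x) := by
      intro x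
      rw [Pi.smul_apply, smul_eq_mul]
      ring
    rw [Finset.sum_congr rfl fun x _ => h3 x, ← Finset.mul_sum, h1, mul_zero]

theorem good_compl {B : ℕ} {A : Set (Fin B → ZMod 2)} {L : Set (Finset (Fin B))} (h : Good A L) (hA : A ≠ Set.univ) :
    Good Aᶜ {T | Tᶜ ∉ L} := by
  have hcA : Nat.card (Fin B → ZMod 2) = 2 ^ B := by
    rw [Nat.card_eq_fintype_card, Fintype.card_fun, ZMod.card, Fintype.card_fin]
  have hcL : Nat.card (Finset (Fin B)) = 2 ^ B := by
    rw [Nat.card_eq_fintype_card, Fintype.card_finset, Fintype.card_fin]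
  have hcard : A.ncard = L.ncard := h.card
  have hset : {T : Finset (Fin B) | Tᶜ ∉ L} = (fun T : Finset (Fin B) => Tᶜ) '' Lᶜ := by
    ext T
    constructor
    · intro hT
      exact ⟨Tᶜ, hT, compl_compl T⟩
    · rintro ⟨U, hU, rfl⟩
      show Uᶜᶜ ∉ L
      rw [compl_compl]
      exact hU
  refine ⟨?_, ?_, ?_, ?_⟩
  · show (∅ : Finset (Fin B))ᶜ ∉ L
    intro hL
    apply hA
    have hLu : L = Set.univ := by
      rw [Set.eq_univ_iff_forall]
      intro T
      refine h.down T _ ?_ hL
      rw [Finset.compl_empty]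
      exact Finset.subset_univ T
    refine Set.eq_of_subset_of_ncard_le (Set.subset_univ A) ?_ (Set.toFinite _)
    rw [hcard, hLu, Set.ncard_univ, Set.ncard_univ, hcA, hcL]
  · intro R R' hR hR' hcon
    exact hR' (h.down _ _ (Finset.compl_subset_compl.mpr hR) hcon)
  · show Aᶜ.ncard = {T : Finset (Fin B) | Tᶜ ∉ L}.ncard
    rw [hset, Set.ncard_image_of_injective _ compl_injective, Set.ncard_compl, Set.ncard_compl, hcA, hcL, hcard]
  · intro f hf hvan
    have horth : ∀ g ∈ Submodule.span (ZMod 2) (mono '' L), ∑ x : Fin B → ZMod 2, f x * g x = 0 := by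
      intro g hg
      refine GB_orth (fun T hT U hU hTU => ?_) hf hg
      apply hT
      refine h.down _ U ?_ hU
      intro i hi
      have h2 : i ∈ T ∪ U := by rw [hTU]; exact Finset.mem_univ i
      rcases Finset.mem_union.mp h2 with h3 | h3
      · exact absurd h3 (Finset.mem_compl.mp hi)
      · exact h3
    funext z
    by_cases hz : z ∈ A
    · obtain ⟨g, hg, hgA⟩ := good_span h (fun x => if x = z then 1 else 0)
      have h1 := horth g hg
      rw [Finset.sum_eq_single z] at h1
      · rw [hgA z hz, if_pos rfl, mul_one] at h1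
        exact h1
      · intro x _ hx
        by_cases hxA : x ∈ A
        · rw [hgA x hxA, if_neg hx, mul_zero]
        · rw [hvan x hxA, zero_mul]
      · intro hcon
        exact absurd (Finset.mem_univ z) hcon
    · exact hvan z hz

end H98DH

end S_H98_DH_GB

section S_H98_DH_GC

set_option autoImplicit false
open scoped Classical

namespace H98DH

open H96RE H91RE

theorem mem_subT' {a B : ℕ} {T : Finset (Fin (a * B))} {i : Fin a} {l : Fin B} :
    l ∈ subT T i ↔ finProdFinEquiv (i, l) ∈ T := by
  simp [subT]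

theorem mono_blocks {a B : ℕ} (T : Finset (Fin (a * B))) (y : Fin (a * B) → ZMod 2) :
    mono T y = ∏ i, mono (subT T i) (sub y i) := by
  have h1 : ∀ (n : ℕ) (R : Finset (Fin n)) (z : Fin n → ZMod 2), mono R z = ∏ j, if j ∈ R then z j else 1 := by
    intro n R z
    simp only [mono, Finset.prod_ite_mem, Finset.univ_inter]
  rw [h1, ← Equiv.prod_comp (finProdFinEquiv (m := a) (n := B)), Fintype.prod_prod_type]
  apply Finset.prod_congr rfl
  intro i _
  rw [h1]
  apply Finset.prod_congr rfl
  intro l _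
  simp only [mem_subT', sub]

theorem subT_ext {a B : ℕ} {T T' : Finset (Fin (a * B))} (h : ∀ i, subT T i = subT T' i) : T = T' := by
  ext j
  obtain ⟨⟨i, l⟩, rfl⟩ := (finProdFinEquiv (m := a) (n := B)).surjective j
  rw [← mem_subT', ← mem_subT', h]

theorem exists_subT {a B : ℕ} (F : Fin a → Finset (Fin B)) : ∃ T : Finset (Fin (a * B)), ∀ i, subT T i = F i := by
  refine ⟨Finset.univ.filter (fun j => (finProdFinEquiv.symm j).2 ∈ F (finProdFinEquiv.symm j).1), fun i => ?_⟩
  ext l
  rw [mem_subT']
  simp only [Finset.mem_filter, Finset.mem_univ, true_and, Equiv.symm_apply_apply]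

/-- points with given blocks -/
def glue {a B : ℕ} (z : Fin a → Fin B → ZMod 2) : Fin (a * B) → ZMod 2 :=
  fun j => z (finProdFinEquiv.symm j).1 (finProdFinEquiv.symm j).2

theorem sub_glue {a B : ℕ} (z : Fin a → Fin B → ZMod 2) : (fun i => sub (glue z) i) = z := by
  funext i l
  simp only [sub, glue, Equiv.symm_apply_apply]

theorem glue_sub {a B : ℕ} (y : Fin (a * B) → ZMod 2) : glue (fun i => sub y i) = y := by
  funext j
  change y (finProdFinEquiv ((finProdFinEquiv.symm j).1, (finProdFinEquiv.symm j).2)) = y j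
  rw [Prod.mk.eta, Equiv.apply_symm_apply]

def subEquiv (a B : ℕ) : (Fin (a * B) → ZMod 2) ≃ (Fin a → Fin B → ZMod 2) :=
  ⟨fun y i => sub y i, glue, glue_sub, sub_glue⟩

noncomputable def subTEquiv (a B : ℕ) : Finset (Fin (a * B)) ≃ (Fin a → Finset (Fin B)) :=
  Equiv.ofBijective (fun T i => subT T i) ⟨fun T T' h => subT_ext (fun i => congrFun h i),
    fun F => by
      obtain ⟨T, hT⟩ := exists_subT F
      exact ⟨T, funext hT⟩⟩

/-- dual sets of points for the product -/
theorem prod_dual {a B : ℕ} {A : Set (Fin B → ZMod 2)} {L : Set (Finset (Fin B))} (h : Good A L)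
    {L0 : Finset (Fin (a * B))} (hL0 : ∀ i, subT L0 i ∈ L) :
    ∃ P : Finset (Fin (a * B) → ZMod 2), (∀ z ∈ P, ∀ i, sub z i ∈ A) ∧
      ∀ R : Finset (Fin (a * B)), (∀ i, subT R i ∈ L) → ∑ z ∈ P, mono R z = if R = L0 then 1 else 0 := by
  choose P hP1 hP2 using fun i => good_dual h (hL0 i)
  refine ⟨(Fintype.piFinset P).map (subEquiv a B).symm.toEmbedding, ?_, ?_⟩
  · intro z hz i
    rw [Finset.mem_map_equiv, Equiv.symm_symm, Fintype.mem_piFinset] at hz
    exact hP1 i _ (hz i)
  · intro R hR
    rw [Finset.sum_map]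
    have h1 : ∀ z : Fin a → Fin B → ZMod 2, mono R ((subEquiv a B).symm.toEmbedding z) =
        ∏ i, mono (subT R i) (z i) := by
      intro z
      rw [mono_blocks]
      apply Finset.prod_congr rfl
      intro i _
      congr 1
      exact congrFun (sub_glue z) i
    rw [Finset.sum_congr rfl (fun z _ => h1 z), ← Finset.prod_univ_sum,
      Finset.prod_congr rfl (fun i _ => hP2 i _ (hR i))]
    by_cases hRL : R = L0
    · subst hRL
      simp
    · rw [if_neg hRL]
      have : ∃ i, subT R i ≠ subT L0 i := by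
        by_contra hcon
        push Not at hcon
        exact hRL (subT_ext hcon)
      obtain ⟨i, hi⟩ := this
      exact Finset.prod_eq_zero (Finset.mem_univ i) (if_neg hi)

theorem good_prod {a B : ℕ} {A : Set (Fin B → ZMod 2)} {L : Set (Finset (Fin B))} (h : Good A L) :
    Good ({y | ∀ i, sub y i ∈ A} : Set (Fin (a * B) → ZMod 2)) {T | ∀ i, subT T i ∈ L} := by
  refine ⟨?_, ?_, ?_, ?_⟩
  · intro i
    have : subT (∅ : Finset (Fin (a * B))) i = ∅ := by
      ext l
      rw [mem_subT']
      simp
    rw [this]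
    exact h.empty
  · intro R R' hRR hR i
    refine h.down _ _ ?_ (hR i)
    intro l hl
    rw [mem_subT'] at hl ⊢
    exact hRR hl
  · have e1 : {y : Fin (a * B) → ZMod 2 | ∀ i, sub y i ∈ A} ≃ (Fin a → A) :=
      { toFun := fun y i => ⟨sub y.1 i, y.2 i⟩
        invFun := fun z => ⟨glue (fun i => (z i).1), fun i => by
          have := congrFun (sub_glue (fun i => (z i : Fin B → ZMod 2))) i
          change sub (glue (fun i => (z i : Fin B → ZMod 2))) i = (z i : Fin B → ZMod 2) at this
          change sub (glue (fun i => (z i : Fin B → ZMod 2))) i ∈ A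
          rw [this]
          exact (z i).2⟩
        left_inv := fun y => Subtype.ext (glue_sub y.1)
        right_inv := fun z => by
          funext i
          exact Subtype.ext (congrFun (sub_glue (fun i => (z i : Fin B → ZMod 2))) i) }
    have e2 : {T : Finset (Fin (a * B)) | ∀ i, subT T i ∈ L} ≃ (Fin a → L) :=
      { toFun := fun T i => ⟨subT T.1 i, T.2 i⟩
        invFun := fun F => ⟨(subTEquiv a B).symm (fun i => (F i).1), fun i => by
          have := congrFun ((subTEquiv a B).apply_symm_apply (fun i => (F i : Finset (Fin B)))) i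
          change subT _ i = _ at this
          rw [this]
          exact (F i).2⟩
        left_inv := fun T => Subtype.ext ((subTEquiv a B).symm_apply_apply T.1)
        right_inv := fun F => by
          funext i
          apply Subtype.ext
          exact congrFun ((subTEquiv a B).apply_symm_apply (fun i => (F i : Finset (Fin B)))) i }
    rw [Nat.card_congr e1, Nat.card_congr e2, Nat.card_pi, Nat.card_pi]
    simp only [h.card]
  · intro g hg hz
    rw [Finsupp.mem_span_image_iff_linearCombination] at hg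
    obtain ⟨c, hc, rfl⟩ := hg
    have hc0 : ∀ L0 ∈ c.support, False := by
      intro L0 hL0
      have hL0' : ∀ i, subT L0 i ∈ L := (Finsupp.mem_supported _ _).mp hc hL0
      obtain ⟨P, hP1, hP2⟩ := prod_dual h hL0'
      have h1 : ∑ z ∈ P, (Finsupp.linearCombination (ZMod 2) mono c) z = 0 :=
        Finset.sum_eq_zero (fun z hz' => hz z (hP1 z hz'))
      have h2 : ∑ z ∈ P, (Finsupp.linearCombination (ZMod 2) mono c) z = c L0 := by
        simp only [Finsupp.linearCombination_apply, Finsupp.sum, Finset.sum_apply, Pi.smul_apply, smul_eq_mul]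
        rw [Finset.sum_comm]
        have h3 : ∀ R ∈ c.support, ∑ z ∈ P, c R * mono R z = if R = L0 then c R else 0 := by
          intro R hR
          rw [← Finset.mul_sum, hP2 R ((Finsupp.mem_supported _ _).mp hc hR)]
          split_ifs <;> simp
        rw [Finset.sum_congr rfl h3, Finset.sum_ite_eq' c.support L0, if_pos hL0]
      rw [h1] at h2
      exact (Finsupp.mem_support_iff.mp hL0) h2.symm
    have : c = 0 := by
      rw [← Finsupp.support_eq_empty]
      exact Finset.eq_empty_of_forall_notMem (fun x hx => hc0 x hx)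
    rw [this]
    simp

theorem good_step {a B : ℕ} {A : Set (Fin B → ZMod 2)} {L : Set (Finset (Fin B))} (h : Good A L) (hA : A ≠ Set.univ) :
    Good (stepA a A) (stepL a L) :=
  good_prod (good_compl h hA)

end H98DH

end S_H98_DH_GC

section S_H98_DH_GW

set_option autoImplicit false
open scoped Classical

namespace H98DH

private theorem mem_f {B : ℕ} {L : Set (Finset (Fin B))} {T : Finset (Fin B)} :
    T ∈ Finset.univ.filter (fun T : Finset (Fin B) => T ∈ L) ↔ T ∈ L := by
  simp

private theorem wt_eq {B : ℕ} (p : ℝ) (L : Set (Finset (Fin B))) :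
    wt p L = ∑ T : Finset (Fin B), if T ∈ L then p ^ T.card * (1 - p) ^ (B - T.card) else 0 := by
  unfold wt
  rw [Finset.sum_filter]

theorem wt_nonneg {B : ℕ} {p : ℝ} (h0 : 0 ≤ p) (h1 : p ≤ 1) (L : Set (Finset (Fin B))) : 0 ≤ wt p L := by
  unfold wt
  refine Finset.sum_nonneg fun T _ => ?_
  exact mul_nonneg (pow_nonneg h0 _) (pow_nonneg (by linarith) _)

theorem wt_univ {B : ℕ} (p : ℝ) : wt p (Set.univ : Set (Finset (Fin B))) = 1 := by
  have h1 := Fintype.sum_pow_mul_eq_add_pow (Fin B) p (1 - p)
  have h2 : (p + (1 - p)) = 1 := by ring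
  rw [Fintype.card_fin, h2, one_pow] at h1
  rw [wt_eq]
  simp only [Set.mem_univ, if_true]
  exact h1

theorem wt_mono {B : ℕ} {p : ℝ} (h0 : 0 ≤ p) (h1 : p ≤ 1) {L L' : Set (Finset (Fin B))} (h : L ⊆ L') :
    wt p L ≤ wt p L' := by
  unfold wt
  refine Finset.sum_le_sum_of_subset_of_nonneg ?_ fun T _ _ => ?_
  · intro T hT
    exact mem_f.2 (h (mem_f.1 hT))
  · exact mul_nonneg (pow_nonneg h0 _) (pow_nonneg (by linarith) _)

theorem wt_compl {B : ℕ} (p : ℝ) (L : Set (Finset (Fin B))) :
    wt p {T : Finset (Fin B) | Tᶜ ∉ L} = 1 - wt (1 - p) L := by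
  have h1 : wt (1 - p) (Set.univ : Set (Finset (Fin B))) = wt (1 - p) L +
      ∑ T : Finset (Fin B), if T ∈ L then 0 else (1 - p) ^ T.card * (1 - (1 - p)) ^ (B - T.card) := by
    rw [wt_eq, wt_eq, ← Finset.sum_add_distrib]
    refine Finset.sum_congr rfl fun T _ => ?_
    by_cases hT : T ∈ L
    · rw [if_pos (Set.mem_univ _), if_pos hT, if_pos hT, add_zero]
    · rw [if_pos (Set.mem_univ _), if_neg hT, if_neg hT, zero_add]
  have h2 : wt p {T : Finset (Fin B) | Tᶜ ∉ L} =
      ∑ T : Finset (Fin B), if T ∈ L then 0 else (1 - p) ^ T.card * (1 - (1 - p)) ^ (B - T.card) := by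
    rw [wt_eq, ← Equiv.sum_comp (Function.Involutive.toPerm (compl : Finset (Fin B) → Finset (Fin B))
      compl_involutive)]
    refine Finset.sum_congr rfl fun T _ => ?_
    rw [Function.Involutive.coe_toPerm]
    have hc : T.card ≤ B := (Finset.card_le_univ T).trans (by rw [Fintype.card_fin])
    by_cases hT : T ∈ L
    · rw [if_pos hT, if_neg]
      intro h
      have h' : Tᶜᶜ ∉ L := h
      rw [compl_compl] at h'
      exact h' hT
    · rw [if_neg hT, if_pos]
      · rw [Finset.card_compl, Fintype.card_fin, Nat.sub_sub_self hc, sub_sub_cancel, mul_comm]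
      · show Tᶜᶜ ∉ L
        rw [compl_compl]
        exact hT
  rw [wt_univ] at h1
  rw [h2]
  linarith

theorem wt_point (b : ℕ) (p : ℝ) : wt p ({∅} : Set (Finset (Fin b))) = (1 - p) ^ b := by
  rw [wt_eq, Finset.sum_eq_single (∅ : Finset (Fin b))]
  · rw [if_pos (Set.mem_singleton _), Finset.card_empty, pow_zero, one_mul, Nat.sub_zero]
  · intro T _ hT
    rw [if_neg]
    exact hT
  · intro h
    exact absurd (Finset.mem_univ _) h

theorem card_subT {a B : ℕ} (T : Finset (Fin (a * B))) : T.card = ∑ i, (subT T i).card := by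
  have h1 : T.card = ∑ x : Fin (a * B), if x ∈ T then 1 else 0 := by
    rw [Finset.sum_boole]
    simp
  rw [h1, ← Fintype.sum_equiv finProdFinEquiv (fun x => if finProdFinEquiv x ∈ T then 1 else 0) _ (fun x => rfl),
    Fintype.sum_prod_type]
  refine Finset.sum_congr rfl fun i _ => ?_
  unfold subT
  rw [Finset.sum_boole]
  simp

/-- the set with the given parts -/
noncomputable def unT {a B : ℕ} (x : Fin a → Finset (Fin B)) : Finset (Fin (a * B)) :=
  Finset.univ.filter (fun y => (finProdFinEquiv.symm y).2 ∈ x (finProdFinEquiv.symm y).1)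

theorem subT_unT {a B : ℕ} (x : Fin a → Finset (Fin B)) : (fun i => subT (unT x) i) = x := by
  funext i
  ext l
  simp only [subT, unT, Finset.mem_filter, Finset.mem_univ, true_and, Equiv.symm_apply_apply]

theorem unT_subT {a B : ℕ} (T : Finset (Fin (a * B))) : unT (fun i => subT T i) = T := by
  ext y
  simp only [subT, unT, Finset.mem_filter, Finset.mem_univ, true_and, Prod.mk.eta, Equiv.apply_symm_apply]

theorem wt_prod {B : ℕ} (a : ℕ) (p : ℝ) (L : Set (Finset (Fin B))) :
    wt p ({T | ∀ i, subT T i ∈ L} : Set (Finset (Fin (a * B)))) = (wt p L) ^ a := by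
  have h1 : (wt p L) ^ a = ∏ _i : Fin a, wt p L := by
    rw [Finset.prod_const, Finset.card_univ, Fintype.card_fin]
  rw [h1]
  unfold wt
  rw [Finset.prod_univ_sum]
  refine Finset.sum_nbij' (fun T i => subT T i) (fun x => unT x) ?_ ?_ ?_ ?_ ?_
  · intro T hT
    have hT' : ∀ i, subT T i ∈ L := mem_f.1 hT
    rw [Fintype.mem_piFinset]
    intro i
    exact mem_f.2 (hT' i)
  · intro x hx
    rw [Fintype.mem_piFinset] at hx
    refine mem_f.2 ?_
    intro i
    have h2 := congrFun (subT_unT x) i
    have h3 : subT (unT x) i = x i := h2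
    rw [h3]
    exact mem_f.1 (hx i)
  · intro T _
    exact unT_subT T
  · intro x _
    exact subT_unT x
  · intro T _
    have h3 : ∑ i : Fin a, (B - (subT T i).card) = a * B - T.card := by
      have h4 : ∑ i : Fin a, (B - (subT T i).card) + ∑ i : Fin a, (subT T i).card = a * B := by
        rw [← Finset.sum_add_distrib]
        have h5 : ∀ i ∈ (Finset.univ : Finset (Fin a)), (B - (subT T i).card) + (subT T i).card = B := by
          intro i _
          exact Nat.sub_add_cancel ((Finset.card_le_univ _).trans (by rw [Fintype.card_fin]))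
        rw [Finset.sum_congr rfl h5, Finset.sum_const, Finset.card_univ, Fintype.card_fin, smul_eq_mul]
      rw [card_subT T]
      omega
    show p ^ T.card * (1 - p) ^ (a * B - T.card) =
      ∏ i : Fin a, (p ^ (subT T i).card * (1 - p) ^ (B - (subT T i).card))
    rw [Finset.prod_mul_distrib, Finset.prod_pow_eq_pow_sum, Finset.prod_pow_eq_pow_sum, ← card_subT, h3]

theorem wt_step {B : ℕ} (a : ℕ) (p : ℝ) (L : Set (Finset (Fin B))) : wt p (stepL a L) = (1 - wt (1 - p) L) ^ a := by
  have h1 : stepL a L = {T | ∀ i, subT T i ∈ {T' : Finset (Fin B) | T'ᶜ ∉ L}} := rfl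
  rw [h1, wt_prod, wt_compl]

theorem wt_half {B : ℕ} (L : Set (Finset (Fin B))) : wt (1 / 2) L = (Nat.card L : ℝ) / 2 ^ B := by
  have h1 : ∀ T ∈ Finset.univ.filter (fun T : Finset (Fin B) => T ∈ L),
      ((1 / 2 : ℝ)) ^ T.card * (1 - 1 / 2) ^ (B - T.card) = 1 / 2 ^ B := by
    intro T _
    have hc : T.card ≤ B := (Finset.card_le_univ T).trans (by rw [Fintype.card_fin])
    rw [show (1 - 1 / 2 : ℝ) = 1 / 2 from by norm_num, ← pow_add, Nat.add_sub_cancel' hc, one_div_pow]
  unfold wt
  rw [Finset.sum_congr rfl h1, Finset.sum_const, nsmul_eq_mul]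
  have h2 : Nat.card L = (Finset.univ.filter (fun T : Finset (Fin B) => T ∈ L)).card := by
    rw [Nat.card_eq_fintype_card, Fintype.card_subtype]
  rw [h2]
  ring

theorem wt_q {B : ℕ} {q : ℝ} (hq : 0 < q) (L : Set (Finset (Fin B))) :
    ∑ T ∈ Finset.univ.filter (fun T : Finset (Fin B) => T ∈ L), q ^ T.card = (1 + q) ^ B * wt (q / (1 + q)) L := by
  unfold wt
  rw [Finset.mul_sum]
  refine Finset.sum_congr rfl fun T _ => ?_
  have hc : T.card ≤ B := (Finset.card_le_univ T).trans (by rw [Fintype.card_fin])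
  have h0 : (1 + q) ≠ 0 := by positivity
  have h1 : (1 - q / (1 + q)) = 1 / (1 + q) := by field_simp; ring
  have h2 : (1 + q) ^ B = (1 + q) ^ T.card * (1 + q) ^ (B - T.card) := by
    rw [← pow_add, Nat.add_sub_cancel' hc]
  rw [h1, h2, div_pow, one_div_pow]
  field_simp

end H98DH

end S_H98_DH_GW

section S_H98_DH_PV

set_option autoImplicit false
open scoped Classical

namespace H98DH

open H96RE H91RE

private theorem PV_blk {m B : ℕ} (v : Fin m) (l : Fin B) : blk m B (finProdFinEquiv (v, l)) = v := by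
  unfold blk
  rw [Equiv.symm_apply_apply]

private theorem PV_empty {m B : ℕ} (v : Fin m) : subT (∅ : Finset (Fin (m * B))) v = ∅ := by
  unfold subT
  simp

private theorem PV_img {m B : ℕ} {v : Fin m} {R : Finset (Fin (m * B))}
    (hR : ∀ i ∈ R, blk m B i = v) :
    R = (subT R v).image (fun l => finProdFinEquiv (v, l)) := by
  ext i
  rw [Finset.mem_image]
  constructor
  · intro hi
    have h1 : finProdFinEquiv (v, (finProdFinEquiv.symm i).2) = i := by
      have h2 : (finProdFinEquiv.symm i).1 = v := hR i hi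
      rw [← h2, Prod.mk.eta, Equiv.apply_symm_apply]
    refine ⟨(finProdFinEquiv.symm i).2, ?_, h1⟩
    unfold subT
    refine Finset.mem_filter.2 ⟨Finset.mem_univ _, ?_⟩
    rw [h1]
    exact hi
  · rintro ⟨l, hl, rfl⟩
    unfold subT at hl
    exact (Finset.mem_filter.1 hl).2

private theorem PV_prt {m B : ℕ} (T : Finset (Fin (m * B))) (v v' : Fin m) :
    subT (prt (blk m B) T v) v' = if v' = v then subT T v else ∅ := by
  unfold subT prt
  by_cases h : v' = v
  · subst h
    rw [if_pos rfl]
    ext l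
    simp [PV_blk]
  · rw [if_neg h]
    ext l
    simp [PV_blk, h]

theorem ltB_empty {B m : ℕ} {L : Set (Finset (Fin B))} (h : ∅ ∈ L) : LtB m L ∅ := by
  intro v
  rw [PV_empty]
  exact h

theorem ltB_down {B m : ℕ} {L : Set (Finset (Fin B))} (h : ∀ R R' : Finset (Fin B), R ⊆ R' → R' ∈ L → R ∈ L)
    (R R' : Finset (Fin (m * B))) (hR : R ⊆ R') (hR' : LtB m L R') : LtB m L R := by
  intro v
  refine h _ _ ?_ (hR' v)
  intro l hl
  unfold subT at hl ⊢
  exact Finset.mem_filter.2 ⟨Finset.mem_univ _, hR (Finset.mem_filter.1 hl).2⟩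

theorem cB_dep {r t m B : ℕ} (A : Set (Fin B → ZMod 2)) (ω : Sys r t m B) (j : Fin r) (x y : Fin (m * B) → ZMod 2)
    (h : ∀ i, blk m B i ∈ SB ω j → x i = y i) (hx : x ∈ CB A ω j) : y ∈ CB A ω j := by
  obtain ⟨i, hi⟩ := hx
  refine ⟨i, ?_⟩
  have h1 : sub x (ω j i).1 = sub y (ω j i).1 := by
    funext l
    apply h
    rw [PV_blk]
    unfold SB
    exact Finset.mem_image.2 ⟨i, Finset.mem_univ _, rfl⟩
  rw [← h1]
  exact hi

theorem priv_of_good {r t m B : ℕ} {A : Set (Fin B → ZMod 2)} {L : Set (Finset (Fin B))} (hG : Good A L)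
    (ω : Sys r t m B) : Priv (blk m B) (LtB m L) (SB ω) (CB A ω) := by
  intro j v hv L' hL' hLt
  obtain ⟨i, -, hi⟩ : ∃ i ∈ (Finset.univ : Finset (Fin t)), (ω j i).1 = v := by
    unfold SB at hv
    exact Finset.mem_image.1 hv
  obtain ⟨P0, hP0, hsum⟩ := good_dual (good_translate hG (ω j i).2) (hLt v)
  obtain ⟨lift, hlift⟩ : ∃ lift : (Fin B → ZMod 2) → (Fin (m * B) → ZMod 2),
      lift = fun z0 i => if blk m B i = v then z0 (finProdFinEquiv.symm i).2 else 0 := ⟨_, rfl⟩
  have hl1 : ∀ z0 l, lift z0 (finProdFinEquiv (v, l)) = z0 l := by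
    intro z0 l
    rw [hlift]
    simp only [PV_blk, if_true, Equiv.symm_apply_apply]
  have hinj : Function.Injective lift := by
    intro a c hac
    funext l
    rw [← hl1 a l, ← hl1 c l, hac]
  refine ⟨P0.image lift, ?_, ?_⟩
  · intro z hz x
    obtain ⟨z0, hz0, rfl⟩ := Finset.mem_image.1 hz
    refine ⟨i, ?_⟩
    have h1 : sub (merge (blk m B) v (lift z0) x) (ω j i).1 = z0 := by
      funext l
      unfold sub merge
      rw [hi, PV_blk, if_pos rfl, hl1]
    rw [h1]
    exact hP0 z0 hz0
  · intro R hR hRt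
    rw [Finset.sum_image (fun a _ c _ h => hinj h)]
    have h2 : ∀ z0, mono R (lift z0) = mono (subT R v) z0 := by
      intro z0
      have h3 : mono R (lift z0) =
          mono ((subT R v).image (fun l => finProdFinEquiv (v, l))) (lift z0) := by
        rw [← PV_img hR]
      rw [h3]
      unfold mono
      rw [Finset.prod_image]
      · exact Finset.prod_congr rfl fun l _ => hl1 z0 l
      · intro a _ c _ hac
        have h4 := finProdFinEquiv.injective hac
        exact (Prod.mk.inj h4).2
    rw [Finset.sum_congr rfl (fun z0 _ => h2 z0), hsum _ (hRt v)]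
    by_cases h5 : R = L'
    · rw [if_pos h5, if_pos (by rw [h5])]
    · rw [if_neg h5, if_neg]
      intro h6
      apply h5
      rw [PV_img hR, PV_img hL', h6]

/-- the heavy blocks of `T` are the `v` with `subT T v ∉ L` -/
theorem heavy_ltB {m B : ℕ} {L : Set (Finset (Fin B))} (h : ∅ ∈ L) (T : Finset (Fin (m * B))) :
    heavy (blk m B) (LtB m L) T = Finset.univ.filter (fun v => subT T v ∉ L) := by
  unfold heavy
  apply Finset.filter_congr
  intro v _
  have h1 : LtB m L (prt (blk m B) T v) ↔ subT T v ∈ L := by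
    constructor
    · intro h2
      have h3 := h2 v
      rw [PV_prt, if_pos rfl] at h3
      exact h3
    · intro h2 v'
      rw [PV_prt]
      by_cases h3 : v' = v
      · rw [if_pos h3]
        exact h2
      · rw [if_neg h3]
        exact h
  rw [h1]

end H98DH

end S_H98_DH_PV
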