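import Mathlib

/-! Bounded depth refutations with parity gates, part Nm: this file joins several modules to save build time. -/

set_option autoImplicit false

section S_H98_DH_RD

set_option autoImplicit false

namespace H98DH

theorem rd_exp_le {η : ℝ} (h0 : 0 < η) (h1 : η ≤ 1 / 20) : Real.exp (-(η + η ^ 2)) ≤ 1 - η := by
  have h2 : 0 ≤ η + η ^ 2 := by positivity
  have h3 := Real.quadratic_le_exp_of_nonneg h2
  have h4 : 1 ≤ Real.exp (η + η ^ 2) * (1 - η) := by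
    have h5 : (1 + (η + η ^ 2) + (η + η ^ 2) ^ 2 / 2) * (1 - η) ≤ Real.exp (η + η ^ 2) * (1 - η) :=
      mul_le_mul_of_nonneg_right h3 (by linarith)
    have h6 : 1 ≤ (1 + (η + η ^ 2) + (η + η ^ 2) ^ 2 / 2) * (1 - η) := by
      have h7 : (1 + (η + η ^ 2) + (η + η ^ 2) ^ 2 / 2) * (1 - η) - 1 =
          η ^ 2 * ((1 + η) ^ 2 * (1 - η) / 2 - η) := by ring
      have h8 : 0 ≤ (1 + η) ^ 2 * (1 - η) / 2 - η := by nlinarith [mul_pos h0 h0]
      have h9 := mul_nonneg (sq_nonneg η) h8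
      linarith
    linarith
  rw [Real.exp_neg, inv_le_iff_one_le_mul₀ (Real.exp_pos _)]
  linarith [mul_comm (Real.exp (η + η ^ 2)) (1 - η)]

theorem rd_inv_pow {η : ℝ} (h0 : 0 < η) (h1 : η ≤ 1 / 20) (t : ℕ) :
    1 / (1 - η) ^ t ≤ Real.exp (t * (η + η ^ 2)) := by
  have h2 : 0 < 1 - η := by linarith
  rw [div_le_iff₀ (pow_pos h2 t)]
  have h3 : Real.exp (t * (η + η ^ 2)) = (Real.exp (η + η ^ 2)) ^ t := by rw [← Real.exp_nat_mul]
  rw [h3, ← mul_pow]
  have h4 := rd_exp_le h0 h1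
  rw [Real.exp_neg, inv_le_iff_one_le_mul₀ (Real.exp_pos _)] at h4
  refine one_le_pow₀ ?_
  linarith [mul_comm (Real.exp (η + η ^ 2)) (1 - η)]

theorem rd_t {η Λ : ℝ} {t : ℕ} (h0 : 0 < η) (hΛ : 0 ≤ Λ) (ht : t = ⌈5 * Λ / η⌉₊) :
    5 * Λ ≤ η * t ∧ η * t ≤ 5 * Λ + η := by
  have h2 : 5 * Λ / η ≤ t := by
    rw [ht]
    exact Nat.le_ceil _
  have h3 : (t : ℝ) < 5 * Λ / η + 1 := by
    rw [ht]
    exact Nat.ceil_lt_add_one (by positivity)
  constructor
  · rw [div_le_iff₀ h0] at h2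
    linarith
  · have h4 : η * t ≤ η * (5 * Λ / η + 1) := mul_le_mul_of_nonneg_left h3.le h0.le
    have h5 : η * (5 * Λ / η + 1) = 5 * Λ + η := by
      field_simp
    linarith

theorem num_r {η X : ℝ} {t r : ℕ} (hX0 : 0 < X) (h0 : 0 < η) (h1 : η ≤ 1 / 20) (hX : 640 ≤ Real.log X)
    (ht : t = ⌈5 * Real.log X / η⌉₊) (hr : r = ⌈X / (1 - η) ^ t⌉₊) :
    (r : ℝ) ≤ 2 * X * Real.exp (t * (η + η ^ 2)) ∧ (r : ℝ) ≤ X ^ 7 := by
  have hη : 0 < 1 - η := by linarith
  have hXe : X = Real.exp (Real.log X) := (Real.exp_log hX0).symm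
  have hX1 : 1 ≤ X := by
    rw [hXe]
    exact Real.one_le_exp (by linarith)
  have h2 : (r : ℝ) ≤ 2 * X * Real.exp (t * (η + η ^ 2)) := by
    have h3 : (r : ℝ) < X / (1 - η) ^ t + 1 := by
      rw [hr]
      exact Nat.ceil_lt_add_one (by positivity)
    have h4 : X / (1 - η) ^ t ≤ X * Real.exp (t * (η + η ^ 2)) := by
      have := mul_le_mul_of_nonneg_left (rd_inv_pow h0 h1 t) hX0.le
      rwa [mul_one_div] at this
    have h5 : 1 ≤ Real.exp (t * (η + η ^ 2)) := Real.one_le_exp (by positivity)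
    have h6 : 1 ≤ X * Real.exp (t * (η + η ^ 2)) := one_le_mul_of_one_le_of_one_le hX1 h5
    linarith
  refine ⟨h2, h2.trans ?_⟩
  obtain ⟨h7, h8⟩ := rd_t h0 (by linarith : 0 ≤ Real.log X) ht
  have h9 : (t : ℝ) * (η + η ^ 2) ≤ (5 * Real.log X + 1 / 20) * (21 / 20) := by
    have h10 : (t : ℝ) * (η + η ^ 2) = (η * t) * (1 + η) := by ring
    rw [h10]
    refine mul_le_mul (by linarith) (by linarith) (by linarith) (by linarith)
  have h11 : (2 : ℝ) ≤ Real.exp 1 := by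
    have := Real.add_one_le_exp 1
    linarith
  have h12 : X ^ 7 = Real.exp (7 * Real.log X) := by
    rw [show (7 : ℝ) * Real.log X = ((7 : ℕ) : ℝ) * Real.log X by norm_num, Real.exp_nat_mul, Real.exp_log hX0]
  calc 2 * X * Real.exp (t * (η + η ^ 2)) ≤ Real.exp 1 * Real.exp (Real.log X) * Real.exp ((5 * Real.log X + 1 / 20) * (21 / 20)) := by
        rw [Real.exp_log hX0]
        refine mul_le_mul (mul_le_mul_of_nonneg_right h11 hX0.le) (Real.exp_le_exp.mpr h9) (Real.exp_pos _).le (by positivity)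
    _ = Real.exp (1 + Real.log X + (5 * Real.log X + 1 / 20) * (21 / 20)) := by rw [Real.exp_add, Real.exp_add]
    _ ≤ Real.exp (7 * Real.log X) := Real.exp_le_exp.mpr (by linarith)
    _ = X ^ 7 := h12.symm

theorem num_un {η X : ℝ} {n t r : ℕ} (h0 : 0 < η) (h1 : η ≤ 1 / 20) (hX : 640 ≤ Real.log X) (hn : (n : ℝ) ≤ X)
    (hr : r = ⌈X / (1 - η) ^ t⌉₊) : (2 : ℝ) ^ n * (1 - (1 - η) ^ t) ^ r ≤ 1 / 8 := by
  have hX0 : 0 ≤ X := (Nat.cast_nonneg n).trans hn
  have hX1 : 0 < X := by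
    rcases hX0.lt_or_eq with h | h
    · exact h
    · rw [← h, Real.log_zero] at hX
      linarith
  have hXe : X = Real.exp (Real.log X) := (Real.exp_log hX1).symm
  have hXb : 641 ≤ X := by
    rw [hXe]
    have := Real.add_one_le_exp (Real.log X)
    linarith
  have hη : 0 < 1 - η := by linarith
  set u := (1 - η) ^ t with hu
  have hu0 : 0 < u := pow_pos hη t
  have hu1 : u ≤ 1 := pow_le_one₀ hη.le (by linarith)
  have h2 : X ≤ r * u := by
    have h3 : X / u ≤ r := by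
      rw [hr]
      exact Nat.le_ceil _
    rwa [div_le_iff₀ hu0] at h3
  have h4 : (1 - u) ^ r ≤ Real.exp (-X) := by
    calc (1 - u) ^ r ≤ (Real.exp (-u)) ^ r := pow_le_pow_left₀ (by linarith) (Real.one_sub_le_exp_neg u) r
      _ = Real.exp (r * -u) := by rw [← Real.exp_nat_mul]
      _ ≤ Real.exp (-X) := Real.exp_le_exp.mpr (by linarith)
  have h5 : (2 : ℝ) ^ n ≤ Real.exp (X * (7 / 10)) := by
    have h6 : (2 : ℝ) ≤ Real.exp (7 / 10) := by
      rw [← Real.exp_log (show (0 : ℝ) < 2 by norm_num)]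
      exact Real.exp_le_exp.mpr (by linarith [Real.log_two_lt_d9])
    calc (2 : ℝ) ^ n ≤ (Real.exp (7 / 10)) ^ n := pow_le_pow_left₀ (by norm_num) h6 n
      _ = Real.exp (n * (7 / 10)) := by rw [← Real.exp_nat_mul]
      _ ≤ Real.exp (X * (7 / 10)) := Real.exp_le_exp.mpr (by linarith)
  calc (2 : ℝ) ^ n * (1 - u) ^ r ≤ Real.exp (X * (7 / 10)) * Real.exp (-X) :=
        mul_le_mul h5 h4 (pow_nonneg (by linarith) r) (Real.exp_pos _).le
    _ = Real.exp (X * (7 / 10) + -X) := by rw [Real.exp_add]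
    _ ≤ Real.exp (-7) := Real.exp_le_exp.mpr (by linarith)
    _ ≤ 1 / 8 := by
        rw [Real.exp_neg, inv_eq_one_div]
        have := Real.add_one_le_exp (7 : ℝ)
        exact one_div_le_one_div_of_le (by norm_num) (by linarith)

theorem rd_geom (s : ℕ) : ∑ l ∈ Finset.Icc 1 s, (1 / 16 : ℝ) ^ l ≤ 1 / 8 * (1 - (1 / 16) ^ s) := by
  induction s with
  | zero => simp
  | succ s ih =>
    rw [Finset.sum_Icc_succ_top (by omega)]
    have h : (1 / 16 : ℝ) ^ (s + 1) = (1 / 16) ^ s * (1 / 16) := pow_succ _ _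
    rw [h]
    have h2 : (0 : ℝ) ≤ (1 / 16) ^ s := by positivity
    linarith

theorem num_G {η X : ℝ} {m t r s D1 : ℕ} (h0 : 0 < η) (h1 : η ≤ 1 / 20) (hX : 640 ≤ Real.log X) (hm : (m : ℝ) ≤ X)
    (hηm : 1000 ≤ η * m) (ht : t = ⌈5 * Real.log X / η⌉₊) (hr : r = ⌈X / (1 - η) ^ t⌉₊)
    (hs : s = ⌊η * m / 20⌋₊) (hD1 : D1 = ⌊(1 - 9 / 5 * η) * m⌋₊) :
    ∑ l ∈ Finset.Icc 1 s, (r : ℝ) ^ l * (m : ℝ) ^ l * (((D1 + l : ℕ) : ℝ) / m) ^ (t * l) ≤ 1 / 8 := by
  have hm0 : (0 : ℝ) < m := by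
    by_contra hcon
    have h2 : (m : ℝ) = 0 := le_antisymm (not_lt.mp hcon) (Nat.cast_nonneg m)
    rw [h2, mul_zero] at hηm
    linarith
  have hX0 : 0 < X := hm0.trans_le hm
  have hXe : X = Real.exp (Real.log X) := (Real.exp_log hX0).symm
  obtain ⟨h7, h8⟩ := rd_t h0 (by linarith : 0 ≤ Real.log X) ht
  have hrr := (num_r hX0 h0 h1 hX ht hr).1
  have hy : (r : ℝ) * m * Real.exp (-(7 / 4 * η)) ^ t ≤ 1 / 16 := by
    have h3 : Real.exp (-(7 / 4 * η)) ^ t = Real.exp (-(7 / 4) * (η * t)) := by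
      rw [← Real.exp_nat_mul]
      congr 1
      ring
    rw [h3]
    have h4 : (r : ℝ) ≤ 2 * X * Real.exp (21 / 20 * (η * t)) := by
      refine hrr.trans (mul_le_mul_of_nonneg_left (Real.exp_le_exp.mpr ?_) (by positivity))
      have h5 : (t : ℝ) * (η + η ^ 2) = (1 + η) * (η * t) := by ring
      rw [h5]
      exact mul_le_mul_of_nonneg_right (by linarith) (by positivity)
    calc (r : ℝ) * m * Real.exp (-(7 / 4) * (η * t))
        ≤ 2 * X * Real.exp (21 / 20 * (η * t)) * X * Real.exp (-(7 / 4) * (η * t)) := by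
          refine mul_le_mul_of_nonneg_right ?_ (Real.exp_pos _).le
          exact mul_le_mul h4 hm hm0.le (by positivity)
      _ = 2 * (X * X * (Real.exp (21 / 20 * (η * t)) * Real.exp (-(7 / 4) * (η * t)))) := by ring
      _ = 2 * (Real.exp (Real.log X + Real.log X + (21 / 20 * (η * t) + -(7 / 4) * (η * t)))) := by
          rw [Real.exp_add, Real.exp_add, Real.exp_add, Real.exp_log hX0]
      _ ≤ 2 * Real.exp (-31) := by
          refine mul_le_mul_of_nonneg_left (Real.exp_le_exp.mpr ?_) (by norm_num)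
          linarith
      _ ≤ 1 / 16 := by
          have h6 := Real.add_one_le_exp (31 : ℝ)
          have h9 : Real.exp (-31) ≤ 1 / 32 := by
            rw [Real.exp_neg, inv_eq_one_div]
            exact one_div_le_one_div_of_le (by norm_num) (by linarith)
          linarith
  have hterm : ∀ l ∈ Finset.Icc 1 s, (r : ℝ) ^ l * (m : ℝ) ^ l * (((D1 + l : ℕ) : ℝ) / m) ^ (t * l) ≤ (1 / 16) ^ l := by
    intro l hl
    have hls : l ≤ s := (Finset.mem_Icc.mp hl).2
    have h10 : (l : ℝ) ≤ η * m / 20 := by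
      have h11 : (s : ℝ) ≤ η * m / 20 := by
        rw [hs]
        exact Nat.floor_le (by positivity)
      exact (Nat.cast_le.mpr hls).trans h11
    have h12 : (D1 : ℝ) ≤ (1 - 9 / 5 * η) * m := by
      rw [hD1]
      exact Nat.floor_le (mul_nonneg (by linarith) hm0.le)
    have h13 : (((D1 + l : ℕ) : ℝ) / m) ≤ Real.exp (-(7 / 4 * η)) := by
      refine le_trans ?_ (Real.one_sub_le_exp_neg _)
      rw [div_le_iff₀ hm0]
      push_cast
      nlinarith
    have h14 : (0 : ℝ) ≤ ((D1 + l : ℕ) : ℝ) / m := by positivity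
    calc (r : ℝ) ^ l * (m : ℝ) ^ l * (((D1 + l : ℕ) : ℝ) / m) ^ (t * l)
        = ((r : ℝ) * m * (((D1 + l : ℕ) : ℝ) / m) ^ t) ^ l := by
          rw [mul_pow, mul_pow, ← pow_mul]
      _ ≤ ((r : ℝ) * m * Real.exp (-(7 / 4 * η)) ^ t) ^ l := by
          refine pow_le_pow_left₀ (by positivity) ?_ l
          exact mul_le_mul_of_nonneg_left (pow_le_pow_left₀ h14 h13 t) (by positivity)
      _ ≤ (1 / 16) ^ l := pow_le_pow_left₀ (by positivity) hy l
  have h15 := (Finset.sum_le_sum hterm).trans (rd_geom s)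
  have h16 : (0 : ℝ) ≤ (1 / 16) ^ s := by positivity
  linarith

theorem num_W {η l : ℝ} {m D1 : ℕ} (h0 : 0 < η) (h1 : η ≤ 1 / 20) (hηm : 1000 ≤ η * m)
    (hD1 : D1 = ⌊(1 - 9 / 5 * η) * m⌋₊) (hl : 2 * η ≤ l) (hl1 : l ≤ 1) :
    (1 - (1 - 9 / 10) * l) ^ m / (9 / 10 : ℝ) ^ (m - D1) ≤ 1 / 4 := by
  have hm0 : (0 : ℝ) ≤ m := Nat.cast_nonneg m
  have h2 : (1 - (1 - 9 / 10) * l) ^ m ≤ Real.exp (-(1 / 5 * (η * m))) := by
    calc (1 - (1 - 9 / 10) * l) ^ m ≤ (Real.exp (-((1 - 9 / 10) * l))) ^ m :=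
          pow_le_pow_left₀ (by linarith) (Real.one_sub_le_exp_neg _) m
      _ = Real.exp (m * -((1 - 9 / 10) * l)) := by rw [← Real.exp_nat_mul]
      _ ≤ Real.exp (-(1 / 5 * (η * m))) := by
          refine Real.exp_le_exp.mpr ?_
          nlinarith [mul_le_mul_of_nonneg_right hl hm0]
  have h3 : Real.exp (-(106 / 1000 : ℝ)) ≤ 9 / 10 := by
    have h4 := Real.quadratic_le_exp_of_nonneg (show (0 : ℝ) ≤ 106 / 1000 by norm_num)
    rw [Real.exp_neg, inv_le_comm₀ (Real.exp_pos _) (by norm_num)]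
    refine le_trans ?_ h4
    norm_num
  have h5 : ((m - D1 : ℕ) : ℝ) ≤ 9 / 5 * (η * m) + 1 := by
    have h6 : (1 - 9 / 5 * η) * m < D1 + 1 := by
      rw [hD1]
      exact Nat.lt_floor_add_one _
    have h7 : D1 ≤ m := by
      rw [hD1]
      refine Nat.floor_le_of_le ?_
      nlinarith
    rw [Nat.cast_sub h7]
    nlinarith
  have h8 : Real.exp (-(106 / 1000 * (9 / 5 * (η * m) + 1))) ≤ (9 / 10 : ℝ) ^ (m - D1) := by
    calc Real.exp (-(106 / 1000 * (9 / 5 * (η * m) + 1))) ≤ Real.exp (((m - D1 : ℕ) : ℝ) * -(106 / 1000)) := by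
          refine Real.exp_le_exp.mpr ?_
          linarith
      _ = (Real.exp (-(106 / 1000 : ℝ))) ^ (m - D1) := by rw [← Real.exp_nat_mul]
      _ ≤ (9 / 10 : ℝ) ^ (m - D1) := pow_le_pow_left₀ (Real.exp_pos _).le h3 _
  rw [div_le_iff₀ (by positivity)]
  refine h2.trans ?_
  calc Real.exp (-(1 / 5 * (η * m))) ≤ Real.exp (-(106 / 1000 * (9 / 5 * (η * m) + 1)) + -3) := by
        refine Real.exp_le_exp.mpr ?_
        linarith
    _ = Real.exp (-(106 / 1000 * (9 / 5 * (η * m) + 1))) * Real.exp (-3) := Real.exp_add _ _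
    _ ≤ (9 / 10 : ℝ) ^ (m - D1) * (1 / 4) := by
        refine mul_le_mul h8 ?_ (Real.exp_pos _).le (by positivity)
        rw [Real.exp_neg, inv_eq_one_div]
        have := Real.add_one_le_exp (3 : ℝ)
        exact one_div_le_one_div_of_le (by norm_num) (by linarith)
    _ = 1 / 4 * (9 / 10 : ℝ) ^ (m - D1) := mul_comm _ _

end H98DH

end S_H98_DH_RD

section S_H98_DH_RE

set_option autoImplicit false

namespace H98DH

private theorem RE_choose {m a y l : ℕ} {η : ℝ} (h0 : 0 < η) (hη1 : η ≤ 1) (hm0 : 0 < (m : ℝ))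
    (ha : a + y = m) (hy : η * m ≤ y) (hyl : (y : ℝ) ≤ 57 * l) :
    (m.choose a : ℝ) ≤ Real.exp (57 * l * (1 + Real.log (1 / η))) := by
  have hlog : 0 ≤ Real.log (1 / η) := Real.log_nonneg (by rw [le_div_iff₀ h0]; linarith)
  have hy0 : (0 : ℝ) < y := lt_of_lt_of_le (mul_pos h0 hm0) hy
  have e1 : m.choose a = m.choose y := by
    rw [← ha]
    exact Nat.choose_symm_add
  rw [e1]
  have h1 : (m.choose y : ℝ) ≤ (m : ℝ) ^ y / (y.factorial : ℝ) := Nat.choose_le_pow_div y m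
  have h2 : (y : ℝ) ^ y / (y.factorial : ℝ) ≤ Real.exp y :=
    Real.pow_div_factorial_le_exp (y : ℝ) hy0.le y
  have h3 : (m : ℝ) ≤ (1 / η) * y := by
    rw [one_div, inv_mul_eq_div, le_div_iff₀ h0]
    linarith
  have h4 : (m : ℝ) ^ y ≤ (1 / η) ^ y * (y : ℝ) ^ y := by
    rw [← mul_pow]
    exact pow_le_pow_left₀ hm0.le h3 y
  have hf : (0 : ℝ) < (y.factorial : ℝ) := by exact_mod_cast Nat.factorial_pos y
  have hη0 : (0 : ℝ) < 1 / η := by positivity
  calc (m.choose y : ℝ) ≤ (m : ℝ) ^ y / (y.factorial : ℝ) := h1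
    _ ≤ (1 / η) ^ y * (y : ℝ) ^ y / (y.factorial : ℝ) := div_le_div_of_nonneg_right h4 hf.le
    _ = (1 / η) ^ y * ((y : ℝ) ^ y / (y.factorial : ℝ)) := by rw [mul_div_assoc]
    _ ≤ (1 / η) ^ y * Real.exp y := mul_le_mul_of_nonneg_left h2 (pow_nonneg hη0.le _)
    _ = Real.exp (y * (1 + Real.log (1 / η))) := by
      have h5 : (1 / η) ^ y = Real.exp (y * Real.log (1 / η)) := by
        rw [Real.exp_nat_mul, Real.exp_log hη0]
      rw [h5, ← Real.exp_add]
      congr 1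
      ring
    _ ≤ Real.exp (57 * l * (1 + Real.log (1 / η))) := by
      apply Real.exp_le_exp.mpr
      exact mul_le_mul_of_nonneg_right hyl (by linarith)

private theorem RE_geom (s : ℕ) (f : ℕ → ℝ) (hf : ∀ l, s < 2 * l → l ≤ s → f l ≤ (1 / 16) ^ l) :
    ∑ l ∈ (Finset.range (s + 1)).filter (fun l => s < 2 * l), f l ≤ 1 / 8 := by
  have h1 : ∑ l ∈ (Finset.range (s + 1)).filter (fun l => s < 2 * l), f l ≤
      ∑ l ∈ (Finset.range (s + 1)).filter (fun l => s < 2 * l), (1 / 16 : ℝ) ^ l := by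
    refine Finset.sum_le_sum fun l hl => ?_
    rw [Finset.mem_filter, Finset.mem_range] at hl
    exact hf l hl.2 (by omega)
  have h2 : ∑ l ∈ (Finset.range (s + 1)).filter (fun l => s < 2 * l), (1 / 16 : ℝ) ^ l ≤
      ∑ l ∈ (Finset.range (s + 1)).erase 0, (1 / 16 : ℝ) ^ l := by
    refine Finset.sum_le_sum_of_subset_of_nonneg ?_ fun l _ _ => by positivity
    intro l hl
    rw [Finset.mem_filter] at hl
    rw [Finset.mem_erase]
    exact ⟨by omega, hl.1⟩
  have h3 := Finset.add_sum_erase (Finset.range (s + 1)) (fun l => (1 / 16 : ℝ) ^ l)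
    (Finset.mem_range.mpr (Nat.succ_pos s))
  have h4 : ∑ l ∈ Finset.range (s + 1), (1 / 16 : ℝ) ^ l ≤ 16 / 15 := by
    rw [geom_sum_eq (by norm_num)]
    have h5 : (0 : ℝ) ≤ (1 / 16) ^ (s + 1) := by positivity
    rw [div_le_iff_of_neg (by norm_num)]
    linarith
  rw [pow_zero] at h3
  linarith

theorem num_E {η X : ℝ} {m t r s D0 : ℕ} (h0 : 0 < η) (h1 : η ≤ 1 / 20)
    (hX : 640 * (1 + Real.log (1 / η)) ≤ Real.log X) (hm : (m : ℝ) ≤ X)
    (hηm : 1000 ≤ η * m) (ht : t = ⌈5 * Real.log X / η⌉₊) (hr : r = ⌈X / (1 - η) ^ t⌉₊)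
    (hs : s = ⌊η * m / 20⌋₊) (hD0 : D0 = ⌊(1 - 7 / 5 * η) * m⌋₊) :
    ∑ l ∈ (Finset.range (s + 1)).filter (fun l => s < 2 * l),
        (r : ℝ) ^ l * (m.choose (D0 + l) : ℝ) * (((D0 + l : ℕ) : ℝ) / m) ^ (t * l) ≤ 1 / 8 := by
  have hηm0 : 0 < η * m := by linarith
  have hm0 : (0 : ℝ) < m := (mul_pos_iff_of_pos_left h0).mp hηm0
  have hX0 : 0 < X := lt_of_lt_of_le hm0 hm
  have hlog : 0 ≤ Real.log (1 / η) := Real.log_nonneg (by rw [le_div_iff₀ h0]; linarith)
  have hL : 640 ≤ Real.log X := by linarith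
  obtain ⟨hr1, -⟩ := num_r hX0 h0 h1 hL ht hr
  have ht5 : 5 * Real.log X ≤ t * η := by
    have h2 := Nat.le_ceil (5 * Real.log X / η)
    rw [← ht, div_le_iff₀ h0] at h2
    exact h2
  have hD : (D0 : ℝ) ≤ (1 - 7 / 5 * η) * m ∧ (1 - 7 / 5 * η) * m < D0 + 1 := by
    have h2 : 0 ≤ (1 - 7 / 5 * η) * m := mul_nonneg (by linarith) hm0.le
    rw [hD0]
    exact ⟨Nat.floor_le h2, Nat.lt_floor_add_one _⟩
  have hS : (s : ℝ) ≤ η * m / 20 ∧ η * m / 20 < s + 1 := by
    rw [hs]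
    exact ⟨Nat.floor_le (by positivity), Nat.lt_floor_add_one _⟩
  refine RE_geom s _ fun l hl1 hl2 => ?_
  have hl1' : (s : ℝ) + 1 ≤ 2 * l := by exact_mod_cast hl1
  have hl2' : (l : ℝ) ≤ s := by exact_mod_cast hl2
  have hl0 : (0 : ℝ) ≤ l := Nat.cast_nonneg l
  have hcast : ((D0 + l : ℕ) : ℝ) = D0 + l := by push_cast; ring
  have hle : ((D0 + l : ℕ) : ℝ) ≤ (1 - 27 / 20 * η) * m := by
    rw [hcast]
    linarith [hD.1, hS.1]
  have hle2 : D0 + l ≤ m := by
    have : ((D0 + l : ℕ) : ℝ) ≤ m := by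
      refine hle.trans ?_
      have : 0 ≤ 27 / 20 * η * m := by positivity
      linarith
    exact_mod_cast this
  obtain ⟨y, hy⟩ := Nat.exists_eq_add_of_le hle2
  have hy' : (m : ℝ) = D0 + l + y := by
    have : (m : ℝ) = ((D0 + l + y : ℕ) : ℝ) := by exact_mod_cast hy
    rw [this]
    push_cast
    ring
  have hc := RE_choose (l := l) h0 (by linarith) hm0 hy.symm (by
      rw [hcast] at hle
      linarith) (by linarith [hD.2, hS.2])
  have hq0 : 0 ≤ ((D0 + l : ℕ) : ℝ) / m := by positivity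
  have hq : ((D0 + l : ℕ) : ℝ) / m ≤ Real.exp (-(27 / 20 * η)) := by
    rw [div_le_iff₀ hm0]
    refine hle.trans (mul_le_mul_of_nonneg_right ?_ hm0.le)
    have := Real.add_one_le_exp (-(27 / 20 * η))
    linarith
  have hq2 : (((D0 + l : ℕ) : ℝ) / m) ^ (t * l) ≤ Real.exp (-(27 / 20 * η) * (t * l)) := by
    refine (pow_le_pow_left₀ hq0 hq _).trans (le_of_eq ?_)
    rw [← Real.exp_nat_mul]
    congr 1
    push_cast
    ring
  have hr2 : (r : ℝ) ^ l ≤ Real.exp (l * (Real.log 2 + Real.log X + t * (η + η ^ 2))) := by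
    have h3 : 2 * X * Real.exp (t * (η + η ^ 2)) =
        Real.exp (Real.log 2 + Real.log X + t * (η + η ^ 2)) := by
      rw [Real.exp_add, Real.exp_add, Real.exp_log (by norm_num : (0 : ℝ) < 2), Real.exp_log hX0]
    rw [h3] at hr1
    rw [Real.exp_nat_mul]
    exact pow_le_pow_left₀ (Nat.cast_nonneg _) hr1 l
  have e16 : Real.exp (-(4 * Real.log 2)) = 1 / 16 := by
    have h3 : 4 * Real.log 2 = Real.log (2 ^ 4) := by
      rw [Real.log_pow]
      norm_num
    rw [Real.exp_neg, h3, Real.exp_log (by norm_num)]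
    norm_num
  have hl2g : Real.log 2 < 0.7 := by
    have := Real.log_two_lt_d9
    linarith
  calc (r : ℝ) ^ l * (m.choose (D0 + l) : ℝ) * (((D0 + l : ℕ) : ℝ) / m) ^ (t * l)
      ≤ Real.exp (l * (Real.log 2 + Real.log X + t * (η + η ^ 2))) *
          Real.exp (57 * l * (1 + Real.log (1 / η))) * Real.exp (-(27 / 20 * η) * (t * l)) := by
        refine mul_le_mul (mul_le_mul hr2 hc (Nat.cast_nonneg _) (Real.exp_pos _).le) hq2
          (pow_nonneg hq0 _) (by positivity)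
    _ = Real.exp (l * (Real.log 2 + Real.log X + t * (η + η ^ 2) +
          57 * (1 + Real.log (1 / η)) - 27 / 20 * (t * η))) := by
        rw [← Real.exp_add, ← Real.exp_add]
        congr 1
        ring
    _ ≤ Real.exp (l * (-(4 * Real.log 2))) := by
        apply Real.exp_le_exp.mpr
        refine mul_le_mul_of_nonneg_left ?_ hl0
        have h4 : (t : ℝ) * (η + η ^ 2) ≤ 21 / 20 * (t * η) := by
          have h5 : η ^ 2 ≤ 1 / 20 * η := by nlinarith
          have h6 : (t : ℝ) * η ^ 2 ≤ t * (1 / 20 * η) :=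
            mul_le_mul_of_nonneg_left h5 (Nat.cast_nonneg _)
          linarith
        linarith
    _ = (1 / 16) ^ l := by rw [Real.exp_nat_mul, e16]

theorem num_D {η : ℝ} {m s D0 D1 : ℕ} (h0 : 0 < η) (h1 : η ≤ 1 / 20) (hs : s = ⌊η * m / 20⌋₊)
    (hD0 : D0 = ⌊(1 - 7 / 5 * η) * m⌋₊) (hD1 : D1 = ⌊(1 - 9 / 5 * η) * m⌋₊) :
    D0 + s ≤ m ∧ (D1 : ℝ) + (2 / 5 * η * m - 1) < D0 := by
  have hm0 : (0 : ℝ) ≤ m := Nat.cast_nonneg m
  have h2 : (D0 : ℝ) ≤ (1 - 7 / 5 * η) * m := by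
    rw [hD0]
    exact Nat.floor_le (mul_nonneg (by linarith) hm0)
  have h3 : (1 - 7 / 5 * η) * m < (D0 : ℝ) + 1 := by
    rw [hD0]
    exact Nat.lt_floor_add_one _
  have h4 : (s : ℝ) ≤ η * m / 20 := by
    rw [hs]
    exact Nat.floor_le (by positivity)
  have h5 : (D1 : ℝ) ≤ (1 - 9 / 5 * η) * m := by
    rw [hD1]
    exact Nat.floor_le (mul_nonneg (by linarith) hm0)
  have h6 : 0 ≤ η * m := mul_nonneg h0.le hm0
  constructor
  · have h7 : ((D0 + s : ℕ) : ℝ) ≤ m := by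
      push_cast
      linarith
    exact_mod_cast h7
  · linarith

end H98DH

end S_H98_DH_RE

section S_H98_DH_FinB

set_option autoImplicit false

namespace H98DH

theorem finB_b {K N : ℕ} (hK : 1 ≤ K) (hN : 10 ^ 6 * (K : ℝ) ≤ Real.log N) :
    499 ≤ ⌊Real.log N / (2000 * K)⌋₊ ∧ Real.log N / (4000 * K) ≤ ⌊Real.log N / (2000 * K)⌋₊ := by
  have hK' : (1 : ℝ) ≤ K := by exact_mod_cast hK
  have h1 : (500 : ℝ) ≤ Real.log N / (2000 * K) := by
    rw [le_div_iff₀ (by positivity)]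
    nlinarith
  constructor
  · rw [Nat.le_floor_iff (by linarith)]
    have : ((499 : ℕ) : ℝ) = 499 := by norm_num
    rw [this]
    linarith
  · have h2 := Nat.sub_one_lt_floor (Real.log N / (2000 * K))
    have h3 : Real.log N / (4000 * K) = Real.log N / (2000 * K) / 2 := by
      rw [div_div]
      congr 1
      ring
    rw [h3]
    linarith

private theorem finB_Y {N : ℕ} (hN : 10 ^ 6 ≤ Real.log N) :
    ∃ Y : ℝ, 10 ^ 6 ≤ Y ∧ Y ^ 1000 = N ∧ Real.log N ≤ Y ∧ Y = Real.exp (Real.log N / 1000) := by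
  have hN0 : (0 : ℝ) < N := by
    rcases Nat.eq_zero_or_pos N with h | h
    · rw [h] at hN
      simp at hN
      linarith
    · exact_mod_cast h
  refine ⟨_, ?_, ?_, ?_, rfl⟩
  · have := Real.add_one_le_exp (Real.log N / 1000 / 3)
    have h2 : Real.exp (Real.log N / 1000) = Real.exp (Real.log N / 1000 / 3) ^ 3 := by
      rw [← Real.exp_nat_mul]
      congr 1
      push_cast
      ring
    rw [h2]
    have h3 : (333 : ℝ) ≤ Real.exp (Real.log N / 1000 / 3) := by linarith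
    calc (10 : ℝ) ^ 6 ≤ 333 ^ 3 := by norm_num
      _ ≤ _ := pow_le_pow_left₀ (by norm_num) h3 3
  · rw [← Real.exp_nat_mul]
    have : ((1000 : ℕ) : ℝ) * (Real.log N / 1000) = Real.log N := by
      push_cast
      ring
    rw [this, Real.exp_log hN0]
  · have := Real.add_one_le_exp (Real.log N / 1000 / 3)
    have h2 : Real.exp (Real.log N / 1000) = Real.exp (Real.log N / 1000 / 3) ^ 3 := by
      rw [← Real.exp_nat_mul]
      congr 1
      push_cast
      ring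
    rw [h2]
    set z := Real.log N / 1000 / 3 with hz
    have hlog : Real.log N = 3000 * z := by rw [hz]; ring
    have hz3 : 333 ≤ z := by rw [hz]; linarith
    rw [hlog]
    have h4 : z ≤ Real.exp z := by linarith
    have h5 : z ^ 3 ≤ Real.exp z ^ 3 := pow_le_pow_left₀ (by linarith) h4 3
    have h7 : 3000 ≤ z * z := by nlinarith
    have h6 : 3000 * z ≤ z ^ 3 := by
      calc 3000 * z ≤ z * z * z := mul_le_mul_of_nonneg_right h7 (by linarith)
        _ = z ^ 3 := by ring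
    linarith

theorem finB {K N B b : ℕ} {η : ℝ} (hK : 1 ≤ K) (hN : 10 ^ 6 * (K : ℝ) ≤ Real.log N)
    (hb : b = ⌊Real.log N / (2000 * K)⌋₊) (hB : 1 ≤ B) (hB2 : (B : ℝ) ≤ Real.exp (2 * b * K))
    (hη1 : Real.exp (-((b : ℝ) + 2)) ≤ η) (hη2 : η ≤ (1 / 2 : ℝ) ^ b) :
    0 < η ∧ η ≤ 1 / 20 ∧ 10 ^ 6 ≤ N / B * B ∧
    640 * (1 + Real.log (1 / η)) ≤ Real.log ((N / B * B : ℕ) : ℝ) ∧
    Real.sqrt ((N / B * B : ℕ) : ℝ) ≤ η * ((N / B : ℕ) : ℝ) ∧
    (5 * Real.log N / η + 1) * B ≤ N ∧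
    ∀ W : ℝ, W ≤ (N : ℝ) ^ (1 / 4 : ℝ) →
      W * (⌈Real.sqrt N⌉₊ : ℝ) + (5 * Real.log N / η + 1) + 2 < 0.4 * η * ((N / B : ℕ) : ℝ) := by
  have hK' : (1 : ℝ) ≤ K := by exact_mod_cast hK
  have hN6 : (10 : ℝ) ^ 6 ≤ Real.log N := by
    refine le_trans ?_ hN
    nlinarith
  obtain ⟨Y, hY6, hYN, hlY, hYe⟩ := finB_Y hN6
  have hb499 := (finB_b hK hN).1
  rw [← hb] at hb499
  have hbf : (b : ℝ) ≤ Real.log N / (2000 * K) := by
    rw [hb]
    exact Nat.floor_le (by positivity)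
  have hbK : 2 * (b : ℝ) * K ≤ Real.log N / 1000 := by
    rw [le_div_iff₀ (by positivity)] at hbf
    rw [le_div_iff₀ (by norm_num)]
    linarith
  have hb2 : (b : ℝ) ≤ Real.log N / 2000 := by
    rw [le_div_iff₀ (by norm_num)]
    rw [le_div_iff₀ (by norm_num)] at hbK
    have hb0 : (0 : ℝ) ≤ b := by positivity
    nlinarith
  have hBY : (B : ℝ) ≤ Y := by
    rw [hYe]
    exact le_trans hB2 (Real.exp_le_exp.2 hbK)
  have hY0 : (0 : ℝ) < Y := by linarith [show (0 : ℝ) < 10 ^ 6 by norm_num]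
  have hY1 : (1 : ℝ) ≤ Y := by linarith [show (1 : ℝ) ≤ 10 ^ 6 by norm_num]
  have hη0 : 0 < η := lt_of_lt_of_le (Real.exp_pos _) hη1
  have hηY : 1 / Y ≤ η := by
    refine le_trans ?_ hη1
    rw [hYe, one_div, ← Real.exp_neg]
    refine Real.exp_le_exp.2 ?_
    linarith
  have h1η : 1 / η ≤ Y := by
    rw [div_le_iff₀ hη0]
    rw [div_le_iff₀ hY0] at hηY
    linarith
  have hlogη : Real.log (1 / η) ≤ b + 2 := by
    rw [one_div, Real.log_inv]
    have := (Real.le_log_iff_exp_le hη0).2 hη1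
    linarith
  have hη20 : η ≤ 1 / 32 := by
    refine le_trans hη2 ?_
    calc (1 / 2 : ℝ) ^ b ≤ (1 / 2) ^ 5 := pow_le_pow_of_le_one (by norm_num) (by norm_num) (by omega)
      _ = 1 / 32 := by norm_num
  have hBp : (1 : ℝ) ≤ B := by exact_mod_cast hB
  -- the number n'
  have hdiv : N / B * B + N % B = N := by
    rw [mul_comm]
    exact Nat.div_add_mod N B
  have hmod : N % B < B := Nat.mod_lt _ hB
  have hn1 : (N : ℝ) - Y ≤ ((N / B * B : ℕ) : ℝ) := by
    have h1 : ((N / B * B : ℕ) : ℝ) + ((N % B : ℕ) : ℝ) = N := by exact_mod_cast hdiv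
    have h2 : ((N % B : ℕ) : ℝ) ≤ B := by exact_mod_cast hmod.le
    linarith
  have hn2 : ((N / B * B : ℕ) : ℝ) ≤ N := by exact_mod_cast Nat.div_mul_le_self N B
  have hm : (N : ℝ) / Y - 1 ≤ ((N / B : ℕ) : ℝ) := by
    have h1 : (N : ℝ) / B - 1 ≤ ((N / B : ℕ) : ℝ) := by
      have h2 : N < B * (N / B + 1) := Nat.lt_mul_div_succ N hB
      have h3 : (N : ℝ) < B * (((N / B : ℕ) : ℝ) + 1) := by exact_mod_cast h2
      have h4 : (N : ℝ) / B ≤ ((N / B : ℕ) : ℝ) + 1 := by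
        rw [div_le_iff₀ (by linarith)]
        linarith
      linarith
    have h5 : (N : ℝ) / Y ≤ N / B := div_le_div_of_nonneg_left (by positivity) (by linarith) hBY
    linarith
  have hpow : ∀ i j : ℕ, i ≤ j → Y ^ i ≤ Y ^ j := fun i j hij => pow_le_pow_right₀ hY1 hij
  have hYsq : Y * 10 ^ 6 ≤ Y ^ 2 := by nlinarith
  have hmul : ∀ i : ℕ, 10 ^ 6 * Y ^ i ≤ Y ^ (i + 1) := by
    intro i
    calc 10 ^ 6 * Y ^ i ≤ Y * Y ^ i := mul_le_mul_of_nonneg_right hY6 (by positivity)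
      _ = Y ^ (i + 1) := by ring
  have h999 : (N : ℝ) / Y = Y ^ 999 := by
    rw [← hYN, div_eq_iff hY0.ne', ← pow_succ]
  rw [h999] at hm
  generalize hmm : ((N / B : ℕ) : ℝ) = m at *
  generalize hnn : ((N / B * B : ℕ) : ℝ) = n' at *
  have hY2 : 2 * Y ≤ N := by
    rw [← hYN]
    have h1 := hmul 1
    have h2 := hpow 2 1000 (by norm_num)
    rw [pow_one] at h1
    linarith
  have hn3 : (N : ℝ) / 2 ≤ n' := by linarith
  have hN0 : (0 : ℝ) < N := by linarith
  have hlog1 : Real.log N - 1 ≤ Real.log n' := by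
    have h1 : Real.log ((N : ℝ) / 2) ≤ Real.log n' := Real.log_le_log (by linarith) hn3
    rw [Real.log_div hN0.ne' (by norm_num)] at h1
    have h2 : Real.log 2 ≤ 1 := by linarith [Real.log_two_lt_d9]
    linarith
  have hlog2 : Real.log n' ≤ Y := le_trans (Real.log_le_log (by linarith) hn2) hlY
  have hlog0 : 0 ≤ Real.log n' := by linarith [show (1 : ℝ) ≤ 10 ^ 6 by norm_num]
  have hηm : Y ^ 997 ≤ η * m := by
    have h1 : Y ^ 998 ≤ m := by
      have h2 := hmul 998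
      have h3 : (1 : ℝ) ≤ Y ^ 998 := one_le_pow₀ hY1
      have h4 : Y ^ (998 + 1) = Y ^ 999 := rfl
      rw [h4] at h2
      linarith
    calc Y ^ 997 = 1 / Y * Y ^ 998 := by
          rw [pow_succ Y 997]
          field_simp
      _ ≤ η * m := mul_le_mul hηY h1 (by positivity) hη0.le
  have hlogN0 : 0 ≤ Real.log N := by linarith [show (0 : ℝ) ≤ 10 ^ 6 by norm_num]
  have h5 : 5 * Real.log N / η ≤ 5 * Y ^ 2 := by
    rw [div_eq_mul_one_div]
    have : 5 * Real.log N * (1 / η) ≤ 5 * Y * Y :=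
      mul_le_mul (by linarith) h1η (by positivity) (by positivity)
    linarith
  refine ⟨hη0, by linarith, ?_, ?_, ?_, ?_, ?_⟩
  · have h1 : (10 : ℝ) ^ 6 ≤ n' := by
      have h2 := hmul 1
      have h3 := hpow 2 1000 (by norm_num)
      rw [hYN] at h3
      rw [pow_one] at h2
      have : (10 : ℝ) ^ 6 * Y ≤ N := le_trans h2 h3
      linarith
    rw [← hnn] at h1
    exact_mod_cast h1
  · linarith
  · refine le_trans ?_ hηm
    calc Real.sqrt n' ≤ Real.sqrt N := Real.sqrt_le_sqrt hn2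
      _ = Y ^ 500 := by
        rw [← hYN]
        have : Y ^ 1000 = (Y ^ 500) ^ 2 := by rw [← pow_mul]
        rw [this, Real.sqrt_sq (by positivity)]
      _ ≤ Y ^ 997 := hpow _ _ (by norm_num)
  · calc (5 * Real.log N / η + 1) * B ≤ (5 * Y ^ 2 + 1) * Y :=
        mul_le_mul (by linarith) hBY (by linarith) (by positivity)
      _ ≤ Y ^ 4 := by
        have h1 := hmul 3
        have h2 := hpow 1 3 (by norm_num)
        rw [pow_one] at h2
        have h3 : (5 * Y ^ 2 + 1) * Y = 5 * Y ^ 3 + Y := by ring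
        rw [h3]
        have h4 : Y ^ (3 + 1) = Y ^ 4 := rfl
        rw [h4] at h1
        have h6 : (0 : ℝ) ≤ Y ^ 3 := by positivity
        linarith
      _ ≤ N := by
        rw [← hYN]
        exact hpow _ _ (by norm_num)
  · intro W hW
    have hq : (N : ℝ) ^ (1 / 4 : ℝ) = Y ^ 250 := by
      rw [← hYN, ← Real.rpow_natCast Y 1000, ← Real.rpow_mul hY0.le, ← Real.rpow_natCast Y 250]
      congr 1
      norm_num
    rw [hq] at hW
    have hs : Real.sqrt N = Y ^ 500 := by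
      rw [← hYN]
      have : Y ^ 1000 = (Y ^ 500) ^ 2 := by rw [← pow_mul]
      rw [this, Real.sqrt_sq (by positivity)]
    have hceil : (⌈Real.sqrt N⌉₊ : ℝ) ≤ 2 * Y ^ 500 := by
      rw [hs]
      have h1 := Nat.ceil_lt_add_one (a := Y ^ 500) (by positivity)
      have h2 : (1 : ℝ) ≤ Y ^ 500 := one_le_pow₀ hY1
      linarith
    have hceil0 : (0 : ℝ) ≤ (⌈Real.sqrt N⌉₊ : ℝ) := by positivity
    have hprod : W * (⌈Real.sqrt N⌉₊ : ℝ) ≤ 2 * Y ^ 750 := by
      have h1 : W * (⌈Real.sqrt N⌉₊ : ℝ) ≤ Y ^ 250 * (⌈Real.sqrt N⌉₊ : ℝ) :=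
        mul_le_mul_of_nonneg_right hW hceil0
      have h2 : Y ^ 250 * (⌈Real.sqrt N⌉₊ : ℝ) ≤ Y ^ 250 * (2 * Y ^ 500) :=
        mul_le_mul_of_nonneg_left hceil (by positivity)
      have h3 : Y ^ 250 * (2 * Y ^ 500) = 2 * Y ^ 750 := by
        rw [mul_left_comm, ← pow_add]
      linarith
    have h750 : (1 : ℝ) ≤ Y ^ 750 := one_le_pow₀ hY1
    have h2 : Y ^ 2 ≤ Y ^ 750 := hpow _ _ (by norm_num)
    have h997 : 10 ^ 6 * Y ^ 750 ≤ Y ^ 997 := le_trans (hmul 750) (hpow _ _ (by norm_num))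
    have hfin : 0.4 * η * m = 0.4 * (η * m) := by ring
    rw [hfin]
    have : (0.4 : ℝ) * Y ^ 997 ≤ 0.4 * (η * m) := mul_le_mul_of_nonneg_left hηm (by norm_num)
    nlinarith

end H98DH

end S_H98_DH_FinB

section S_H98_DH_FinE

set_option autoImplicit false

namespace H98DH

theorem finE {K N b : ℕ} (hK : 1 ≤ K) (hN : 10 ^ 6 * (K : ℝ) ≤ Real.log N) (hb : 20 ≤ b)
    (hb2 : Real.log N / (4000 * K) ≤ b) {q : ℝ}
    (hq : q = (1 - 2 * (2 ^ K / (4 * (b : ℝ) ^ K))) / (1 + 2 * (2 ^ K / (4 * (b : ℝ) ^ K)))) :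
    0 < q ∧ q < 1 ∧ q / (1 + q) = 1 / 2 - 2 ^ K / (4 * (b : ℝ) ^ K) ∧
    ∀ D e w : ℕ, 2 ≤ D → 1 ≤ e → Real.log N ≤ w →
      8 * e * (w : ℝ) ^ (D - 1) * (8000 * K) ^ K ≤ Real.log N ^ (K + 1) →
      (∀ k, k + 1 < D → (1 - q ^ (e * w ^ k) / 2) ^ w ≤ (5 / 8 : ℝ) ^ w) ∧
      (1 - q ^ (e * w ^ (D - 1)) / 2) ^ ⌈Real.sqrt N⌉₊ ≤ Real.exp (-((N : ℝ) ^ (1 / 4 : ℝ) / 2)) := by
  obtain ⟨l, hl⟩ : ∃ l, l = Real.log N := ⟨_, rfl⟩
  obtain ⟨g, hg⟩ : ∃ g : ℝ, g = 2 ^ K / (4 * (b : ℝ) ^ K) := ⟨_, rfl⟩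
  rw [← hl] at hN hb2
  rw [← hg] at hq
  rw [← hl, ← hg]
  have hKR : (1 : ℝ) ≤ K := by exact_mod_cast hK
  have hl0 : (1000000 : ℝ) ≤ l := by
    have h1 : (10 : ℝ) ^ 6 * 1 ≤ 10 ^ 6 * K := mul_le_mul_of_nonneg_left hKR (by norm_num)
    norm_num at h1 hN ⊢
    linarith
  have hlpos : 0 < l := by linarith
  have hNpos : (0 : ℝ) < N := by
    rcases Nat.eq_zero_or_pos N with h | h
    · exfalso
      rw [h, Nat.cast_zero, Real.log_zero] at hl
      linarith
    · exact_mod_cast h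
  have hNexp : Real.exp l = N := by rw [hl, Real.exp_log hNpos]
  have hbR : (20 : ℝ) ≤ b := by exact_mod_cast hb
  have hbpos : (0 : ℝ) < b := by linarith
  have hgeq : g = (2 / b) ^ K / 4 := by
    rw [hg, div_pow]
    field_simp
  have h2b : (0 : ℝ) < 2 / b := by positivity
  have hgpos : 0 < g := by
    rw [hgeq]
    positivity
  have hg40 : g ≤ 1 / 40 := by
    have h1 : (2 / b : ℝ) ≤ 1 / 10 := by
      rw [div_le_div_iff₀ hbpos (by norm_num)]
      linarith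
    have h2 : (2 / b : ℝ) ^ K ≤ (2 / b : ℝ) ^ 1 :=
      pow_le_pow_of_le_one h2b.le (by linarith) hK
    rw [pow_one] at h2
    rw [hgeq]
    linarith
  have h12 : (0 : ℝ) < 1 + 2 * g := by linarith
  have hq0 : 0 < q := by
    rw [hq]
    exact div_pos (by linarith) h12
  have hq1 : q < 1 := by
    rw [hq, div_lt_one h12]
    linarith
  have hq4 : 1 - 4 * g ≤ q := by
    rw [hq, le_div_iff₀ h12]
    nlinarith
  have hexp8 : Real.exp (-(8 * g)) ≤ q := by
    refine le_trans ?_ hq4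
    have h1 : 1 + 8 * g ≤ Real.exp (8 * g) := by
      have := Real.add_one_le_exp (8 * g)
      linarith
    have h2 : (0 : ℝ) < 1 + 8 * g := by linarith
    rw [Real.exp_neg]
    have h3 : (Real.exp (8 * g))⁻¹ ≤ (1 + 8 * g)⁻¹ := inv_anti₀ h2 h1
    refine h3.trans ?_
    rw [inv_le_iff_one_le_mul₀ h2]
    nlinarith
  have hqj : ∀ j : ℕ, Real.exp (-(8 * g * j)) ≤ q ^ j := by
    intro j
    have h1 : Real.exp (-(8 * g * j)) = Real.exp (-(8 * g)) ^ j := by
      rw [← Real.exp_nat_mul]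
      congr 1
      ring
    rw [h1]
    exact pow_le_pow_left₀ (Real.exp_pos _).le hexp8 j
  refine ⟨hq0, hq1, ?_, ?_⟩
  · have h1 : 1 + q = 2 / (1 + 2 * g) := by
      rw [hq]
      field_simp
      ring
    rw [h1, hq]
    field_simp
  · intro D e w hD he hw hmain
    have hw0 : (0 : ℝ) < w := by linarith
    have heR : (1 : ℝ) ≤ e := by exact_mod_cast he
    have hw1 : 1 ≤ w := by
      have : (1 : ℝ) ≤ w := by linarith
      exact_mod_cast this
    have hw1R : (1 : ℝ) ≤ w := by exact_mod_cast hw1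
    -- (X)
    have hX : 8 * g * (e * (w : ℝ) ^ (D - 1)) ≤ l / 4 := by
      have h1 : (2 / b : ℝ) ≤ 8000 * K / l := by
        rw [div_le_div_iff₀ hbpos hlpos]
        rw [div_le_iff₀ (by positivity)] at hb2
        linarith
      have h2 : (2 / b : ℝ) ^ K ≤ (8000 * K / l) ^ K := pow_le_pow_left₀ h2b.le h1 K
      have h3 : g ≤ (8000 * K) ^ K / l ^ K / 4 := by
        rw [hgeq, ← div_pow]
        linarith
      have h4 : (0 : ℝ) ≤ 8 * (e * (w : ℝ) ^ (D - 1)) := by positivity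
      have h5 : 8 * g * (e * (w : ℝ) ^ (D - 1)) ≤ 8 * (e * (w : ℝ) ^ (D - 1)) * ((8000 * K) ^ K / l ^ K / 4) := by
        have := mul_le_mul_of_nonneg_left h3 h4
        linarith
      refine h5.trans ?_
      have hlK : (0 : ℝ) < l ^ K := by positivity
      have h6 : 8 * (e * (w : ℝ) ^ (D - 1)) * ((8000 * K) ^ K / l ^ K / 4) =
          (8 * e * (w : ℝ) ^ (D - 1) * (8000 * K) ^ K) / (4 * l ^ K) := by
        field_simp
      rw [h6, div_le_iff₀ (by positivity)]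
      have h7 : l / 4 * (4 * l ^ K) = l ^ (K + 1) := by
        rw [pow_succ]
        ring
      rw [h7]
      have h8 : Real.log N ^ (K + 1) = l ^ (K + 1) := by rw [hl]
      exact hmain
    have hle1 : ∀ j : ℕ, q ^ j ≤ 1 := fun j => pow_le_one₀ hq0.le hq1.le
    constructor
    · intro k hk
      have h1 : (w : ℝ) ^ k * w ≤ (w : ℝ) ^ (D - 1) := by
        rw [← pow_succ]
        exact pow_le_pow_right₀ hw1R (by omega)
      have h2 : 8 * g * (e * (w : ℝ) ^ k) * w ≤ l / 4 := by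
        refine le_trans ?_ hX
        have h3 : (0 : ℝ) ≤ 8 * g * e := by positivity
        have := mul_le_mul_of_nonneg_left h1 h3
        linarith
      have h3 : 8 * g * (e * (w : ℝ) ^ k) ≤ 1 / 4 := by
        by_contra hcon
        push Not at hcon
        have h4 : 1 / 4 * (w : ℝ) < 8 * g * (e * (w : ℝ) ^ k) * w := mul_lt_mul_of_pos_right hcon hw0
        linarith
      have h5 := hqj (e * w ^ k)
      have h6 : (3 / 4 : ℝ) ≤ q ^ (e * w ^ k) := by
        refine le_trans ?_ h5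
        push_cast
        have h7 := Real.add_one_le_exp (-(8 * g * (e * (w : ℝ) ^ k)))
        linarith
      have h8 : 0 ≤ 1 - q ^ (e * w ^ k) / 2 := by
        have := hle1 (e * w ^ k)
        linarith
      exact pow_le_pow_left₀ h8 (by linarith) w
    · have h1 := hqj (e * w ^ (D - 1))
      have h2 : Real.exp (-(l / 4)) ≤ q ^ (e * w ^ (D - 1)) := by
        refine le_trans ?_ h1
        rw [Real.exp_le_exp]
        push_cast
        linarith
      have h3 : 0 ≤ 1 - q ^ (e * w ^ (D - 1)) / 2 := by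
        have := hle1 (e * w ^ (D - 1))
        linarith
      have h4 : 1 - q ^ (e * w ^ (D - 1)) / 2 ≤ Real.exp (-(Real.exp (-(l / 4)) / 2)) := by
        have h5 := Real.one_sub_le_exp_neg (Real.exp (-(l / 4)) / 2)
        linarith
      refine (pow_le_pow_left₀ h3 h4 _).trans ?_
      rw [← Real.exp_nat_mul, Real.exp_le_exp]
      have h6 : Real.exp (l / 2) ≤ (⌈Real.sqrt N⌉₊ : ℝ) := by
        refine le_trans ?_ (Nat.le_ceil _)
        refine Real.le_sqrt_of_sq_le ?_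
        rw [← Real.exp_nat_mul, ← hNexp, Real.exp_le_exp]
        push_cast
        linarith
      have h7 : (N : ℝ) ^ (1 / 4 : ℝ) = Real.exp (l / 4) := by
        rw [Real.rpow_def_of_pos hNpos, ← hl]
        congr 1
        ring
      rw [h7]
      have h8 : Real.exp (l / 4) = Real.exp (l / 2) * Real.exp (-(l / 4)) := by
        rw [← Real.exp_add]
        congr 1
        ring
      have h9 : Real.exp (l / 2) * Real.exp (-(l / 4)) ≤ (⌈Real.sqrt N⌉₊ : ℝ) * Real.exp (-(l / 4)) :=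
        mul_le_mul_of_nonneg_right h6 (Real.exp_pos _).le
      rw [h8]
      linarith

end H98DH

end S_H98_DH_FinE

section S_H61_DH_Trb

set_option autoImplicit false

namespace H61DH

/-- probability of light sets -/
noncomputable def ft (b : ℕ) : ℕ → ℝ → ℝ
  | 0, p => (1 - p) ^ b
  | k + 1, p => (1 - ft b k (1 - p)) ^ ⌈(b : ℝ) / ft b k (1 / 2)⌉₊

/-- the value at `1/2` -/
noncomputable def et (b k : ℕ) : ℝ := ft b k (1 / 2)

/-- fan-in -/
noncomputable def an (b k : ℕ) : ℕ := ⌈(b : ℝ) / et b k⌉₊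

/-- number of variables -/
noncomputable def Bn (b : ℕ) : ℕ → ℕ
  | 0 => b
  | k + 1 => an b k * Bn b k

theorem ft_zero (b : ℕ) (p : ℝ) : ft b 0 p = (1 - p) ^ b := rfl

theorem ft_succ (b k : ℕ) (p : ℝ) : ft b (k + 1) p = (1 - ft b k (1 - p)) ^ an b k := rfl

theorem et_succ (b k : ℕ) : et b (k + 1) = (1 - et b k) ^ an b k := by
  show ft b (k + 1) (1 / 2) = _
  rw [ft_succ]
  have h : (1 : ℝ) - 1 / 2 = 1 / 2 := by norm_num
  rw [h]
  rfl

theorem ft_range (b k : ℕ) : ∀ p : ℝ, 0 ≤ p → p ≤ 1 → 0 ≤ ft b k p ∧ ft b k p ≤ 1 := by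
  induction k with
  | zero =>
    intro p h0 h1
    rw [ft_zero]
    exact ⟨pow_nonneg (by linarith) _, pow_le_one₀ (by linarith) (by linarith)⟩
  | succ k ih =>
    intro p h0 h1
    obtain ⟨h2, h3⟩ := ih (1 - p) (by linarith) (by linarith)
    rw [ft_succ]
    exact ⟨pow_nonneg (by linarith) _, pow_le_one₀ (by linarith) (by linarith)⟩

theorem exp_neg_one_le : Real.exp (-1) ≤ 1 / 2 := by
  have h1 : (2 : ℝ) ≤ Real.exp 1 := by
    have := Real.add_one_le_exp (1 : ℝ)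
    linarith
  rw [Real.exp_neg]
  rw [one_div]
  exact inv_anti₀ (by norm_num) h1

theorem exp_neg_le_half_pow (b : ℕ) : Real.exp (-(b : ℝ)) ≤ (1 / 2 : ℝ) ^ b := by
  have h1 : Real.exp (-(b : ℝ)) = Real.exp (-1) ^ b := by
    rw [← Real.exp_nat_mul]
    congr 1
    ring
  rw [h1]
  exact pow_le_pow_left₀ (Real.exp_pos _).le exp_neg_one_le b

theorem half_pow_mul_le (b : ℕ) (hb : 2 ≤ b) : (1 / 2 : ℝ) ^ b * b ≤ 1 / 2 := by
  induction b, hb using Nat.le_induction with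
  | base => norm_num
  | succ b hb ih =>
    have hb' : (2 : ℝ) ≤ b := by exact_mod_cast hb
    have h0 : (0 : ℝ) < (1 / 2 : ℝ) ^ b := by positivity
    rw [pow_succ]
    push_cast
    nlinarith

theorem et_bd (b : ℕ) (hb : 2 ≤ b) (k : ℕ) :
    Real.exp (-(b : ℝ) - 2) ≤ et b k ∧ et b k ≤ (1 / 2 : ℝ) ^ b := by
  have hb' : (2 : ℝ) ≤ b := by exact_mod_cast hb
  induction k with
  | zero =>
    have h1 : et b 0 = (1 / 2 : ℝ) ^ b := by
      show (1 - (1 / 2 : ℝ)) ^ b = _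
      norm_num
    rw [h1]
    refine ⟨le_trans (Real.exp_le_exp.mpr (by linarith)) (exp_neg_le_half_pow b), le_rfl⟩
  | succ k ih =>
    obtain ⟨h1, h2⟩ := ih
    rw [et_succ]
    set x := et b k with hx
    have hx0 : 0 < x := lt_of_lt_of_le (Real.exp_pos _) h1
    have hx4 : x ≤ 1 / 4 := by
      refine h2.trans ?_
      calc (1 / 2 : ℝ) ^ b ≤ (1 / 2 : ℝ) ^ 2 := pow_le_pow_of_le_one (by norm_num) (by norm_num) hb
        _ = 1 / 4 := by norm_num
    have hxb : x * b ≤ 1 / 2 := by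
      refine le_trans (mul_le_mul_of_nonneg_right h2 (by positivity)) (half_pow_mul_le b hb)
    have ha1 : (b : ℝ) / x ≤ an b k := Nat.le_ceil _
    have ha2 : (an b k : ℝ) < b / x + 1 := Nat.ceil_lt_add_one (by positivity)
    have ha3 : (b : ℝ) ≤ an b k * x := by
      rwa [div_le_iff₀ hx0] at ha1
    have ha4 : (an b k : ℝ) * x ≤ b + x := by
      have h5 := mul_le_mul_of_nonneg_right ha2.le hx0.le
      rw [add_mul, div_mul_cancel₀ _ hx0.ne', one_mul] at h5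
      exact h5
    constructor
    · have h3 : Real.exp (-(x + 2 * x ^ 2)) ≤ 1 - x := by
        have h4 : -(x + 2 * x ^ 2) ≤ Real.log (1 - x) := by
          have h5 := Real.one_sub_inv_le_log_of_pos (show 0 < 1 - x by linarith)
          refine le_trans ?_ h5
          have h6 : (1 - x)⁻¹ ≤ 1 + x + 2 * x ^ 2 := by
            rw [inv_le_iff_one_le_mul₀ (by linarith)]
            nlinarith [mul_nonneg hx0.le hx0.le, mul_nonneg (mul_nonneg hx0.le hx0.le) hx0.le]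
          linarith
        calc Real.exp (-(x + 2 * x ^ 2)) ≤ Real.exp (Real.log (1 - x)) := Real.exp_le_exp.mpr h4
          _ = 1 - x := Real.exp_log (by linarith)
      calc Real.exp (-(b : ℝ) - 2) ≤ Real.exp (an b k * (-(x + 2 * x ^ 2))) := by
            refine Real.exp_le_exp.mpr ?_
            have h6 : (an b k : ℝ) * (x + 2 * x ^ 2) = (an b k * x) * (1 + 2 * x) := by ring
            have h7 : (an b k * x) * (1 + 2 * x) ≤ (b + x) * (1 + 2 * x) :=
              mul_le_mul_of_nonneg_right ha4 (by linarith)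
            nlinarith
        _ = Real.exp (-(x + 2 * x ^ 2)) ^ an b k := by rw [← Real.exp_nat_mul]
        _ ≤ (1 - x) ^ an b k := pow_le_pow_left₀ (Real.exp_pos _).le h3 _
    · calc (1 - x) ^ an b k ≤ Real.exp (-x) ^ an b k :=
            pow_le_pow_left₀ (by linarith) (Real.one_sub_le_exp_neg x) _
        _ = Real.exp (an b k * (-x)) := by rw [← Real.exp_nat_mul]
        _ ≤ Real.exp (-(b : ℝ)) := Real.exp_le_exp.mpr (by linarith)
        _ ≤ (1 / 2 : ℝ) ^ b := exp_neg_le_half_pow b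

theorem et_pos (b : ℕ) (hb : 2 ≤ b) (k : ℕ) : 0 < et b k :=
  lt_of_lt_of_le (Real.exp_pos _) (et_bd b hb k).1

theorem et_le_quarter (b : ℕ) (hb : 2 ≤ b) (k : ℕ) : et b k ≤ 1 / 4 := by
  refine (et_bd b hb k).2.trans ?_
  calc (1 / 2 : ℝ) ^ b ≤ (1 / 2 : ℝ) ^ 2 := pow_le_pow_of_le_one (by norm_num) (by norm_num) hb
    _ = 1 / 4 := by norm_num

theorem an_ge (b : ℕ) (hb : 2 ≤ b) (k : ℕ) : (b : ℝ) ≤ an b k * et b k := by
  have h1 : (b : ℝ) / et b k ≤ an b k := Nat.le_ceil _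
  rwa [div_le_iff₀ (et_pos b hb k)] at h1

theorem an_pos (b : ℕ) (hb : 2 ≤ b) (k : ℕ) : 0 < an b k := by
  rw [Nat.pos_iff_ne_zero]
  intro h
  have h1 := an_ge b hb k
  rw [h] at h1
  have hb' : (2 : ℝ) ≤ b := by exact_mod_cast hb
  push_cast at h1
  linarith

theorem an_le (b : ℕ) (hb : 2 ≤ b) (k : ℕ) : (an b k : ℝ) ≤ Real.exp (2 * b + 2) := by
  have hb' : (2 : ℝ) ≤ b := by exact_mod_cast hb
  have hx0 := et_pos b hb k
  have h2 : (an b k : ℝ) < b / et b k + 1 := Nat.ceil_lt_add_one (by positivity)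
  have h3 : (b : ℝ) / et b k ≤ Real.exp (2 * b + 1) := by
    rw [div_le_iff₀ hx0]
    have h4 : (b : ℝ) ≤ Real.exp (b - 1) := by
      have := Real.add_one_le_exp ((b : ℝ) - 1)
      linarith
    calc (b : ℝ) ≤ Real.exp (b - 1) := h4
      _ = Real.exp (2 * b + 1) * Real.exp (-(b : ℝ) - 2) := by
        rw [← Real.exp_add]
        congr 1
        ring
      _ ≤ Real.exp (2 * b + 1) * et b k :=
        mul_le_mul_of_nonneg_left (et_bd b hb k).1 (Real.exp_pos _).le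
  have h5 : Real.exp (2 * b + 2) = Real.exp (2 * b + 1) * Real.exp 1 := by
    rw [← Real.exp_add]
    congr 1
    ring
  have h6 : (2 : ℝ) ≤ Real.exp 1 := by
    have := Real.add_one_le_exp (1 : ℝ)
    linarith
  have h7 : (1 : ℝ) ≤ Real.exp (2 * b + 1) := Real.one_le_exp (by linarith)
  rw [h5]
  nlinarith

theorem Bn_le (b : ℕ) (hb : 2 ≤ b) (k : ℕ) : (Bn b k : ℝ) ≤ Real.exp ((k + 1) * (2 * b + 2)) := by
  have hb' : (2 : ℝ) ≤ b := by exact_mod_cast hb
  induction k with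
  | zero =>
    show (b : ℝ) ≤ _
    have := Real.add_one_le_exp (((0 : ℕ) + 1 : ℝ) * (2 * b + 2))
    push_cast at this ⊢
    linarith
  | succ k ih =>
    show ((an b k * Bn b k : ℕ) : ℝ) ≤ _
    push_cast
    calc (an b k : ℝ) * Bn b k ≤ Real.exp (2 * b + 2) * Real.exp ((k + 1) * (2 * b + 2)) :=
          mul_le_mul (an_le b hb k) ih (Nat.cast_nonneg _) (Real.exp_pos _).le
      _ = Real.exp ((k + 1 + 1) * (2 * b + 2)) := by
        rw [← Real.exp_add]
        congr 1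
        ring

theorem Bn_pos (b : ℕ) (hb : 2 ≤ b) (k : ℕ) : 0 < Bn b k := by
  induction k with
  | zero =>
    show 0 < b
    omega
  | succ k ih => exact Nat.mul_pos (an_pos b hb k) ih

theorem exp_neg_le_one_sub_half {y : ℝ} (h0 : 0 ≤ y) (h1 : y ≤ 1) : Real.exp (-y) ≤ 1 - y / 2 := by
  have h2 : 1 + y ≤ Real.exp y := by
    have := Real.add_one_le_exp y
    linarith
  rw [Real.exp_neg]
  calc (Real.exp y)⁻¹ ≤ (1 + y)⁻¹ := inv_anti₀ (by linarith) h2
    _ ≤ 1 - y / 2 := by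
      rw [inv_le_iff_one_le_mul₀ (by linarith)]
      nlinarith

/-- the deviation at level `k` -/
noncomputable def dd (b : ℕ) (γ : ℝ) (k : ℕ) : ℝ := γ * b * ((b : ℝ) / 2) ^ k

theorem dd_succ (b : ℕ) (γ : ℝ) (k : ℕ) : dd b γ (k + 1) = b * dd b γ k / 2 := by
  unfold dd
  rw [pow_succ]
  ring

theorem dd_nonneg (b : ℕ) (γ : ℝ) (hγ : 0 ≤ γ) (k : ℕ) : 0 ≤ dd b γ k := by
  unfold dd
  positivity

theorem gap_up (b : ℕ) (hb : 2 ≤ b) (k : ℕ) (γ : ℝ) (h : ft b k (1 / 2 + γ) ≤ et b k * (1 - dd b γ k))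
    (hγ : 0 ≤ γ) : et b (k + 1) * (1 + b * dd b γ k) ≤ ft b (k + 1) (1 / 2 - γ) := by
  have hd := dd_nonneg b γ hγ k
  set d := dd b γ k
  set x := et b k with hx
  have hx0 : 0 < x := et_pos b hb k
  have hx4 : x ≤ 1 / 4 := et_le_quarter b hb k
  have h1 : (1 : ℝ) - (1 / 2 - γ) = 1 / 2 + γ := by ring
  rw [ft_succ, h1, et_succ, ← hx]
  have h2 : (1 - x) * (1 + x * d) ≤ 1 - ft b k (1 / 2 + γ) := by
    nlinarith [mul_nonneg (mul_nonneg hx0.le hx0.le) hd]
  have h3 : 0 ≤ (1 - x) * (1 + x * d) := by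
    have := mul_nonneg hx0.le hd
    exact mul_nonneg (by linarith) (by linarith)
  calc (1 - x) ^ an b k * (1 + b * d) ≤ (1 - x) ^ an b k * (1 + x * d) ^ an b k := by
        refine mul_le_mul_of_nonneg_left ?_ (pow_nonneg (by linarith) _)
        have h4 := one_add_mul_le_pow (a := x * d) (by
          have := mul_nonneg hx0.le hd
          linarith) (an b k)
        refine le_trans ?_ h4
        have h5 := mul_le_mul_of_nonneg_right (an_ge b hb k) hd
        rw [← hx] at h5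
        linarith
    _ = ((1 - x) * (1 + x * d)) ^ an b k := (mul_pow _ _ _).symm
    _ ≤ (1 - ft b k (1 / 2 + γ)) ^ an b k := pow_le_pow_left₀ h3 h2 _

theorem gap_down (b : ℕ) (hb : 2 ≤ b) (k : ℕ) (γ : ℝ) (h : et b k * (1 + dd b γ k) ≤ ft b k (1 / 2 - γ))
    (hγ : 0 ≤ γ) (hγ1 : γ ≤ 1 / 2) (hbd : b * dd b γ k ≤ 1) :
    ft b (k + 1) (1 / 2 + γ) ≤ et b (k + 1) * (1 - dd b γ (k + 1)) := by
  have hd := dd_nonneg b γ hγ k
  rw [dd_succ]
  set d := dd b γ k
  set x := et b k with hx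
  have hb' : (2 : ℝ) ≤ b := by exact_mod_cast hb
  have hx0 : 0 < x := et_pos b hb k
  have hx4 : x ≤ 1 / 4 := et_le_quarter b hb k
  have hd1 : d ≤ 1 := by nlinarith
  have h1 : (1 : ℝ) - (1 / 2 + γ) = 1 / 2 - γ := by ring
  rw [ft_succ, h1, et_succ, ← hx]
  obtain ⟨h6, h7⟩ := ft_range b k (1 / 2 - γ) (by linarith) (by linarith)
  have hxd : x * d ≤ 1 := by nlinarith
  have h2 : 1 - ft b k (1 / 2 - γ) ≤ (1 - x) * (1 - x * d) := by
    nlinarith [mul_nonneg (mul_nonneg hx0.le hx0.le) hd]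
  calc (1 - ft b k (1 / 2 - γ)) ^ an b k ≤ ((1 - x) * (1 - x * d)) ^ an b k :=
        pow_le_pow_left₀ (by linarith) h2 _
    _ = (1 - x) ^ an b k * (1 - x * d) ^ an b k := mul_pow _ _ _
    _ ≤ (1 - x) ^ an b k * (1 - b * d / 2) := by
      refine mul_le_mul_of_nonneg_left ?_ (pow_nonneg (by linarith) _)
      calc (1 - x * d) ^ an b k ≤ Real.exp (-(x * d)) ^ an b k :=
            pow_le_pow_left₀ (by linarith) (Real.one_sub_le_exp_neg _) _
        _ = Real.exp (an b k * (-(x * d))) := by rw [← Real.exp_nat_mul]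
        _ ≤ Real.exp (-(b * d)) := by
          refine Real.exp_le_exp.mpr ?_
          have h5 := mul_le_mul_of_nonneg_right (an_ge b hb k) hd
          rw [← hx] at h5
          linarith
        _ ≤ 1 - b * d / 2 := exp_neg_le_one_sub_half (by positivity) hbd

theorem gap (b : ℕ) (hb : 2 ≤ b) (γ : ℝ) (hγ : 0 ≤ γ) (hγb : 2 * γ * b ≤ 1) (k : ℕ)
    (hk : ∀ j < k, b * dd b γ j ≤ 1) :
    et b k * (1 + dd b γ k) ≤ ft b k (1 / 2 - γ) ∧ ft b k (1 / 2 + γ) ≤ et b k * (1 - dd b γ k) := by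
  have hb' : (2 : ℝ) ≤ b := by exact_mod_cast hb
  have hγ1 : γ ≤ 1 / 2 := by nlinarith
  induction k with
  | zero =>
    have h0 : et b 0 = (1 / 2 : ℝ) ^ b := by
      show (1 - (1 / 2 : ℝ)) ^ b = _
      norm_num
    have hd : dd b γ 0 = γ * b := by
      unfold dd
      ring
    rw [h0, hd, ft_zero, ft_zero]
    constructor
    · have h1 : (1 : ℝ) - (1 / 2 - γ) = 1 / 2 * (1 + 2 * γ) := by ring
      rw [h1, mul_pow]
      refine mul_le_mul_of_nonneg_left ?_ (by positivity)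
      have h2 := one_add_mul_le_pow (a := 2 * γ) (by linarith) b
      nlinarith
    · have h1 : (1 : ℝ) - (1 / 2 + γ) = 1 / 2 * (1 - 2 * γ) := by ring
      rw [h1, mul_pow]
      refine mul_le_mul_of_nonneg_left ?_ (by positivity)
      calc (1 - 2 * γ) ^ b ≤ Real.exp (-(2 * γ)) ^ b :=
            pow_le_pow_left₀ (by linarith) (Real.one_sub_le_exp_neg _) _
        _ = Real.exp (-(2 * γ * b)) := by
          rw [← Real.exp_nat_mul]
          congr 1
          ring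
        _ ≤ 1 - 2 * γ * b / 2 := exp_neg_le_one_sub_half (by positivity) hγb
        _ = 1 - γ * b := by ring
  | succ k ih =>
    obtain ⟨h1, h2⟩ := ih fun j hj => hk j (by omega)
    have hbk := hk k (by omega)
    refine ⟨?_, gap_down b hb k γ h1 hγ hγ1 hbk⟩
    refine le_trans ?_ (gap_up b hb k γ h2 hγ)
    refine mul_le_mul_of_nonneg_left ?_ (et_pos b hb (k + 1)).le
    rw [dd_succ]
    have := dd_nonneg b γ hγ k
    nlinarith

/-- the bias -/
noncomputable def gm (b k : ℕ) : ℝ := 2 ^ k / (2 * (b : ℝ) ^ (k + 1))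

theorem gm_pos (b : ℕ) (hb : 2 ≤ b) (k : ℕ) : 0 < gm b k := by
  have : (0 : ℝ) < b := by
    have : 0 < b := by omega
    exact_mod_cast this
  unfold gm
  positivity

theorem gm_le (b : ℕ) (hb : 2 ≤ b) (k : ℕ) : 2 * gm b k * b ≤ 1 := by
  have hb' : (2 : ℝ) ≤ b := by exact_mod_cast hb
  have hb0 : (0 : ℝ) < b := by linarith
  have h1 : 2 * gm b k * b = (2 / (b : ℝ)) ^ k := by
    unfold gm
    rw [div_pow, pow_succ]
    field_simp
  rw [h1]
  exact pow_le_one₀ (by positivity) ((div_le_one hb0).mpr hb')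

/-- Section 7, final estimate. -/
theorem trb_gap (b : ℕ) (hb : 2 ≤ b) (k : ℕ) : 2 * et b k ≤ ft b k (1 / 2 - gm b k) := by
  have hb' : (2 : ℝ) ≤ b := by exact_mod_cast hb
  have hb0 : (0 : ℝ) < b := by linarith
  have hg := gm_pos b hb k
  have hgb := gm_le b hb k
  cases k with
  | zero =>
    have h0 : et b 0 = (1 / 2 : ℝ) ^ b := by
      show (1 - (1 / 2 : ℝ)) ^ b = _
      norm_num
    have h1 : (1 : ℝ) - (1 / 2 - gm b 0) = 1 / 2 * (1 + 1 / b) := by
      unfold gm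
      field_simp
      ring
    rw [h0, ft_zero, h1, mul_pow]
    have h2 := one_add_mul_le_pow (a := 1 / (b : ℝ)) (by
      have : (0 : ℝ) ≤ 1 / b := by positivity
      linarith) b
    have h3 : (b : ℝ) * (1 / b) = 1 := by field_simp
    rw [h3] at h2
    have h4 : (0 : ℝ) < (1 / 2 : ℝ) ^ b := by positivity
    nlinarith
  | succ k =>
    have hdd : ∀ j, b * dd b (gm b (k + 1)) j = ((b : ℝ) / 2) ^ j / ((b : ℝ) / 2) ^ k := by
      intro j
      unfold dd gm
      rw [div_pow _ _ k, pow_succ (b : ℝ) (k + 1), pow_succ (b : ℝ) k, pow_succ (2 : ℝ) k]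
      field_simp
    have h1 : (1 : ℝ) ≤ (b : ℝ) / 2 := by linarith
    obtain ⟨-, h3⟩ := gap b hb (gm b (k + 1)) hg.le hgb k fun j hj => by
      rw [hdd]
      rw [div_le_one (by positivity)]
      exact pow_le_pow_right₀ h1 hj.le
    have h4 := gap_up b hb k _ h3 hg.le
    rw [hdd, div_self (by positivity)] at h4
    linarith

end H61DH

end S_H61_DH_Trb
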