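import Mathlib
import Pool.Agent.H98.DP.Det
import Pool.Agent.H98.DP.Gd

/-! Bounded depth refutations with parity gates, part Rn: this file joins several modules to save build time. -/

set_option autoImplicit false

section S_H98_DH_RA

set_option autoImplicit false
open scoped Classical

namespace H98DH

private theorem ra_card_Y (B : ℕ) : Fintype.card (Fin B → ZMod 2) = 2 ^ B := by
  rw [Fintype.card_fun, ZMod.card, Fintype.card_fin]

private theorem ra_natCard {B : ℕ} (A : Set (Fin B → ZMod 2)) :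
    Nat.card A = (Finset.univ.filter (fun σ : Fin B → ZMod 2 => σ ∈ A)).card := by
  rw [Nat.card_eq_fintype_card, Fintype.card_subtype]

private theorem ra_split {B : ℕ} (A : Set (Fin B → ZMod 2)) :
    Nat.card A + (Finset.univ.filter (fun σ : Fin B → ZMod 2 => σ ∉ A)).card = 2 ^ B := by
  have h := Finset.card_filter_add_card_filter_not (s := (Finset.univ : Finset (Fin B → ZMod 2))) (fun σ => σ ∈ A)
  rw [Finset.card_univ, ra_card_Y] at h
  rw [ra_natCard]
  exact h

theorem card_pair {m B : ℕ} (A : Set (Fin B → ZMod 2)) (x : Fin (m * B) → ZMod 2) :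
    (Finset.univ.filter (fun p : Fin m × (Fin B → ZMod 2) => sub x p.1 + p.2 ∉ A)).card =
      m * (2 ^ B - Nat.card A) := by
  have h1 : (Finset.univ.filter (fun p : Fin m × (Fin B → ZMod 2) => sub x p.1 + p.2 ∉ A)).card =
      ((Finset.univ : Finset (Fin m)) ×ˢ (Finset.univ.filter (fun σ : Fin B → ZMod 2 => σ ∉ A))).card := by
    refine Finset.card_bij (fun p _ => (p.1, sub x p.1 + p.2)) ?_ ?_ ?_
    · rintro ⟨v, σ⟩ h
      rw [Finset.mem_filter] at h
      exact Finset.mem_product.2 ⟨Finset.mem_univ _, Finset.mem_filter.2 ⟨Finset.mem_univ _, h.2⟩⟩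
    · rintro ⟨v, σ⟩ _ ⟨v', σ'⟩ _ h
      obtain ⟨h2, h3⟩ := Prod.mk.inj h
      have h2' : v = v' := h2
      subst h2'
      have h3' : sub x v + σ = sub x v + σ' := h3
      rw [add_left_cancel h3']
    · rintro ⟨v, τ⟩ h
      have h2 := (Finset.mem_filter.1 (Finset.mem_product.1 h).2).2
      have e : sub x v + (τ - sub x v) = τ := add_sub_cancel _ _
      refine ⟨(v, τ - sub x v), Finset.mem_filter.2 ⟨Finset.mem_univ _, ?_⟩, ?_⟩
      · show sub x v + (τ - sub x v) ∉ A
        rw [e]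
        exact h2
      · show (v, sub x v + (τ - sub x v)) = (v, τ)
        rw [e]
  have h2 := ra_split A
  rw [h1, Finset.card_product, Finset.card_univ, Fintype.card_fin]
  have h3 : (Finset.univ.filter (fun σ : Fin B → ZMod 2 => σ ∉ A)).card = 2 ^ B - Nat.card A := by omega
  rw [h3]

theorem card_Sys (r t m B : ℕ) : Fintype.card (Sys r t m B) = ((m * 2 ^ B) ^ t) ^ r := by
  show Fintype.card (Fin r → Fin t → Fin m × (Fin B → ZMod 2)) = _
  rw [Fintype.card_fun, Fintype.card_fun, Fintype.card_prod, ra_card_Y, Fintype.card_fin, Fintype.card_fin,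
    Fintype.card_fin]

theorem count_sat {r t m B : ℕ} (A : Set (Fin B → ZMod 2)) (x : Fin (m * B) → ZMod 2) :
    ((Finset.univ.filter (fun ω : Sys r t m B => ∀ j, x ∈ CB A ω j)).card : ℝ) =
      (1 - (1 - (Nat.card A : ℝ) / 2 ^ B) ^ t) ^ r * Fintype.card (Sys r t m B) := by
  obtain ⟨a, ha⟩ : ∃ a : ℕ, a = Nat.card A := ⟨_, rfl⟩
  have haB : a ≤ 2 ^ B := by
    have := ra_split A
    omega
  -- the systems which are satisfied at `x`
  have h1 : (Finset.univ.filter (fun ω : Sys r t m B => ∀ j, x ∈ CB A ω j)) =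
      Fintype.piFinset (fun _ : Fin r => Finset.univ.filter
        (fun w : Fin t → Fin m × (Fin B → ZMod 2) => ∃ i, sub x (w i).1 + (w i).2 ∈ A)) := by
    ext ω
    rw [Finset.mem_filter, Fintype.mem_piFinset]
    constructor
    · rintro ⟨-, h⟩ j
      exact Finset.mem_filter.2 ⟨Finset.mem_univ _, h j⟩
    · intro h
      exact ⟨Finset.mem_univ _, fun j => (Finset.mem_filter.1 (h j)).2⟩
  -- all pairs bad
  have h2 : (Finset.univ.filter
      (fun w : Fin t → Fin m × (Fin B → ZMod 2) => ¬ ∃ i, sub x (w i).1 + (w i).2 ∈ A)) =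
      Fintype.piFinset (fun _ : Fin t => Finset.univ.filter
        (fun p : Fin m × (Fin B → ZMod 2) => sub x p.1 + p.2 ∉ A)) := by
    ext w
    rw [Finset.mem_filter, Fintype.mem_piFinset]
    constructor
    · rintro ⟨-, h⟩ i
      exact Finset.mem_filter.2 ⟨Finset.mem_univ _, fun h2 => h ⟨i, h2⟩⟩
    · rintro h
      refine ⟨Finset.mem_univ _, ?_⟩
      rintro ⟨i, hi⟩
      exact (Finset.mem_filter.1 (h i)).2 hi
  have h3 : (Finset.univ.filter
      (fun w : Fin t → Fin m × (Fin B → ZMod 2) => ¬ ∃ i, sub x (w i).1 + (w i).2 ∈ A)).card =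
      (m * (2 ^ B - a)) ^ t := by
    rw [h2, Fintype.card_piFinset, Finset.prod_const, card_pair, Finset.card_univ, Fintype.card_fin, ha]
  have h4 := Finset.card_filter_add_card_filter_not
    (s := (Finset.univ : Finset (Fin t → Fin m × (Fin B → ZMod 2))))
    (fun w => ∃ i, sub x (w i).1 + (w i).2 ∈ A)
  rw [h3, Finset.card_univ, Fintype.card_fun, Fintype.card_prod, ra_card_Y, Fintype.card_fin, Fintype.card_fin] at h4
  have h5 : (((Finset.univ.filter
      (fun w : Fin t → Fin m × (Fin B → ZMod 2) => ∃ i, sub x (w i).1 + (w i).2 ∈ A)).card : ℕ) : ℝ) =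
      (1 - (1 - (a : ℝ) / 2 ^ B) ^ t) * ((m : ℝ) * 2 ^ B) ^ t := by
    have h6 : (((Finset.univ.filter
      (fun w : Fin t → Fin m × (Fin B → ZMod 2) => ∃ i, sub x (w i).1 + (w i).2 ∈ A)).card : ℕ) : ℝ) +
      ((m : ℝ) * (2 ^ B - a)) ^ t = ((m : ℝ) * 2 ^ B) ^ t := by
      have h7 := congrArg (Nat.cast : ℕ → ℝ) h4
      push_cast [haB] at h7
      exact h7
    have hB : (2 : ℝ) ^ B ≠ 0 := by positivity
    have h8 : (m : ℝ) * (2 ^ B - a) = (1 - (a : ℝ) / 2 ^ B) * ((m : ℝ) * 2 ^ B) := by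
      field_simp
    rw [h8, mul_pow] at h6
    linarith
  rw [h1, Fintype.card_piFinset, Finset.prod_const, card_Sys, Finset.card_univ, Fintype.card_fin]
  push_cast
  rw [h5, mul_pow, ha]

theorem count_unsat {r t m B : ℕ} (A : Set (Fin B → ZMod 2)) :
    ((Finset.univ.filter (fun ω : Sys r t m B => ∃ x, ∀ j, x ∈ CB A ω j)).card : ℝ) ≤
      2 ^ (m * B) * (1 - (1 - (Nat.card A : ℝ) / 2 ^ B) ^ t) ^ r * Fintype.card (Sys r t m B) := by
  have h1 : (Finset.univ.filter (fun ω : Sys r t m B => ∃ x, ∀ j, x ∈ CB A ω j)) =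
      (Finset.univ : Finset (Fin (m * B) → ZMod 2)).biUnion
        (fun x => Finset.univ.filter (fun ω : Sys r t m B => ∀ j, x ∈ CB A ω j)) := by
    ext ω
    rw [Finset.mem_filter, Finset.mem_biUnion]
    constructor
    · rintro ⟨-, x, h⟩
      exact ⟨x, Finset.mem_univ _, Finset.mem_filter.2 ⟨Finset.mem_univ _, h⟩⟩
    · rintro ⟨x, -, h⟩
      exact ⟨Finset.mem_univ _, x, (Finset.mem_filter.1 h).2⟩
  rw [h1]
  have h2 : (((Finset.univ : Finset (Fin (m * B) → ZMod 2)).biUnion
        (fun x => Finset.univ.filter (fun ω : Sys r t m B => ∀ j, x ∈ CB A ω j))).card : ℝ) ≤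
      ∑ x : Fin (m * B) → ZMod 2, ((Finset.univ.filter (fun ω : Sys r t m B => ∀ j, x ∈ CB A ω j)).card : ℝ) := by
    exact_mod_cast Finset.card_biUnion_le
  refine h2.trans (le_of_eq ?_)
  rw [Finset.sum_congr rfl fun x _ => count_sat A x, Finset.sum_const, Finset.card_univ, ra_card_Y, nsmul_eq_mul]
  push_cast
  ring

end H98DH

end S_H98_DH_RA

section S_H98_DH_RB

set_option autoImplicit false
open scoped Classical

namespace H98DH

private theorem RB_mem {r t m B : ℕ} (J : Finset (Fin r)) (W : Finset (Fin m)) (ω : Sys r t m B) :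
    J.biUnion (SB ω) ⊆ W ↔ ∀ j ∈ J, ∀ i, (ω j i).1 ∈ W := by
  constructor
  · intro h j hj i
    apply h
    rw [Finset.mem_biUnion]
    exact ⟨j, hj, Finset.mem_image.2 ⟨i, Finset.mem_univ _, rfl⟩⟩
  · intro h v hv
    rw [Finset.mem_biUnion] at hv
    obtain ⟨j, hj, hv⟩ := hv
    obtain ⟨i, _, rfl⟩ := Finset.mem_image.1 hv
    exact h j hj i

theorem count_sub {r t m B : ℕ} (hm : 1 ≤ m) (J : Finset (Fin r)) (W : Finset (Fin m)) :
    ((Finset.univ.filter (fun ω : Sys r t m B => J.biUnion (SB ω) ⊆ W)).card : ℝ) ≤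
      ((W.card : ℝ) / m) ^ (t * J.card) * Fintype.card (Sys r t m B) := by
  have hm0 : (m : ℝ) ≠ 0 := by
    have : m ≠ 0 := by omega
    exact_mod_cast this
  have h1 : Finset.univ.filter (fun ω : Sys r t m B => J.biUnion (SB ω) ⊆ W) =
      Fintype.piFinset (fun j : Fin r => Fintype.piFinset (fun _ : Fin t =>
        if j ∈ J then W ×ˢ (Finset.univ : Finset (Fin B → ZMod 2)) else Finset.univ)) := by
    ext ω
    rw [Finset.mem_filter, Fintype.mem_piFinset, RB_mem]
    simp only [Finset.mem_univ, true_and, Fintype.mem_piFinset]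
    constructor
    · intro h j i
      by_cases hj : j ∈ J
      · rw [if_pos hj]
        exact Finset.mem_product.2 ⟨h j hj i, Finset.mem_univ _⟩
      · rw [if_neg hj]
        exact Finset.mem_univ _
    · intro h j hj i
      have h2 := h j i
      rw [if_pos hj] at h2
      exact (Finset.mem_product.1 h2).1
  have h2 : (Fintype.card (Sys r t m B) : ℝ) =
      ∏ _j : Fin r, ((m : ℝ) * Fintype.card (Fin B → ZMod 2)) ^ t := by
    rw [Finset.prod_const, Finset.card_univ, Fintype.card_fin]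
    have h3 : Fintype.card (Sys r t m B) = ((m * Fintype.card (Fin B → ZMod 2)) ^ t) ^ r := by
      simp only [Sys, Fintype.card_fun, Fintype.card_prod, Fintype.card_fin]
    rw [h3]
    push_cast
    rfl
  have h3 : ((W.card : ℝ) / m) ^ (t * J.card) = ∏ j : Fin r, (if j ∈ J then ((W.card : ℝ) / m) ^ t else 1) := by
    rw [Finset.prod_ite_mem, Finset.univ_inter, Finset.prod_const, pow_mul]
  rw [h1, Fintype.card_piFinset, h2, h3, ← Finset.prod_mul_distrib]
  push_cast
  apply le_of_eq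
  apply Finset.prod_congr rfl
  intro j _
  rw [Fintype.card_piFinset]
  by_cases hj : j ∈ J
  · simp only [if_pos hj, Finset.prod_const, Finset.card_univ, Fintype.card_fin, Finset.card_product]
    push_cast
    rw [← mul_pow]
    congr 1
    field_simp
  · simp only [if_neg hj, Finset.prod_const, Finset.card_univ, Fintype.card_fin, Fintype.card_prod]
    push_cast
    rw [one_mul]

private theorem RB_choose (n l : ℕ) : ((n.choose l : ℕ) : ℝ) ≤ (n : ℝ) ^ l := by
  exact_mod_cast Nat.choose_le_pow n l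

theorem count_expd {r t m B s D0 : ℕ} (hm : 1 ≤ m) (hD : D0 + s ≤ m) :
    ((Finset.univ.filter (fun ω : Sys r t m B => ¬ Expd (SB ω) s D0)).card : ℝ) ≤
      (∑ l ∈ (Finset.range (s + 1)).filter (fun l => s < 2 * l),
        (r : ℝ) ^ l * (m.choose (D0 + l) : ℝ) * (((D0 + l : ℕ) : ℝ) / m) ^ (t * l)) *
        Fintype.card (Sys r t m B) := by
  set I := (Finset.range (s + 1)).filter (fun l => s < 2 * l) with hI
  have h1 : Finset.univ.filter (fun ω : Sys r t m B => ¬ Expd (SB ω) s D0) ⊆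
      I.biUnion (fun l => (Finset.powersetCard l (Finset.univ : Finset (Fin r)) ×ˢ
        Finset.powersetCard (D0 + l) (Finset.univ : Finset (Fin m))).biUnion (fun p =>
          Finset.univ.filter (fun ω : Sys r t m B => p.1.biUnion (SB ω) ⊆ p.2))) := by
    intro ω hω
    have h2 := (Finset.mem_filter.1 hω).2
    unfold Expd at h2
    push Not at h2
    obtain ⟨J, hJ1, hJ2, hJ3⟩ := h2
    have h3 : D0 + J.card ≤ (Finset.univ : Finset (Fin m)).card := by
      rw [Finset.card_univ, Fintype.card_fin]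
      omega
    obtain ⟨W, hW1, _, hW2⟩ := Finset.exists_subsuperset_card_eq (Finset.subset_univ (J.biUnion (SB ω))) hJ3 h3
    rw [Finset.mem_biUnion]
    refine ⟨J.card, ?_, ?_⟩
    · rw [hI, Finset.mem_filter, Finset.mem_range]
      omega
    · rw [Finset.mem_biUnion]
      refine ⟨(J, W), ?_, ?_⟩
      · rw [Finset.mem_product, Finset.mem_powersetCard, Finset.mem_powersetCard]
        exact ⟨⟨Finset.subset_univ _, rfl⟩, ⟨Finset.subset_univ _, hW2⟩⟩
      · rw [Finset.mem_filter]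
        exact ⟨Finset.mem_univ _, hW1⟩
  have h2 := Finset.card_le_card h1
  have h3 := le_trans h2 Finset.card_biUnion_le
  have h4 : ((Finset.univ.filter (fun ω : Sys r t m B => ¬ Expd (SB ω) s D0)).card : ℝ) ≤
      ∑ l ∈ I, (((Finset.powersetCard l (Finset.univ : Finset (Fin r)) ×ˢ
        Finset.powersetCard (D0 + l) (Finset.univ : Finset (Fin m))).biUnion (fun p =>
          Finset.univ.filter (fun ω : Sys r t m B => p.1.biUnion (SB ω) ⊆ p.2))).card : ℝ) := by
    exact_mod_cast h3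
  refine le_trans h4 ?_
  rw [Finset.sum_mul]
  apply Finset.sum_le_sum
  intro l _
  have h5 : (((Finset.powersetCard l (Finset.univ : Finset (Fin r)) ×ˢ
        Finset.powersetCard (D0 + l) (Finset.univ : Finset (Fin m))).biUnion (fun p =>
          Finset.univ.filter (fun ω : Sys r t m B => p.1.biUnion (SB ω) ⊆ p.2))).card : ℝ) ≤
      ∑ p ∈ Finset.powersetCard l (Finset.univ : Finset (Fin r)) ×ˢ
        Finset.powersetCard (D0 + l) (Finset.univ : Finset (Fin m)),
          ((Finset.univ.filter (fun ω : Sys r t m B => p.1.biUnion (SB ω) ⊆ p.2)).card : ℝ) := by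
    exact_mod_cast Finset.card_biUnion_le
  refine le_trans h5 ?_
  have h6 : ∀ p ∈ Finset.powersetCard l (Finset.univ : Finset (Fin r)) ×ˢ
        Finset.powersetCard (D0 + l) (Finset.univ : Finset (Fin m)),
          ((Finset.univ.filter (fun ω : Sys r t m B => p.1.biUnion (SB ω) ⊆ p.2)).card : ℝ) ≤
            (((D0 + l : ℕ) : ℝ) / m) ^ (t * l) * Fintype.card (Sys r t m B) := by
    intro p hp
    rw [Finset.mem_product, Finset.mem_powersetCard, Finset.mem_powersetCard] at hp
    have h7 := count_sub (t := t) (B := B) hm p.1 p.2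
    rw [hp.1.2, hp.2.2] at h7
    exact h7
  refine le_trans (Finset.sum_le_sum h6) ?_
  rw [Finset.sum_const, Finset.card_product, Finset.card_powersetCard, Finset.card_powersetCard,
    Finset.card_univ, Finset.card_univ, Fintype.card_fin, Fintype.card_fin, nsmul_eq_mul]
  push_cast
  have h8 : 0 ≤ (((D0 : ℝ) + l) / m) ^ (t * l) * (Fintype.card (Sys r t m B) : ℝ) := by positivity
  have h9 : 0 ≤ (m.choose (D0 + l) : ℝ) := by positivity
  calc ((r.choose l : ℕ) : ℝ) * (m.choose (D0 + l) : ℝ) *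
        ((((D0 : ℝ) + l) / m) ^ (t * l) * (Fintype.card (Sys r t m B) : ℝ))
      ≤ (r : ℝ) ^ l * (m.choose (D0 + l) : ℝ) *
        ((((D0 : ℝ) + l) / m) ^ (t * l) * (Fintype.card (Sys r t m B) : ℝ)) :=
        mul_le_mul_of_nonneg_right (mul_le_mul_of_nonneg_right (RB_choose r l) h9) h8
    _ = (r : ℝ) ^ l * (m.choose (D0 + l) : ℝ) * (((D0 : ℝ) + l) / m) ^ (t * l) *
        (Fintype.card (Sys r t m B) : ℝ) := by ring

private theorem RB_cover {m l : ℕ} (hm : 1 ≤ m) (X : Finset (Fin m)) (hX : X.card ≤ l) :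
    ∃ g : Fin l → Fin m, X ⊆ Finset.univ.image g := by
  refine ⟨fun i => if h : i.1 < X.card then (X.equivFin.symm ⟨i.1, h⟩).1 else ⟨0, hm⟩, ?_⟩
  intro x hx
  rw [Finset.mem_image]
  have h1 := (X.equivFin ⟨x, hx⟩).2
  refine ⟨⟨(X.equivFin ⟨x, hx⟩).1, lt_of_lt_of_le h1 hX⟩, Finset.mem_univ _, ?_⟩
  rw [dif_pos h1]
  simp

theorem count_free {r t m B s : ℕ} (hm : 1 ≤ m) (L : Set (Finset (Fin B))) (T : Finset (Fin (m * B))) {h : ℕ}
    (hT : (heavy (blk m B) (LtB m L) T).card ≤ h) :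
    ((Finset.univ.filter (fun ω : Sys r t m B => ¬ Free L ω s T)).card : ℝ) ≤
      (∑ l ∈ Finset.Icc 1 s, (r : ℝ) ^ l * (m : ℝ) ^ l * (((h + l : ℕ) : ℝ) / m) ^ (t * l)) *
        Fintype.card (Sys r t m B) := by
  set H := heavy (blk m B) (LtB m L) T with hH
  have h1 : Finset.univ.filter (fun ω : Sys r t m B => ¬ Free L ω s T) ⊆
      (Finset.Icc 1 s).biUnion (fun l => (Finset.powersetCard l (Finset.univ : Finset (Fin r)) ×ˢ
        (Finset.univ : Finset (Fin l → Fin m))).biUnion (fun p =>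
          Finset.univ.filter (fun ω : Sys r t m B => p.1.biUnion (SB ω) ⊆ H ∪ Finset.univ.image p.2))) := by
    intro ω hω
    have h2 := (Finset.mem_filter.1 hω).2
    unfold Free at h2
    push Not at h2
    obtain ⟨J, hJ1, hJ2, hJ3⟩ := h2
    obtain ⟨g, hg⟩ := RB_cover hm (J.biUnion (SB ω) \ H) hJ3
    rw [Finset.mem_biUnion]
    refine ⟨J.card, ?_, ?_⟩
    · rw [Finset.mem_Icc]
      exact ⟨Finset.card_pos.2 hJ1, hJ2⟩
    · rw [Finset.mem_biUnion]
      refine ⟨(J, g), ?_, ?_⟩
      · rw [Finset.mem_product, Finset.mem_powersetCard]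
        exact ⟨⟨Finset.subset_univ _, rfl⟩, Finset.mem_univ _⟩
      · rw [Finset.mem_filter]
        refine ⟨Finset.mem_univ _, ?_⟩
        intro v hv
        by_cases hvH : v ∈ H
        · exact Finset.mem_union_left _ hvH
        · exact Finset.mem_union_right _ (hg (Finset.mem_sdiff.2 ⟨hv, hvH⟩))
  have h2 := Finset.card_le_card h1
  have h3 := le_trans h2 Finset.card_biUnion_le
  have h4 : ((Finset.univ.filter (fun ω : Sys r t m B => ¬ Free L ω s T)).card : ℝ) ≤
      ∑ l ∈ Finset.Icc 1 s, (((Finset.powersetCard l (Finset.univ : Finset (Fin r)) ×ˢ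
        (Finset.univ : Finset (Fin l → Fin m))).biUnion (fun p =>
          Finset.univ.filter (fun ω : Sys r t m B => p.1.biUnion (SB ω) ⊆ H ∪ Finset.univ.image p.2))).card : ℝ) := by
    exact_mod_cast h3
  refine le_trans h4 ?_
  rw [Finset.sum_mul]
  apply Finset.sum_le_sum
  intro l _
  have h5 : (((Finset.powersetCard l (Finset.univ : Finset (Fin r)) ×ˢ
        (Finset.univ : Finset (Fin l → Fin m))).biUnion (fun p =>
          Finset.univ.filter (fun ω : Sys r t m B => p.1.biUnion (SB ω) ⊆ H ∪ Finset.univ.image p.2))).card : ℝ) ≤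
      ∑ p ∈ Finset.powersetCard l (Finset.univ : Finset (Fin r)) ×ˢ (Finset.univ : Finset (Fin l → Fin m)),
          ((Finset.univ.filter (fun ω : Sys r t m B => p.1.biUnion (SB ω) ⊆ H ∪ Finset.univ.image p.2)).card : ℝ) := by
    exact_mod_cast Finset.card_biUnion_le
  refine le_trans h5 ?_
  have h6 : ∀ p ∈ Finset.powersetCard l (Finset.univ : Finset (Fin r)) ×ˢ (Finset.univ : Finset (Fin l → Fin m)),
          ((Finset.univ.filter (fun ω : Sys r t m B => p.1.biUnion (SB ω) ⊆ H ∪ Finset.univ.image p.2)).card : ℝ) ≤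
            (((h + l : ℕ) : ℝ) / m) ^ (t * l) * Fintype.card (Sys r t m B) := by
    intro p hp
    rw [Finset.mem_product, Finset.mem_powersetCard] at hp
    have h7 := count_sub (t := t) (B := B) hm p.1 (H ∪ Finset.univ.image p.2)
    rw [hp.1.2] at h7
    refine le_trans h7 ?_
    have h8 : (H ∪ Finset.univ.image p.2).card ≤ h + l := by
      refine le_trans (Finset.card_union_le _ _) (Nat.add_le_add hT ?_)
      refine le_trans Finset.card_image_le ?_
      rw [Finset.card_univ, Fintype.card_fin]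
    have h9 : ((H ∪ Finset.univ.image p.2).card : ℝ) ≤ ((h + l : ℕ) : ℝ) := by exact_mod_cast h8
    apply mul_le_mul_of_nonneg_right _ (Nat.cast_nonneg _)
    apply pow_le_pow_left₀ (by positivity)
    exact div_le_div_of_nonneg_right h9 (Nat.cast_nonneg _)
  refine le_trans (Finset.sum_le_sum h6) ?_
  rw [Finset.sum_const, Finset.card_product, Finset.card_powersetCard,
    Finset.card_univ, Fintype.card_fin, nsmul_eq_mul, Finset.card_univ, Fintype.card_fun, Fintype.card_fin,
    Fintype.card_fin]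
  push_cast
  have h8 : 0 ≤ (((h : ℝ) + l) / m) ^ (t * l) * (Fintype.card (Sys r t m B) : ℝ) := by positivity
  have h9 : 0 ≤ (m : ℝ) ^ l := by positivity
  calc ((r.choose l : ℕ) : ℝ) * (m : ℝ) ^ l *
        ((((h : ℝ) + l) / m) ^ (t * l) * (Fintype.card (Sys r t m B) : ℝ))
      ≤ (r : ℝ) ^ l * (m : ℝ) ^ l *
        ((((h : ℝ) + l) / m) ^ (t * l) * (Fintype.card (Sys r t m B) : ℝ)) :=
        mul_le_mul_of_nonneg_right (mul_le_mul_of_nonneg_right (RB_choose r l) h9) h8
    _ = (r : ℝ) ^ l * (m : ℝ) ^ l * (((h : ℝ) + l) / m) ^ (t * l) *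
        (Fintype.card (Sys r t m B) : ℝ) := by ring

end H98DH

end S_H98_DH_RB

section S_H98_DH_RC

set_option autoImplicit false
open scoped Classical

namespace H98DH

theorem heavy_gf {m B : ℕ} {q : ℝ} (hq : 0 < q) {L : Set (Finset (Fin B))} (hL : ∅ ∈ L) (a : ℝ) :
    ∑ T : Finset (Fin (m * B)), q ^ T.card * a ^ (m - (heavy (blk m B) (LtB m L) T).card) =
      ((1 + q) ^ B * (1 - (1 - a) * wt (q / (1 + q)) L)) ^ m := by
  have hz : ∀ T : Finset (Fin (m * B)), q ^ T.card * a ^ (m - (heavy (blk m B) (LtB m L) T).card) =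
      ∏ v : Fin m, (q ^ (subT T v).card * (if subT T v ∈ L then a else 1)) := by
    intro T
    rw [Finset.prod_mul_distrib, Finset.prod_pow_eq_pow_sum, ← card_subT]
    congr 1
    rw [Finset.prod_ite, Finset.prod_const, Finset.prod_const_one, mul_one, heavy_ltB hL T]
    congr 1
    have h1 := Finset.card_filter_add_card_filter_not (s := (Finset.univ : Finset (Fin m)))
      (fun v => subT T v ∈ L)
    rw [Finset.card_univ, Fintype.card_fin] at h1
    have h2 : (Finset.univ.filter (fun v : Fin m => subT T v ∉ L)).card =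
        (Finset.univ.filter (fun v : Fin m => ¬ (subT T v ∈ L))).card := rfl
    omega
  have hB : ∑ R : Finset (Fin B), q ^ R.card = (1 + q) ^ B := by
    have h1 := Fintype.sum_pow_mul_eq_add_pow (Fin B) q 1
    rw [Fintype.card_fin] at h1
    simp only [one_pow, mul_one] at h1
    rw [h1, add_comm]
  have hF : ∑ R : Finset (Fin B), (q ^ R.card * (if R ∈ L then a else 1)) =
      (1 + q) ^ B * (1 - (1 - a) * wt (q / (1 + q)) L) := by
    have h1 : ∑ R : Finset (Fin B), (q ^ R.card * (if R ∈ L then a else 1)) =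
        ∑ R : Finset (Fin B), q ^ R.card - (1 - a) *
          ∑ T ∈ Finset.univ.filter (fun T : Finset (Fin B) => T ∈ L), q ^ T.card := by
      rw [Finset.sum_filter, Finset.mul_sum, ← Finset.sum_sub_distrib]
      refine Finset.sum_congr rfl fun R _ => ?_
      by_cases hR : R ∈ L
      · rw [if_pos hR, if_pos hR]
        ring
      · rw [if_neg hR, if_neg hR]
        ring
    rw [h1, hB, wt_q hq]
    ring
  rw [← hF]
  have h1 : (∑ R : Finset (Fin B), (q ^ R.card * (if R ∈ L then a else 1))) ^ m =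
      ∏ _v : Fin m, ∑ R : Finset (Fin B), (q ^ R.card * (if R ∈ L then a else 1)) := by
    rw [Finset.prod_const, Finset.card_univ, Fintype.card_fin]
  rw [h1, Finset.prod_univ_sum]
  refine Finset.sum_nbij' (fun T i => subT T i) (fun x => unT x) ?_ ?_ ?_ ?_ ?_
  · intro T _
    rw [Fintype.mem_piFinset]
    intro i
    exact Finset.mem_univ _
  · intro x _
    exact Finset.mem_univ _
  · intro T _
    exact unT_subT T
  · intro x _
    exact subT_unT x
  · intro T _
    exact hz T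

theorem weight_heavy {m B : ℕ} {q : ℝ} (hq : 0 < q) {L : Set (Finset (Fin B))} (hL : ∅ ∈ L) {a : ℝ} (ha : 0 < a)
    (ha1 : a ≤ 1) (D1 : ℕ) :
    ∑ T ∈ Finset.univ.filter (fun T : Finset (Fin (m * B)) => D1 < (heavy (blk m B) (LtB m L) T).card), q ^ T.card ≤
      (1 + q) ^ (m * B) * ((1 - (1 - a) * wt (q / (1 + q)) L) ^ m / a ^ (m - D1)) := by
  have h1 := heavy_gf (m := m) hq hL a
  have h2 : a ^ (m - D1) * ∑ T ∈ Finset.univ.filter (fun T : Finset (Fin (m * B)) =>
      D1 < (heavy (blk m B) (LtB m L) T).card), q ^ T.card ≤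
      ∑ T : Finset (Fin (m * B)), q ^ T.card * a ^ (m - (heavy (blk m B) (LtB m L) T).card) := by
    rw [Finset.mul_sum]
    refine (Finset.sum_le_sum (g := fun T : Finset (Fin (m * B)) =>
      q ^ T.card * a ^ (m - (heavy (blk m B) (LtB m L) T).card)) fun T hT => ?_).trans
      (Finset.sum_le_sum_of_subset_of_nonneg (Finset.filter_subset _ _) fun T _ _ => ?_)
    · have h3 := (Finset.mem_filter.1 hT).2
      rw [mul_comm]
      refine mul_le_mul_of_nonneg_left ?_ (pow_nonneg hq.le _)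
      exact pow_le_pow_of_le_one ha.le ha1 (by omega)
    · exact mul_nonneg (pow_nonneg hq.le _) (pow_nonneg ha.le _)
  rw [h1, mul_pow, ← pow_mul, mul_comm B m] at h2
  have h3 : 0 < a ^ (m - D1) := pow_pos ha _
  rw [← mul_div_assoc, le_div_iff₀ h3, mul_comm]
  exact h2

theorem exists_system {r t m B s D0 D1 : ℕ} {A : Set (Fin B → ZMod 2)} {L : Set (Finset (Fin B))} (hm : 1 ≤ m)
    (hL : ∅ ∈ L) {q : ℝ} (hq : 0 < q) (hD : D0 + s ≤ m)
    (h1 : (2 : ℝ) ^ (m * B) * (1 - (1 - (Nat.card A : ℝ) / 2 ^ B) ^ t) ^ r ≤ 1 / 8)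
    (h3 : ∑ l ∈ (Finset.range (s + 1)).filter (fun l => s < 2 * l),
        (r : ℝ) ^ l * (m.choose (D0 + l) : ℝ) * (((D0 + l : ℕ) : ℝ) / m) ^ (t * l) ≤ 1 / 8)
    (h4 : ∑ l ∈ Finset.Icc 1 s, (r : ℝ) ^ l * (m : ℝ) ^ l * (((D1 + l : ℕ) : ℝ) / m) ^ (t * l) ≤ 1 / 8)
    (h5 : (1 - (1 - 9 / 10) * wt (q / (1 + q)) L) ^ m / (9 / 10) ^ (m - D1) ≤ 1 / 4) :
    ∃ ω : Sys r t m B, (∀ x, ∃ j, x ∉ CB A ω j) ∧ Expd (SB ω) s D0 ∧
      1 / 2 * (1 + q) ^ (m * B) ≤ ∑ T ∈ Finset.univ.filter (fun T : Finset (Fin (m * B)) =>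
        (heavy (blk m B) (LtB m L) T).card ≤ D1 ∧ Free L ω s T), q ^ T.card := by
  obtain ⟨M, hM⟩ : ∃ M : ℝ, M = (Fintype.card (Sys r t m B) : ℝ) := ⟨_, rfl⟩
  have hM0 : 0 < M := by
    haveI : Nonempty (Fin m) := ⟨⟨0, hm⟩⟩
    haveI : Nonempty (Sys r t m B) := ⟨fun _ _ => (Classical.arbitrary (Fin m), 0)⟩
    rw [hM]
    exact_mod_cast Fintype.card_pos
  have hn0 : 0 < (1 + q) ^ (m * B) := by positivity
  have hall : ∑ T : Finset (Fin (m * B)), q ^ T.card = (1 + q) ^ (m * B) := by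
    have h1 := Fintype.sum_pow_mul_eq_add_pow (Fin (m * B)) q 1
    rw [Fintype.card_fin] at h1
    simp only [one_pow, mul_one] at h1
    rw [h1, add_comm]
  obtain ⟨B1, hB1⟩ : ∃ B1 : Finset (Sys r t m B),
      B1 = Finset.univ.filter (fun ω : Sys r t m B => ∃ x, ∀ j, x ∈ CB A ω j) := ⟨_, rfl⟩
  obtain ⟨B2, hB2⟩ : ∃ B2 : Finset (Sys r t m B),
      B2 = Finset.univ.filter (fun ω : Sys r t m B => ¬ Expd (SB ω) s D0) := ⟨_, rfl⟩
  obtain ⟨W, hW⟩ : ∃ W : Sys r t m B → ℝ, W = fun ω => ∑ T ∈ Finset.univ.filter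
      (fun T : Finset (Fin (m * B)) => (heavy (blk m B) (LtB m L) T).card ≤ D1 ∧ ¬ Free L ω s T),
        q ^ T.card := ⟨_, rfl⟩
  obtain ⟨B3, hB3⟩ : ∃ B3 : Finset (Sys r t m B),
      B3 = Finset.univ.filter (fun ω : Sys r t m B => 1 / 4 * (1 + q) ^ (m * B) < W ω) := ⟨_, rfl⟩
  have c1 : (B1.card : ℝ) ≤ 1 / 8 * M := by
    have h2 := count_unsat (r := r) (t := t) (m := m) A
    rw [← hB1, ← hM] at h2
    exact h2.trans (mul_le_mul_of_nonneg_right h1 hM0.le)
  have c2 : (B2.card : ℝ) ≤ 1 / 8 * M := by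
    have h2 := count_expd (r := r) (t := t) (B := B) (s := s) (D0 := D0) hm hD
    rw [← hB2, ← hM] at h2
    exact h2.trans (mul_le_mul_of_nonneg_right h3 hM0.le)
  have hWn : ∀ ω, 0 ≤ W ω := by
    intro ω
    rw [hW]
    exact Finset.sum_nonneg fun T _ => pow_nonneg hq.le _
  have c3 : (B3.card : ℝ) ≤ 1 / 2 * M := by
    have h2 : (B3.card : ℝ) * (1 / 4 * (1 + q) ^ (m * B)) ≤ ∑ ω : Sys r t m B, W ω := by
      calc (B3.card : ℝ) * (1 / 4 * (1 + q) ^ (m * B)) = ∑ _ω ∈ B3, (1 / 4 * (1 + q) ^ (m * B)) := by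
            rw [Finset.sum_const, nsmul_eq_mul]
        _ ≤ ∑ ω ∈ B3, W ω := by
            refine Finset.sum_le_sum fun ω hω => ?_
            rw [hB3] at hω
            exact (Finset.mem_filter.1 hω).2.le
        _ ≤ ∑ ω : Sys r t m B, W ω :=
            Finset.sum_le_sum_of_subset_of_nonneg (Finset.subset_univ _) fun ω _ _ => hWn ω
    have h6 : ∑ ω : Sys r t m B, W ω ≤ 1 / 8 * M * (1 + q) ^ (m * B) := by
      have h7 : ∑ ω : Sys r t m B, W ω = ∑ T : Finset (Fin (m * B)),
          ∑ ω : Sys r t m B, (if (heavy (blk m B) (LtB m L) T).card ≤ D1 ∧ ¬ Free L ω s T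
            then q ^ T.card else 0) := by
        rw [Finset.sum_comm]
        refine Finset.sum_congr rfl fun ω _ => ?_
        rw [hW]
        exact Finset.sum_filter _ _
      rw [h7, ← hall, Finset.mul_sum]
      refine Finset.sum_le_sum fun T _ => ?_
      by_cases hT : (heavy (blk m B) (LtB m L) T).card ≤ D1
      · have h8 := count_free (r := r) (t := t) (s := s) hm L T hT
        have h9 : ∑ ω : Sys r t m B, (if (heavy (blk m B) (LtB m L) T).card ≤ D1 ∧ ¬ Free L ω s T
            then q ^ T.card else 0) =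
            ((Finset.univ.filter (fun ω : Sys r t m B => ¬ Free L ω s T)).card : ℝ) * q ^ T.card := by
          rw [← nsmul_eq_mul, ← Finset.sum_const, Finset.sum_filter]
          refine Finset.sum_congr rfl fun ω _ => ?_
          by_cases h10 : Free L ω s T
          · rw [if_neg (fun h => h.2 h10), if_neg (fun h => h h10)]
          · rw [if_pos ⟨hT, h10⟩, if_pos h10]
        rw [h9]
        refine mul_le_mul_of_nonneg_right ?_ (pow_nonneg hq.le _)
        rw [← hM] at h8
        exact h8.trans (mul_le_mul_of_nonneg_right h4 hM0.le)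
      · have h9 : ∑ ω : Sys r t m B, (if (heavy (blk m B) (LtB m L) T).card ≤ D1 ∧ ¬ Free L ω s T
            then q ^ T.card else 0) = 0 :=
          Finset.sum_eq_zero fun ω _ => if_neg fun h => hT h.1
        rw [h9]
        have h10 : 0 ≤ q ^ T.card := pow_nonneg hq.le _
        have h11 : 0 ≤ 1 / 8 * M := by linarith
        exact mul_nonneg h11 h10
    have h12 := h2.trans h6
    have h13 : ((B3.card : ℝ) * (1 / 4)) * (1 + q) ^ (m * B) ≤ (1 / 8 * M) * (1 + q) ^ (m * B) := by
      rw [mul_assoc]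
      exact h12
    have h14 := le_of_mul_le_mul_right h13 hn0
    linarith
  obtain ⟨ω, hω⟩ : ∃ ω : Sys r t m B, ω ∉ B1 ∧ ω ∉ B2 ∧ ω ∉ B3 := by
    by_contra hcon
    push Not at hcon
    have h2 : (Finset.univ : Finset (Sys r t m B)) ⊆ B1 ∪ (B2 ∪ B3) := by
      intro ω _
      by_cases h6 : ω ∈ B1
      · exact Finset.mem_union_left _ h6
      · refine Finset.mem_union_right _ ?_
        by_cases h7 : ω ∈ B2
        · exact Finset.mem_union_left _ h7
        · exact Finset.mem_union_right _ (hcon ω h6 h7)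
    have h6 := Finset.card_le_card h2
    have h7 := Finset.card_union_le B1 (B2 ∪ B3)
    have h8 := Finset.card_union_le B2 B3
    rw [Finset.card_univ] at h6
    have h9 : (Fintype.card (Sys r t m B) : ℝ) ≤ (B1.card : ℝ) + ((B2.card : ℝ) + (B3.card : ℝ)) := by
      exact_mod_cast h6.trans (h7.trans (Nat.add_le_add_left h8 _))
    rw [← hM] at h9
    linarith
  obtain ⟨hω1, hω2, hω3⟩ := hω
  refine ⟨ω, ?_, ?_, ?_⟩
  · intro x
    by_contra hcon
    push Not at hcon
    apply hω1
    rw [hB1]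
    exact Finset.mem_filter.2 ⟨Finset.mem_univ _, x, hcon⟩
  · by_contra hcon
    apply hω2
    rw [hB2]
    exact Finset.mem_filter.2 ⟨Finset.mem_univ _, hcon⟩
  · have hw : W ω ≤ 1 / 4 * (1 + q) ^ (m * B) := by
      by_contra hcon
      apply hω3
      rw [hB3]
      exact Finset.mem_filter.2 ⟨Finset.mem_univ _, not_le.1 hcon⟩
    have hh := weight_heavy (m := m) hq hL (a := 9 / 10) (by norm_num) (by norm_num) D1
    have hh2 := hh.trans (mul_le_mul_of_nonneg_left h5 hn0.le)
    have hsplit : ∑ T : Finset (Fin (m * B)), q ^ T.card =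
        ∑ T ∈ Finset.univ.filter (fun T : Finset (Fin (m * B)) =>
          D1 < (heavy (blk m B) (LtB m L) T).card), q ^ T.card +
        (∑ T ∈ Finset.univ.filter (fun T : Finset (Fin (m * B)) =>
          (heavy (blk m B) (LtB m L) T).card ≤ D1 ∧ ¬ Free L ω s T), q ^ T.card +
        ∑ T ∈ Finset.univ.filter (fun T : Finset (Fin (m * B)) =>
          (heavy (blk m B) (LtB m L) T).card ≤ D1 ∧ Free L ω s T), q ^ T.card) := by
      rw [Finset.sum_filter, Finset.sum_filter, Finset.sum_filter, ← Finset.sum_add_distrib,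
        ← Finset.sum_add_distrib]
      refine Finset.sum_congr rfl fun T _ => ?_
      by_cases h6 : (heavy (blk m B) (LtB m L) T).card ≤ D1
      · rw [if_neg (not_lt.2 h6)]
        by_cases h7 : Free L ω s T
        · rw [if_neg (fun h => h.2 h7), if_pos ⟨h6, h7⟩, zero_add, zero_add]
        · rw [if_pos ⟨h6, h7⟩, if_neg (fun h => h7 h.2), zero_add, add_zero]
      · rw [if_pos (not_le.1 h6), if_neg (fun h => h6 h.1), if_neg (fun h => h6 h.1), add_zero, add_zero]
    rw [hW] at hw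
    rw [hall] at hsplit
    linarith

end H98DH

end S_H98_DH_RC
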