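import Mathlib
import Pool.Agent.H98.DP.Det
import Pool.Agent.H98.DP.Cir
import Pool.Agent.H98.DP.Gd
import Pool.Agent.H98.DP.Rn
import Pool.Agent.H98.DP.Nm

/-! Bounded depth refutations with parity gates, part Fi: this file joins several modules to save build time. -/

set_option autoImplicit false

section S_H98_DH_BR

set_option autoImplicit false
open scoped Classical

namespace H98DH

open H96RE H91RE

theorem card_SB {r t m B : ℕ} (ω : Sys r t m B) (j : Fin r) : (SB ω j).card ≤ t := by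
  unfold SB
  exact Finset.card_image_le.trans (by simp)

/-- A good pair and numbers give a system which is hard for all parameters of the refutations at once. -/
theorem block_bound {B m t r : ℕ} {A : Set (Fin B → ZMod 2)} {L : Set (Finset (Fin B))} (hG : Good A L) {q X : ℝ}
    (hq0 : 0 < q) (hq1 : q < 1) (hη0 : 0 < wt (1 / 2) L) (hη1 : wt (1 / 2) L ≤ 1 / 20)
    (h2 : 2 * wt (1 / 2) L ≤ wt (q / (1 + q)) L)
    (hX : 640 * (1 + Real.log (1 / wt (1 / 2) L)) ≤ Real.log X) (hn : ((m * B : ℕ) : ℝ) ≤ X) (hm : (m : ℝ) ≤ X)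
    (hηm : 1000 ≤ wt (1 / 2) L * m) (ht : t = ⌈5 * Real.log X / wt (1 / 2) L⌉₊)
    (hr : r = ⌈X / (1 - wt (1 / 2) L) ^ t⌉₊) :
    ∃ ω : Sys r t m B, (∀ x, ∃ j, x ∉ CB A ω j) ∧
      ∀ (e D f Sz : ℕ) (w ee : ℕ → ℕ) (ε : ℝ), ee 0 = e → (∀ k < D, ee (k + 1) = ee k * w (k + 1)) →
        (∀ k, 1 ≤ w k) → ((f : ℝ) + 1) * ee D + t + 1 ≤ 2 / 5 * wt (1 / 2) L * m →
        (∀ k < D, (1 - q ^ (ee k) / 2) ^ (w (k + 1)) ≤ ε) → Refutes (CB A ω) e D f Sz →
        1 / 2 ≤ (((m * B : ℕ) : ℝ) + 1) * Sz * ε := by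
  set η := wt (1 / 2) L with hη
  have hmpos : 0 < m := by
    rcases Nat.eq_zero_or_pos m with h | h
    · subst h
      norm_num at hηm
    · exact h
  have hlog : 0 ≤ Real.log (1 / η) := by
    apply Real.log_nonneg
    rw [le_div_iff₀ hη0]
    linarith
  have hX640 : 640 ≤ Real.log X := by nlinarith
  have hcard : (Nat.card A : ℝ) / 2 ^ B = η := by
    rw [hη, wt_half, hG.card]
  have hp0 : 0 ≤ q / (1 + q) := by positivity
  have hp1 : q / (1 + q) ≤ 1 := by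
    rw [div_le_one (by linarith)]
    linarith
  have hwt1 : wt (q / (1 + q)) L ≤ 1 := by
    exact (wt_mono hp0 hp1 (Set.subset_univ L)).trans_eq (wt_univ (q / (1 + q)))
  obtain ⟨hD0s, hD01⟩ := num_D (m := m) hη0 hη1 (s := ⌊η * m / 20⌋₊) (D0 := ⌊(1 - 7 / 5 * η) * m⌋₊)
    (D1 := ⌊(1 - 9 / 5 * η) * m⌋₊) rfl rfl rfl
  obtain ⟨ω, hun, hexp, hw⟩ := exists_system (r := r) (t := t) (m := m) (B := B) (s := ⌊η * m / 20⌋₊)
    (D0 := ⌊(1 - 7 / 5 * η) * m⌋₊) (D1 := ⌊(1 - 9 / 5 * η) * m⌋₊) (A := A) (L := L) hmpos hG.empty hq0 hD0s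
    (by rw [hcard]; exact num_un hη0 hη1 hX640 hn hr)
    (num_E hη0 hη1 hX hm hηm ht hr rfl rfl)
    (num_G hη0 hη1 hX640 hm hηm ht hr rfl rfl)
    (num_W hη0 hη1 hηm rfl h2 hwt1)
  refine ⟨ω, hun, ?_⟩
  intro e D f Sz w ee ε hee hs' hw1 hdeg hε href
  have hdeg' : ⌊(1 - 9 / 5 * η) * m⌋₊ + (f + 1) * ee D + t < ⌊(1 - 7 / 5 * η) * m⌋₊ := by
    have : ((⌊(1 - 9 / 5 * η) * m⌋₊ + (f + 1) * ee D + t : ℕ) : ℝ) < (⌊(1 - 7 / 5 * η) * m⌋₊ : ℝ) := by
      push_cast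
      linarith
    exact_mod_cast this
  have hs1 : 1 ≤ ⌊η * m / 20⌋₊ := by
    apply Nat.le_floor
    push_cast
    linarith
  have hdet := det_bound (n := m * B) (m := m) (e := e) (D := D) (f := f) (Sz := Sz) (t := t)
    (s := ⌊η * m / 20⌋₊) (D1 := ⌊(1 - 9 / 5 * η) * m⌋₊) (D0 := ⌊(1 - 7 / 5 * η) * m⌋₊)
    (blk m B) (LtB m L) (ltB_empty hG.empty) (ltB_down hG.down) (SB ω) (CB A ω)
    (fun j x y h hx => cB_dep A ω j x y h hx) (priv_of_good hG ω) hs1 (card_SB ω) hexp hee hs' hw1 hdeg' hq0 hq1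
    hε href
  have hall : 1 / 2 * (1 + q) ^ (m * B) ≤ (((m * B : ℕ) : ℝ) + 1) * (Sz * (ε * (1 + q) ^ (m * B))) :=
    hw.trans (by simpa only [Free] using hdet)
  have hpos : 0 < (1 + q) ^ (m * B) := by positivity
  by_contra hcon
  push Not at hcon
  nlinarith

/-- The constraints of a system are computed by formulas. -/
theorem formula_of_sys {K r t m B : ℕ} {A : Set (Fin B → ZMod 2)}
    (hF : ∀ (n : ℕ) (ρ : Fin B → Fin n) (σ : Fin B → ZMod 2), ∃ φ : Fm n K,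
      (∀ x, Holds K φ x ↔ ¬ ((fun l => x (ρ l)) + σ ∈ A)) ∧ leaves K φ = B) (ω : Sys r t m B) :
    ∃ Φ : Fin r → Fm (m * B) (K + 1), (∀ j, {x | Holds (K + 1) (Φ j) x} = CB A ω j) ∧
      ∀ j, leaves (K + 1) (Φ j) = t * B := by
  choose φ h1 h2 using fun (v : Fin m) (σ : Fin B → ZMod 2) =>
    hF (m * B) (fun l => finProdFinEquiv (v, l)) σ
  refine ⟨fun j => (List.ofFn (fun i => φ (ω j i).1 (ω j i).2) : List (Fm (m * B) K)), ?_, ?_⟩
  · intro j
    ext x
    simp only [Set.mem_ofPred_eq, Holds, CB, List.forall_mem_ofFn_iff, h1]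
    push Not
    rfl
  · intro j
    simp only [leaves, List.map_ofFn, Function.comp_def, h2, List.sum_ofFn, Finset.sum_const, Finset.card_univ,
      Fintype.card_fin, smul_eq_mul]

end H98DH

end S_H98_DH_BR

section S_H98_DH_FinS

set_option autoImplicit false
open scoped Classical

namespace H98DH

/-- the tribes pairs: for every depth `K ≥ 1` and `b ≥ 20` there is a good pair `(A, L)` of weight about `exp (-b)` at `1/2`, whose weight doubles at `1 / 2 - 2 ^ K / (4 b ^ K)`, and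
(translates of) the complement of `A` are given by formulas of depth `K` with `B` leaves -/
def TribesSt : Prop :=
  ∀ K b : ℕ, 1 ≤ K → 20 ≤ b → ∃ (B : ℕ) (A : Set (Fin B → ZMod 2)) (L : Set (Finset (Fin B))),
    1 ≤ B ∧ (B : ℝ) ≤ Real.exp (2 * b * K) ∧ Good A L ∧ A ≠ Set.univ ∧
    Real.exp (-((b : ℝ) + 2)) ≤ wt (1 / 2) L ∧ wt (1 / 2) L ≤ (1 / 2 : ℝ) ^ b ∧
    2 * wt (1 / 2) L ≤ wt (1 / 2 - 2 ^ K / (4 * (b : ℝ) ^ K)) L ∧
    ∀ (n : ℕ) (ρ : Fin B → Fin n) (σ : Fin B → ZMod 2), ∃ φ : Fm n K,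
      (∀ x, Holds K φ x ↔ ¬ ((fun l => x (ρ l)) + σ ∈ A)) ∧ leaves K φ = B

/-- the main theorem in explicit form (the system depends only on `K` and `N`) -/
def MasterSt : Prop :=
  ∀ K N : ℕ, 1 ≤ K → 10 ^ 6 * (K : ℝ) ≤ Real.log N →
    ∃ (n r : ℕ) (C : Fin r → Fm n (K + 1)), n ≤ N ∧ r ≤ N ^ 7 ∧ (∀ j, leaves (K + 1) (C j) ≤ N) ∧
      (∀ x, ∃ j, ¬ Holds (K + 1) (C j) x) ∧
      ∀ D e f S w : ℕ, 2 ≤ D → 1 ≤ e → Real.log N ≤ w →
        8 * e * (w : ℝ) ^ (D - 1) * (8000 * K) ^ K ≤ Real.log N ^ (K + 1) →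
        ((f : ℝ) + 1) * e * (w : ℝ) ^ (D - 1) ≤ (N : ℝ) ^ (1 / 4 : ℝ) →
        Refutes (fun j => {x | Holds (K + 1) (C j) x}) e D f S →
        min ((8 / 5 : ℝ) ^ w) (Real.exp ((N : ℝ) ^ (1 / 4 : ℝ) / 2)) ≤ 2 * ((N : ℝ) + 1) * S

end H98DH

end S_H98_DH_FinS

section S_H98_DH_FinM

set_option autoImplicit false
open scoped Classical

namespace H98DH

open H96RE H91RE

theorem master (hT : TribesSt) : MasterSt := by
  intro K N hK hN
  obtain ⟨b, hb⟩ : ∃ b, b = ⌊Real.log N / (2000 * K)⌋₊ := ⟨_, rfl⟩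
  obtain ⟨hb1, hb2⟩ := finB_b hK hN
  rw [← hb] at hb1 hb2
  obtain ⟨B, A, L, hB1, hB2, hG, hAu, hη1, hη2, hη3, hφ⟩ := hT K b hK (by omega)
  obtain ⟨q, hq⟩ : ∃ q : ℝ, q = (1 - 2 * (2 ^ K / (4 * (b : ℝ) ^ K))) / (1 + 2 * (2 ^ K / (4 * (b : ℝ) ^ K))) := ⟨_, rfl⟩
  obtain ⟨hq0, hq1, hqp, hE⟩ := finE hK hN (by omega : 20 ≤ b) hb2 hq
  obtain ⟨hη0, h20, h6, h640, hsqrt, hleaf, hdeg⟩ := finB hK hN hb hB1 hB2 hη1 hη2
  rw [← hqp] at hη3
  have hlogN : (10 : ℝ) ^ 6 ≤ Real.log N := by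
    have h1 : (1 : ℝ) ≤ K := by exact_mod_cast hK
    nlinarith
  have hN1 : (1 : ℝ) < N := by
    by_contra h
    push Not at h
    have h1 : Real.log N ≤ 0 := Real.log_nonpos (Nat.cast_nonneg N) h
    linarith
  have hle : N / B * B ≤ N := Nat.div_mul_le_self N B
  have hleR : ((N / B * B : ℕ) : ℝ) ≤ (N : ℝ) := by exact_mod_cast hle
  have hmle : ((N / B : ℕ) : ℝ) ≤ (N : ℝ) := by exact_mod_cast Nat.div_le_self N B
  have h640' : 640 * (1 + Real.log (1 / wt (1 / 2) L)) ≤ Real.log N := by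
    refine le_trans h640 (Real.log_le_log ?_ hleR)
    have h1 : (0 : ℕ) < N / B * B := by omega
    exact_mod_cast h1
  have h1000 : 1000 ≤ wt (1 / 2) L * ((N / B : ℕ) : ℝ) := by
    refine le_trans (Real.le_sqrt_of_sq_le ?_) hsqrt
    have h1 : (10 ^ 6 : ℝ) ≤ ((N / B * B : ℕ) : ℝ) := by exact_mod_cast h6
    linarith
  obtain ⟨t, ht⟩ : ∃ t, t = ⌈5 * Real.log N / wt (1 / 2) L⌉₊ := ⟨_, rfl⟩
  obtain ⟨r, hr⟩ : ∃ r, r = ⌈(N : ℝ) / (1 - wt (1 / 2) L) ^ t⌉₊ := ⟨_, rfl⟩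
  have ht' : (t : ℝ) ≤ 5 * Real.log N / wt (1 / 2) L + 1 := by
    rw [ht]
    exact (Nat.ceil_lt_add_one (by positivity)).le
  have hr7 : (r : ℝ) ≤ (N : ℝ) ^ 7 := (num_r (by linarith) hη0 h20 (by linarith) ht hr).2
  obtain ⟨ω, hun, hbound⟩ := block_bound hG hq0 hq1 hη0 h20 hη3 h640' hleR hmle h1000 ht hr
  obtain ⟨ψ, hψ, hψl⟩ := formula_of_sys hφ ω
  have htB : t * B ≤ N := by
    have h1 : (t : ℝ) * B ≤ (N : ℝ) := le_trans (mul_le_mul_of_nonneg_right ht' (Nat.cast_nonneg B)) hleaf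
    exact_mod_cast h1
  refine ⟨N / B * B, r, ψ, hle, by exact_mod_cast hr7, fun j => by rw [hψl]; exact htB, fun x => ?_, ?_⟩
  · obtain ⟨j, hj⟩ := hun x
    refine ⟨j, fun h => hj ?_⟩
    rw [← hψ j]
    exact h
  · intro D e f S w hD2 he hw hwD hdegw href
    have hCeq : (fun j => {x | Holds (K + 1) (ψ j) x}) = CB A ω := funext hψ
    rw [hCeq] at href
    obtain ⟨hk1, hk2⟩ := hE D e w hD2 he hw hwD
    obtain ⟨w1, hw1⟩ : ∃ w1, w1 = ⌈Real.sqrt N⌉₊ := ⟨_, rfl⟩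
    rw [← hw1] at hk2
    have hwpos : 1 ≤ w := by
      have h1 : (1 : ℝ) ≤ w := le_trans (by norm_num) (le_trans hlogN hw)
      exact_mod_cast h1
    have hw1pos : 1 ≤ w1 := by
      rw [hw1]
      exact Nat.one_le_iff_ne_zero.2 (Nat.ceil_pos.2 (Real.sqrt_pos.2 (by linarith))).ne'
    obtain ⟨ε, hε⟩ : ∃ ε : ℝ, ε = max ((5 / 8 : ℝ) ^ w) (Real.exp (-((N : ℝ) ^ (1 / 4 : ℝ) / 2))) := ⟨_, rfl⟩
    have hεpos : 0 < ε := by
      rw [hε]
      exact lt_of_lt_of_le (Real.exp_pos _) (le_max_right _ _)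
    have hdet := hbound e D f S (fun k => if k < D then w else w1)
      (fun k => if k < D then e * w ^ k else e * w ^ (D - 1) * w1) ε
      (by
        have h1 : 0 < D := by omega
        simp [h1])
      (by
        intro k hk
        have h0 : k < D := hk
        by_cases h1 : k + 1 < D
        · simp only [h0, h1, if_true]
          rw [pow_succ, mul_assoc]
        · simp only [h0, h1, if_true, if_false]
          have h2 : k = D - 1 := by omega
          rw [h2])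
      (by
        intro k
        by_cases h1 : k < D
        · simp only [h1, if_true]
          exact hwpos
        · simp only [h1, if_false]
          exact hw1pos)
      (by
        simp only [lt_irrefl, if_false]
        have h1 := hdeg (((f : ℝ) + 1) * e * (w : ℝ) ^ (D - 1)) hdegw
        rw [← hw1] at h1
        have h3 : ((f : ℝ) + 1) * (e * w ^ (D - 1) * w1 : ℕ) = ((f : ℝ) + 1) * e * (w : ℝ) ^ (D - 1) * w1 := by
          push_cast
          ring
        rw [h3]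
        linarith)
      (by
        intro k hk
        have h0 : k < D := hk
        by_cases h1 : k + 1 < D
        · simp only [h0, h1, if_true]
          rw [hε]
          exact le_trans (hk1 k h1) (le_max_left _ _)
        · simp only [h0, h1, if_true, if_false]
          have h2 : k = D - 1 := by omega
          rw [h2, hε]
          exact le_trans hk2 (le_max_right _ _))
      href
    have h1 : (1 : ℝ) ≤ 2 * ((N : ℝ) + 1) * S * ε := by
      have h5 : (((N / B * B : ℕ) : ℝ) + 1) * S * ε ≤ ((N : ℝ) + 1) * S * ε :=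
        mul_le_mul_of_nonneg_right (mul_le_mul_of_nonneg_right (by linarith) (Nat.cast_nonneg S)) hεpos.le
      linarith
    have hmin : min ((8 / 5 : ℝ) ^ w) (Real.exp ((N : ℝ) ^ (1 / 4 : ℝ) / 2)) * ε ≤ 1 := by
      rw [hε]
      rcases le_total ((5 / 8 : ℝ) ^ w) (Real.exp (-((N : ℝ) ^ (1 / 4 : ℝ) / 2))) with h | h
      · rw [max_eq_right h]
        calc min ((8 / 5 : ℝ) ^ w) (Real.exp ((N : ℝ) ^ (1 / 4 : ℝ) / 2)) * Real.exp (-((N : ℝ) ^ (1 / 4 : ℝ) / 2))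
            ≤ Real.exp ((N : ℝ) ^ (1 / 4 : ℝ) / 2) * Real.exp (-((N : ℝ) ^ (1 / 4 : ℝ) / 2)) :=
              mul_le_mul_of_nonneg_right (min_le_right _ _) (Real.exp_pos _).le
          _ = 1 := by rw [← Real.exp_add, add_neg_cancel, Real.exp_zero]
      · rw [max_eq_left h]
        calc min ((8 / 5 : ℝ) ^ w) (Real.exp ((N : ℝ) ^ (1 / 4 : ℝ) / 2)) * (5 / 8 : ℝ) ^ w
            ≤ (8 / 5 : ℝ) ^ w * (5 / 8 : ℝ) ^ w :=
              mul_le_mul_of_nonneg_right (min_le_left _ _) (by positivity)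
          _ = 1 := by rw [← mul_pow]; norm_num
    by_contra hcon
    push Not at hcon
    have h6 : 2 * ((N : ℝ) + 1) * S * ε < min ((8 / 5 : ℝ) ^ w) (Real.exp ((N : ℝ) ^ (1 / 4 : ℝ) / 2)) * ε :=
      mul_lt_mul_of_pos_right hcon hεpos
    linarith

end H98DH

end S_H98_DH_FinM

section S_H61_DH_Tr

set_option autoImplicit false
open scoped Classical

namespace H61DH

open H98DH

theorem an_le' (b : ℕ) (hb : 20 ≤ b) (k : ℕ) : (an b k : ℝ) ≤ Real.exp (2 * b) := by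
  have hb' : (20 : ℝ) ≤ b := by exact_mod_cast hb
  have hx0 := et_pos b (by omega) k
  have h2 : (an b k : ℝ) < b / et b k + 1 := Nat.ceil_lt_add_one (by positivity)
  have h3 : (b : ℝ) / et b k ≤ b * Real.exp (b + 2) := by
    rw [div_le_iff₀ hx0, mul_assoc]
    have h4 : (1 : ℝ) ≤ Real.exp (b + 2) * et b k := by
      calc (1 : ℝ) = Real.exp (b + 2) * Real.exp (-(b : ℝ) - 2) := by
            rw [← Real.exp_add]
            rw [show (b : ℝ) + 2 + (-(b : ℝ) - 2) = 0 by ring, Real.exp_zero]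
        _ ≤ Real.exp (b + 2) * et b k :=
            mul_le_mul_of_nonneg_left (et_bd b (by omega) k).1 (Real.exp_pos _).le
    calc (b : ℝ) = b * 1 := (mul_one _).symm
      _ ≤ b * (Real.exp (b + 2) * et b k) := mul_le_mul_of_nonneg_left h4 (by positivity)
  have h5 : Real.exp 2 ≤ 7.4 := by
    have h6 := Real.exp_one_lt_d9
    have h7 : Real.exp 2 = Real.exp 1 * Real.exp 1 := by
      rw [← Real.exp_add]
      norm_num
    rw [h7]
    have h8 := Real.exp_pos 1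
    nlinarith
  have h6 : (b : ℝ) * Real.exp 2 + 1 ≤ Real.exp b := by
    have h7 := Real.quadratic_le_exp_of_nonneg (show (0 : ℝ) ≤ b by linarith)
    nlinarith
  have h7 : (1 : ℝ) ≤ Real.exp b := Real.one_le_exp (by linarith)
  have h8 : Real.exp (2 * b) = Real.exp b * Real.exp b := by
    rw [← Real.exp_add]
    congr 1
    ring
  have h9 : Real.exp ((b : ℝ) + 2) = Real.exp b * Real.exp 2 := Real.exp_add _ _
  rw [h8]
  rw [h9] at h3
  nlinarith

theorem Bn_le' (b : ℕ) (hb : 20 ≤ b) (k : ℕ) : (Bn b k : ℝ) ≤ Real.exp (2 * b * (k + 1)) := by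
  have hb' : (20 : ℝ) ≤ b := by exact_mod_cast hb
  induction k with
  | zero =>
    show (b : ℝ) ≤ _
    have := Real.add_one_le_exp (2 * (b : ℝ) * ((0 : ℕ) + 1))
    push_cast at this ⊢
    linarith
  | succ k ih =>
    show ((an b k * Bn b k : ℕ) : ℝ) ≤ _
    push_cast
    calc (an b k : ℝ) * Bn b k ≤ Real.exp (2 * b) * Real.exp (2 * b * (k + 1)) :=
          mul_le_mul (an_le' b hb k) ih (Nat.cast_nonneg _) (Real.exp_pos _).le
      _ = Real.exp (2 * b * (k + 1 + 1)) := by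
        rw [← Real.exp_add]
        congr 1
        ring

private theorem tr_base (b : ℕ) (hb : 2 ≤ b) :
    ∃ (A : Set (Fin b → ZMod 2)) (L : Set (Finset (Fin b))), Good A L ∧ A ≠ Set.univ ∧
      (∀ p : ℝ, wt p L = (1 - p) ^ b) ∧
      ∀ (n : ℕ) (ρ : Fin b → Fin n) (σ : Fin b → ZMod 2), ∃ φ : Fm n 1,
        (∀ x, Holds 1 φ x ↔ ¬ ((fun l => x (ρ l)) + σ ∈ A)) ∧ leaves 1 φ = b := by
  refine ⟨({0} : Set (Fin b → ZMod 2)), ({∅} : Set (Finset (Fin b))), good_point b, ?_, ?_, ?_⟩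
  · intro h
    have h1 : (fun _ : Fin b => (1 : ZMod 2)) ∈ ({0} : Set (Fin b → ZMod 2)) := by
      rw [h]
      trivial
    have h2 := congrFun (Set.mem_singleton_iff.mp h1) ⟨0, by omega⟩
    exact one_ne_zero h2
  · intro p
    exact wt_point b p
  · intro n ρ σ
    have hl : ∀ F : Fin b → Fm n 0, ((List.ofFn F).map (leaves 0)).sum = b := by
      intro F
      rw [List.map_ofFn, List.sum_ofFn]
      show ∑ _l : Fin b, 1 = b
      simp
    let F : Fin b → Fm n 0 := fun l => ((ρ l, σ l) : Fin n × ZMod 2)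
    refine ⟨(List.ofFn F : List (Fm n 0)), ?_, hl F⟩
    intro x
    show (¬ ∀ φ ∈ (List.ofFn F : List (Fm n 0)), Holds 0 φ x) ↔ _
    refine not_congr ?_
    have h1 : (∀ φ ∈ (List.ofFn F : List (Fm n 0)), Holds 0 φ x) ↔ ∀ l : Fin b, x (ρ l) = σ l := by
      constructor
      · intro h l
        exact h (F l) (List.mem_ofFn.mpr ⟨l, rfl⟩)
      · intro h φ hφ
        obtain ⟨l, rfl⟩ := List.mem_ofFn.mp hφ
        exact h l
    rw [h1]
    have h2 : ∀ a c : ZMod 2, a = c ↔ a + c = 0 := by decide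
    constructor
    · intro h
      refine Set.mem_singleton_iff.mpr (funext fun l => ?_)
      exact (h2 _ _).mp (h l)
    · intro h l
      exact (h2 _ _).mpr (congrFun (Set.mem_singleton_iff.mp h) l)

theorem tr_exists (b : ℕ) (hb : 2 ≤ b) (k : ℕ) :
    ∃ (A : Set (Fin (Bn b k) → ZMod 2)) (L : Set (Finset (Fin (Bn b k)))), Good A L ∧ A ≠ Set.univ ∧
      (∀ p : ℝ, wt p L = ft b k p) ∧
      ∀ (n : ℕ) (ρ : Fin (Bn b k) → Fin n) (σ : Fin (Bn b k) → ZMod 2), ∃ φ : Fm n (k + 1),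
        (∀ x, Holds (k + 1) φ x ↔ ¬ ((fun l => x (ρ l)) + σ ∈ A)) ∧ leaves (k + 1) φ = Bn b k := by
  induction k with
  | zero => exact tr_base b hb
  | succ k ih =>
    obtain ⟨A, L, hG, hA, hw, hF⟩ := ih
    have hane : ∃ z, z ∈ A := by
      by_contra hcon
      push Not at hcon
      have h1 : A = ∅ := Set.eq_empty_iff_forall_notMem.mpr hcon
      have h2 := hG.card
      rw [h1] at h2
      have h3 : Nat.card (∅ : Set (Fin (Bn b k) → ZMod 2)) = 0 := by simp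
      rw [h3] at h2
      have h4 : 0 < Nat.card L := Nat.card_pos_iff.mpr ⟨⟨⟨∅, hG.empty⟩⟩, inferInstance⟩
      omega
    refine ⟨stepA (an b k) A, stepL (an b k) L, good_step hG hA, ?_, ?_, ?_⟩
    · intro h
      obtain ⟨z, hz⟩ := hane
      have h1 : (fun j : Fin (an b k * Bn b k) => z (finProdFinEquiv.symm j).2) ∈
          stepA (an b k) A := by
        rw [h]
        trivial
      have h2 := h1 ⟨0, an_pos b hb k⟩
      apply h2
      have h3 : sub (fun j : Fin (an b k * Bn b k) => z (finProdFinEquiv.symm j).2)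
          ⟨0, an_pos b hb k⟩ = z := by
        funext l
        show z (finProdFinEquiv.symm (finProdFinEquiv (⟨0, an_pos b hb k⟩, l))).2 = z l
        rw [Equiv.symm_apply_apply]
      rw [h3]
      exact hz
    · intro p
      have h1 := wt_step (an b k) p L
      rw [hw] at h1
      exact h1
    · intro n ρ σ
      choose Φ hΦ1 hΦ2 using fun i : Fin (an b k) =>
        hF n (fun l => ρ (finProdFinEquiv (i, l))) (fun l => σ (finProdFinEquiv (i, l)))
      refine ⟨(List.ofFn Φ : List (Fm n (k + 1))), ?_, ?_⟩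
      · intro x
        show (¬ ∀ φ ∈ (List.ofFn Φ : List (Fm n (k + 1))), Holds (k + 1) φ x) ↔ _
        refine not_congr ?_
        constructor
        · intro h i
          exact (hΦ1 i x).mp (h (Φ i) (List.mem_ofFn.mpr ⟨i, rfl⟩))
        · intro h φ hφ
          obtain ⟨i, rfl⟩ := List.mem_ofFn.mp hφ
          exact (hΦ1 i x).mpr (h i)
      · show ((List.ofFn Φ : List (Fm n (k + 1))).map (leaves (k + 1))).sum = an b k * Bn b k
        rw [List.map_ofFn, List.sum_ofFn]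
        show ∑ i : Fin (an b k), leaves (k + 1) (Φ i) = an b k * Bn b k
        rw [Finset.sum_congr rfl fun i _ => hΦ2 i, Finset.sum_const, Finset.card_univ, Fintype.card_fin,
          smul_eq_mul]

theorem tribes (K b : ℕ) (hK : 1 ≤ K) (hb : 20 ≤ b) :
    ∃ (B : ℕ) (A : Set (Fin B → ZMod 2)) (L : Set (Finset (Fin B))), 1 ≤ B ∧
      (B : ℝ) ≤ Real.exp (2 * b * K) ∧ Good A L ∧ A ≠ Set.univ ∧
      Real.exp (-((b : ℝ) + 2)) ≤ wt (1 / 2) L ∧ wt (1 / 2) L ≤ (1 / 2 : ℝ) ^ b ∧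
      2 * wt (1 / 2) L ≤ wt (1 / 2 - 2 ^ K / (4 * (b : ℝ) ^ K)) L ∧
      ∀ (n : ℕ) (ρ : Fin B → Fin n) (σ : Fin B → ZMod 2), ∃ φ : Fm n K,
        (∀ x, Holds K φ x ↔ ¬ ((fun l => x (ρ l)) + σ ∈ A)) ∧ leaves K φ = B := by
  obtain ⟨k, rfl⟩ : ∃ k, K = k + 1 := ⟨K - 1, by omega⟩
  have hb2 : 2 ≤ b := by omega
  obtain ⟨A, L, hG, hA, hw, hF⟩ := tr_exists b hb2 k
  have hb0 : (0 : ℝ) < b := by
    have : 0 < b := by omega
    exact_mod_cast this
  refine ⟨Bn b k, A, L, Bn_pos b hb2 k, ?_, hG, hA, ?_, ?_, ?_, hF⟩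
  · push_cast
    exact Bn_le' b hb k
  · rw [hw]
    have h1 := (et_bd b hb2 k).1
    rw [show -((b : ℝ) + 2) = -(b : ℝ) - 2 by ring]
    exact h1
  · rw [hw]
    exact (et_bd b hb2 k).2
  · rw [hw, hw]
    have h1 := trb_gap b hb2 k
    have h2 : (2 : ℝ) ^ (k + 1) / (4 * (b : ℝ) ^ (k + 1)) = gm b k := by
      unfold gm
      rw [pow_succ (2 : ℝ) k]
      field_simp
      ring
    rw [h2]
    exact h1

end H61DH

end S_H61_DH_Tr
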