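import Mathlib
import Pool.Agent.H98.DP.Det
import Pool.Agent.H98.DP.Fi

/-! Bounded depth refutations with parity gates, part Up: this file joins several modules to save build time. -/

set_option autoImplicit false

section S_H98_DH_San

set_option autoImplicit false
open scoped Classical

namespace H98DH

open H96RE H91RE

/-- soundness: only unsatisfiable families have refutations -/
theorem unsat_of_refutes {n : ℕ} {ι : Type} {C : ι → Set (Fin n → ZMod 2)} {e D f S : ℕ} (h : Refutes C e D f S) :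
    ∀ x, ∃ j, x ∉ C j := by
  intro x
  by_contra hcon
  push Not at hcon
  obtain ⟨c, N, F, -, hF, i0, hi0, h0⟩ := h
  have h1 : ∀ i < N, F i x = 1 := by
    intro i
    induction i using Nat.strong_induction_on with
    | _ i ih =>
      intro hi
      rcases hF i hi with ⟨j, hj⟩ | ⟨K, -, hK, hKx⟩
      · exact hj x (hcon j)
      · exact hKx x (fun k hk => ih k (hK k hk) ((hK k hk).trans hi))
  have h2 := h1 i0 hi0
  rw [h0 x] at h2
  exact zero_ne_one h2

theorem par_le {n e : ℕ} {G G' : ℕ → Fn n} {I I' : Set ℕ} (h : G '' I ⊆ G' '' I') : Par e G I ≤ Par e G' I' := by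
  unfold Par
  exact sup_le_sup le_rfl (Submodule.span_mono h)

/-- more gates do not hurt -/
theorem Refutes.mono {n : ℕ} {ι : Type} {C : ι → Set (Fin n → ZMod 2)} {e D f S S' : ℕ} (hD : 1 ≤ D) (hS : S ≤ S')
    (h : Refutes C e D f S) : Refutes C e D f S' := by
  obtain ⟨c, N, F, hF1, hF2, hF3⟩ := h
  have himg : ∀ I : Set ℕ, (∀ g ∈ I, g < S) →
      (fun g => if g < S then c.G g else (0 : Fn n)) '' I = c.G '' I := by
    intro I hI
    refine Set.image_congr fun g hg => ?_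
    simp only [if_pos (hI g hg)]
  let c' : Circ n e D S' :=
    { lev := fun g => if g < S then c.lev g else 1
      G := fun g => if g < S then c.G g else 0
      pos := by
        intro g _
        by_cases h1 : g < S
        · simp only [if_pos h1]
          exact c.pos g h1
        · simp only [if_neg h1]
          exact le_rfl
      le := by
        intro g _
        by_cases h1 : g < S
        · simp only [if_pos h1]
          exact c.le g h1
        · simp only [if_neg h1]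
          exact hD
      or := by
        intro g _
        by_cases h1 : g < S
        · obtain ⟨H, hH1, hH2⟩ := c.or g h1
          refine ⟨H, fun k hk => ?_, fun x => ?_⟩
          · have h2 := hH1 k hk
            refine par_le ?_ h2
            rw [← himg _ (fun g' hg' => hg'.1)]
            refine Set.image_mono ?_
            rintro g' ⟨h3, h4⟩
            refine ⟨h3.trans_le hS, ?_⟩
            simp only [if_pos h1, if_pos h3]
            exact h4
          · simp only [if_pos h1]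
            exact hH2 x
        · refine ⟨∅, fun k hk => absurd hk (Set.notMem_empty k), fun x => ?_⟩
          simp only [if_neg h1]
          constructor
          · intro h2
            exact absurd h2 zero_ne_one
          · rintro ⟨k, hk, -⟩
            exact absurd hk (Set.notMem_empty k) }
  refine ⟨c', N, F, fun i hi => ?_, hF2, hF3⟩
  refine par_le ?_ (hF1 i hi)
  rw [← himg {g | g < S} (fun g' hg' => hg')]
  refine Set.image_mono ?_
  intro g' hg'
  exact lt_of_lt_of_le hg' hS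

/-- completeness: every unsatisfiable family has a refutation with `2^n` gates of level one -/
theorem refutes_of_unsat {n : ℕ} {ι : Type} {C : ι → Set (Fin n → ZMod 2)} {e D f : ℕ} (he : 1 ≤ e) (hD : 1 ≤ D)
    (hf : 2 ≤ f) (h : ∀ x, ∃ j, x ∉ C j) : Refutes C e D f (2 ^ n) := by
  have hcard : Fintype.card (Fin n → ZMod 2) = 2 ^ n := by
    rw [Fintype.card_fun, ZMod.card, Fintype.card_fin]
  obtain ⟨a, ha⟩ : ∃ a : ℕ → Fin n → ZMod 2, ∀ x, ∃ g < 2 ^ n, a g = x := by
    let E := Fintype.equivFinOfCardEq hcard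
    refine ⟨fun g => if hg : g < 2 ^ n then E.symm ⟨g, hg⟩ else 0, fun x => ⟨(E x : ℕ), (E x).2, ?_⟩⟩
    simp only [dif_pos (E x).2]
    exact E.symm_apply_apply x
  obtain ⟨G, hG⟩ : ∃ G : ℕ → Fn n, ∀ g x, G g x = if x = a g then 0 else 1 := ⟨fun g x => if x = a g then 0 else 1, fun _ _ => rfl⟩
  let c : Circ n e D (2 ^ n) :=
    { lev := fun _ => 1
      G := G
      pos := fun _ _ => le_rfl
      le := fun _ _ => hD
      or := by
        intro g _
        refine ⟨{k | ∃ i : Fin n, k = fun x => x i + a g i}, ?_, ?_⟩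
        · rintro k ⟨i, rfl⟩
          refine Submodule.mem_sup_left ?_
          have h1 : (fun x : Fin n → ZMod 2 => x i + a g i) = mono {i} + fun _ => a g i := by
            funext x
            rw [Pi.add_apply]
            unfold mono
            rw [Finset.prod_singleton]
          rw [h1]
          exact Submodule.add_mem _ (Submodule.subset_span ⟨{i}, by simpa using he, rfl⟩) (const_mem _)
        · intro x
          rw [hG]
          constructor
          · intro h1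
            by_cases h2 : x = a g
            · rw [if_pos h2] at h1
              exact absurd h1 zero_ne_one
            · obtain ⟨i, hi⟩ : ∃ i, x i ≠ a g i := by
                by_contra h3
                push Not at h3
                exact h2 (funext h3)
              refine ⟨_, ⟨i, rfl⟩, ?_⟩
              revert hi
              show x i ≠ a g i → x i + a g i = 1
              generalize x i = u
              generalize a g i = v
              revert u v
              decide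
          · rintro ⟨_, ⟨i, rfl⟩, hi⟩
            rw [if_neg]
            rintro rfl
            have h5 : a g i + a g i = 1 := hi
            rw [CharTwo.add_self_eq_zero] at h5
            exact zero_ne_one h5 }
  have hall : ∀ F : Fn n, F ∈ Par e G {g | g < 2 ^ n} := by
    intro F
    have h1 : F = ∑ x : Fin n → ZMod 2, F x • (Pi.single x 1 : Fn n) := by
      funext y
      rw [Finset.sum_apply, Finset.sum_eq_single y]
      · rw [Pi.smul_apply, Pi.single_eq_same, smul_eq_mul, mul_one]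
      · intro x _ hx
        rw [Pi.smul_apply, Pi.single_apply, if_neg (Ne.symm hx), smul_zero]
      · intro h2
        exact absurd (Finset.mem_univ y) h2
    rw [h1]
    refine Submodule.sum_mem _ fun x _ => Submodule.smul_mem _ _ ?_
    obtain ⟨g, hg, rfl⟩ := ha x
    have h2 : (Pi.single (a g) 1 : Fn n) = (fun _ => 1) + G g := by
      funext y
      rw [Pi.add_apply, hG, Pi.single_apply]
      by_cases h3 : y = a g
      · rw [if_pos h3, if_pos h3, add_zero]
      · rw [if_neg h3, if_neg h3, CharTwo.add_self_eq_zero]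
    rw [h2]
    exact Submodule.add_mem _ (Submodule.mem_sup_left (const_mem _)) (Submodule.mem_sup_right (Submodule.subset_span ⟨g, hg, rfl⟩))
  -- the lines
  obtain ⟨F, hF⟩ : ∃ F : ℕ → Fn n, ∀ k x, F k x = 1 ↔ (k % 2 = 0 → x ≠ a (k / 2)) ∧ (k % 2 = 1 → ∀ i ≤ k / 2, x ≠ a i) := by
    refine ⟨fun k x => if (k % 2 = 0 → x ≠ a (k / 2)) ∧ (k % 2 = 1 → ∀ i ≤ k / 2, x ≠ a i) then 1 else 0, fun k x => ?_⟩
    show (if (k % 2 = 0 → x ≠ a (k / 2)) ∧ (k % 2 = 1 → ∀ i ≤ k / 2, x ≠ a i) then (1 : ZMod 2) else 0) = 1 ↔ _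
    by_cases h1 : (k % 2 = 0 → x ≠ a (k / 2)) ∧ (k % 2 = 1 → ∀ i ≤ k / 2, x ≠ a i)
    · rw [if_pos h1]
      exact ⟨fun _ => h1, fun _ => rfl⟩
    · rw [if_neg h1]
      exact ⟨fun h2 => absurd h2 zero_ne_one, fun h2 => absurd h2 h1⟩
  refine ⟨c, 2 * 2 ^ n, F, fun i _ => hall (F i), fun i hi => ?_, 2 * 2 ^ n - 1, ?_, ?_⟩
  · rcases Nat.mod_two_eq_zero_or_one i with h0 | h1
    · obtain ⟨j, hj⟩ := h (a (i / 2))
      refine Or.inl ⟨j, fun x hx => (hF i x).mpr ⟨fun _ h2 => hj (h2 ▸ hx), fun h2 => ?_⟩⟩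
      omega
    · rcases Nat.eq_zero_or_pos (i / 2) with h2 | h2
      · refine Or.inr ⟨{i - 1}, by rw [Finset.card_singleton]; omega, ?_, fun x hx => (hF i x).mpr ⟨fun h3 => ?_, fun _ l hl => ?_⟩⟩
        · intro k hk
          rw [Finset.mem_singleton] at hk
          omega
        · omega
        · have h4 := ((hF (i - 1) x).mp (hx _ (Finset.mem_singleton_self _))).1 (by omega)
          have h5 : (i - 1) / 2 = l := by omega
          rwa [h5] at h4
      · refine Or.inr ⟨{i - 1, i - 2}, (Finset.card_le_two).trans hf, ?_, fun x hx => (hF i x).mpr ⟨fun h3 => ?_, fun _ l hl => ?_⟩⟩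
        · intro k hk
          rw [Finset.mem_insert, Finset.mem_singleton] at hk
          omega
        · omega
        · have h4 := ((hF (i - 1) x).mp (hx _ (by simp))).1 (by omega)
          have h5 := ((hF (i - 2) x).mp (hx _ (by simp))).2 (by omega)
          rcases Nat.lt_or_ge l (i / 2) with h6 | h6
          · exact h5 l (by omega)
          · have h7 : (i - 1) / 2 = l := by omega
            rwa [h7] at h4
  · have := Nat.pos_of_ne_zero (pow_ne_zero n (two_ne_zero : (2 : ℕ) ≠ 0))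
    omega
  · intro x
    have hpos := Nat.pos_of_ne_zero (pow_ne_zero n (two_ne_zero : (2 : ℕ) ≠ 0))
    obtain ⟨g, hg, rfl⟩ := ha x
    have h1 : F (2 * 2 ^ n - 1) (a g) ≠ 1 := by
      intro h2
      exact ((hF _ _).mp h2).2 (by omega) g (by omega) rfl
    have h01 : ∀ t : ZMod 2, t ≠ 1 → t = 0 := by decide
    exact h01 _ h1

end H98DH

end S_H98_DH_San

section S_H98_DH_Seq

set_option autoImplicit false
open scoped Classical

namespace H98DH

open H96RE H91RE

theorem par_mono_e {n e e' : ℕ} (he : e ≤ e') (G : ℕ → Fn n) (I : Set ℕ) : Par e G I ≤ Par e' G I := by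
  unfold Par
  exact sup_le_sup (Pol_mono he) le_rfl

/-- `Refutes` is monotone in the degree, the number of levels, the fan-in and the number of gates -/
theorem Refutes.mono_all {n : ℕ} {ι : Type} {C : ι → Set (Fin n → ZMod 2)} {e e' D D' f f' S S' : ℕ} (he : e ≤ e')
    (hD : D ≤ D') (hD' : 1 ≤ D') (hf : f ≤ f') (hS : S ≤ S') (h : Refutes C e D f S) : Refutes C e' D' f' S' := by
  refine Refutes.mono hD' hS ?_
  obtain ⟨c, N, F, hF1, hF2, hF3⟩ := h
  let c' : Circ n e' D' S :=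
    { lev := c.lev
      G := c.G
      pos := c.pos
      le := fun g hg => (c.le g hg).trans hD
      or := fun g hg => by
        obtain ⟨H, hH1, hH2⟩ := c.or g hg
        exact ⟨H, fun k hk => par_mono_e he _ _ (hH1 k hk), hH2⟩ }
  refine ⟨c', N, F, fun i hi => par_mono_e he _ _ (hF1 i hi), fun i hi => ?_, hF3⟩
  rcases hF2 i hi with h1 | ⟨K, hK1, hK2, hK3⟩
  · exact Or.inl h1
  · exact Or.inr ⟨K, hK1.trans hf, hK2, hK3⟩

/-- the diagonal argument -/
theorem diag (P : ℕ → ℕ → Prop) (h : ∀ K, ∃ N0, ∀ n, N0 ≤ n → P K n) (g : ℕ → ℕ)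
    (hg : Filter.Tendsto g Filter.atTop Filter.atTop) :
    ∃ K : ℕ → ℕ, Filter.Tendsto K Filter.atTop Filter.atTop ∧ (∀ n, K n ≤ g n) ∧ ∀ᶠ n in Filter.atTop, P (K n) n := by
  choose N0 hN0 using h
  refine ⟨fun n => Nat.findGreatest (fun k => N0 k ≤ n) (g n), ?_, fun n => Nat.findGreatest_le _, ?_⟩
  · rw [Filter.tendsto_atTop]
    intro k
    filter_upwards [hg.eventually_ge_atTop k, Filter.eventually_ge_atTop (N0 k)] with n h1 h2
    exact Nat.le_findGreatest h1 h2
  · filter_upwards [Filter.eventually_ge_atTop (N0 0)] with n h1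
    exact hN0 _ n (Nat.findGreatest_spec (P := fun k => N0 k ≤ n) (Nat.zero_le _) h1)

/-- One sequence hard for all constants, from hardness for each fixed depth. -/
theorem seq_of {a : ℕ}
    (hmain : ∀ K, 1 ≤ K → ∃ N0, ∀ n, N0 ≤ n → ∃ (n' r : ℕ) (Φ : Fin r → Fm n' (K + 1)), n' ≤ n ∧ r ≤ n ^ a ∧
      (∀ j, leaves (K + 1) (Φ j) ≤ n) ∧ (∀ x, ∃ j, ¬ Holds (K + 1) (Φ j) x) ∧
      ∀ S, S ≤ n ^ K → ¬ Refutes (fun j => {x | Holds (K + 1) (Φ j) x}) K (K + 1) K S)
    (g : ℕ → ℕ) (hg : Filter.Tendsto g Filter.atTop Filter.atTop) :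
    ∃ (d nv r : ℕ → ℕ) (Φ : ∀ n, Fin (r n) → Fm (nv n) (d n)),
      (∀ᶠ n in Filter.atTop, d n ≤ g n ∧ nv n ≤ n ∧ r n ≤ n ^ a ∧ (∀ j, leaves (d n) (Φ n j) ≤ n) ∧
        ∀ x, ∃ j, ¬ Holds (d n) (Φ n j) x) ∧
      ∀ e D f c : ℕ, ∀ᶠ n in Filter.atTop, ∀ S, S ≤ n ^ c →
        ¬ Refutes (fun j => {x | Holds (d n) (Φ n j) x}) e D f S := by
  obtain ⟨K, hK1, hK2, hK3⟩ := diag (fun K n => ∃ (n' r : ℕ) (Φ : Fin r → Fm n' (K + 1 + 1)), n' ≤ n ∧ r ≤ n ^ a ∧
      (∀ j, leaves (K + 1 + 1) (Φ j) ≤ n) ∧ (∀ x, ∃ j, ¬ Holds (K + 1 + 1) (Φ j) x) ∧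
      ∀ S, S ≤ n ^ (K + 1) → ¬ Refutes (fun j => {x | Holds (K + 1 + 1) (Φ j) x}) (K + 1) (K + 1 + 1) (K + 1) S)
    (fun K => hmain (K + 1) (by omega)) (fun n => g n - 2) (by
      rw [Filter.tendsto_atTop]
      intro k
      filter_upwards [hg.eventually_ge_atTop (k + 2)] with n hn
      omega)
  have hex : ∀ n, ∃ (n' r : ℕ) (Φ : Fin r → Fm n' (K n + 1 + 1)),
      (∃ (n' r : ℕ) (Φ : Fin r → Fm n' (K n + 1 + 1)), n' ≤ n ∧ r ≤ n ^ a ∧
        (∀ j, leaves (K n + 1 + 1) (Φ j) ≤ n) ∧ (∀ x, ∃ j, ¬ Holds (K n + 1 + 1) (Φ j) x) ∧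
        ∀ S, S ≤ n ^ (K n + 1) → ¬ Refutes (fun j => {x | Holds (K n + 1 + 1) (Φ j) x}) (K n + 1) (K n + 1 + 1) (K n + 1) S) →
      n' ≤ n ∧ r ≤ n ^ a ∧
        (∀ j, leaves (K n + 1 + 1) (Φ j) ≤ n) ∧ (∀ x, ∃ j, ¬ Holds (K n + 1 + 1) (Φ j) x) ∧
        ∀ S, S ≤ n ^ (K n + 1) → ¬ Refutes (fun j => {x | Holds (K n + 1 + 1) (Φ j) x}) (K n + 1) (K n + 1 + 1) (K n + 1) S := by
    intro n
    by_cases h1 : (∃ (n' r : ℕ) (Φ : Fin r → Fm n' (K n + 1 + 1)), n' ≤ n ∧ r ≤ n ^ a ∧
        (∀ j, leaves (K n + 1 + 1) (Φ j) ≤ n) ∧ (∀ x, ∃ j, ¬ Holds (K n + 1 + 1) (Φ j) x) ∧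
        ∀ S, S ≤ n ^ (K n + 1) → ¬ Refutes (fun j => {x | Holds (K n + 1 + 1) (Φ j) x}) (K n + 1) (K n + 1 + 1) (K n + 1) S)
    · obtain ⟨n', r, Φ, h2⟩ := h1
      exact ⟨n', r, Φ, fun _ => h2⟩
    · exact ⟨0, 0, Fin.elim0, fun h2 => absurd h2 h1⟩
  choose nv r Φ hΦ using hex
  refine ⟨fun n => K n + 1 + 1, nv, r, Φ, ?_, ?_⟩
  · filter_upwards [hK3, hg.eventually_ge_atTop 2] with n h1 h2
    have h3 := hΦ n h1
    have h4 := hK2 n
    exact ⟨by omega, h3.1, h3.2.1, h3.2.2.1, h3.2.2.2.1⟩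
  · intro e D f c
    filter_upwards [hK3, hK1.eventually_ge_atTop (e + D + f + c), Filter.eventually_ge_atTop 1] with n h1 h2 h3 S hS href
    have h4 := hΦ n h1
    refine h4.2.2.2.2 S (hS.trans (Nat.pow_le_pow_right h3 (by omega))) ?_
    exact Refutes.mono_all (by omega) (by omega) (by omega) (by omega) le_rfl href

end H98DH

end S_H98_DH_Seq

section S_H98_DH_Upp

set_option autoImplicit false
open scoped Classical

namespace H98DH

open H96RE H91RE

/-- a finite set of gates with levels, closed downwards -/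
def GOK {n : ℕ} (e D : ℕ) (W : Finset (ℕ × Fn n)) : Prop :=
  ∀ p ∈ W, 1 ≤ p.1 ∧ p.1 ≤ D ∧ ∃ H : Set (Fn n),
    (∀ h ∈ H, h ∈ Pol n e ⊔ Submodule.span (ZMod 2) {F | ∃ l, (l, F) ∈ W ∧ l < p.1}) ∧ ∀ x, p.2 x = 1 ↔ ∃ h ∈ H, h x = 1

theorem span_le' {n e : ℕ} {W W' : Finset (ℕ × Fn n)} {a b : ℕ} (h : W ⊆ W') (hab : a ≤ b) :
    Pol n e ⊔ Submodule.span (ZMod 2) {F | ∃ l, (l, F) ∈ W ∧ l < a} ≤
      Pol n e ⊔ Submodule.span (ZMod 2) {F | ∃ l, (l, F) ∈ W' ∧ l < b} := by
  refine sup_le_sup le_rfl (Submodule.span_mono ?_)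
  rintro F ⟨l, h1, h2⟩
  exact ⟨l, h h1, h2.trans_le hab⟩

theorem GOK.union {n e D : ℕ} {W W' : Finset (ℕ × Fn n)} (h : GOK e D W) (h' : GOK e D W') : GOK e D (W ∪ W') := by
  intro p hp
  rcases Finset.mem_union.mp hp with h1 | h1
  · obtain ⟨h2, h3, H, hH1, hH2⟩ := h p h1
    exact ⟨h2, h3, H, fun k hk => span_le' Finset.subset_union_left le_rfl (hH1 k hk), hH2⟩
  · obtain ⟨h2, h3, H, hH1, hH2⟩ := h' p h1
    exact ⟨h2, h3, H, fun k hk => span_le' Finset.subset_union_right le_rfl (hH1 k hk), hH2⟩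

theorem GOK.mono {n e D D' : ℕ} {W : Finset (ℕ × Fn n)} (hD : D ≤ D') (h : GOK e D W) : GOK e D' W := by
  intro p hp
  obtain ⟨h2, h3, h4⟩ := h p hp
  exact ⟨h2, h3.trans hD, h4⟩

theorem GOK.insert {n e D : ℕ} {W : Finset (ℕ × Fn n)} (h : GOK e D W) (l : ℕ) (F : Fn n) (hl : 1 ≤ l) (hlD : l ≤ D)
    (H : Set (Fn n)) (hH1 : ∀ h ∈ H, h ∈ Pol n e ⊔ Submodule.span (ZMod 2) {F | ∃ l', (l', F) ∈ W ∧ l' < l})
    (hH2 : ∀ x, F x = 1 ↔ ∃ h ∈ H, h x = 1) : GOK e D (insert (l, F) W) := by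
  intro p hp
  rcases Finset.mem_insert.mp hp with h1 | h1
  · subst h1
    exact ⟨hl, hlD, H, fun k hk => span_le' (Finset.subset_insert _ _) le_rfl (hH1 k hk), hH2⟩
  · obtain ⟨h2, h3, H', hH1', hH2'⟩ := h p h1
    exact ⟨h2, h3, H', fun k hk => span_le' (Finset.subset_insert _ _) le_rfl (hH1' k hk), hH2'⟩

theorem indic_one {n : ℕ} (A : Set (Fin n → ZMod 2)) (x : Fin n → ZMod 2) : indic A x = 1 ↔ x ∈ A := by
  unfold indic
  by_cases h : x ∈ A
  · rw [if_pos h]
    exact ⟨fun _ => h, fun _ => rfl⟩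
  · rw [if_neg h]
    exact ⟨fun h1 => absurd h1 zero_ne_one, fun h1 => absurd h1 h⟩

/-- the indicator function of the truth of a formula -/
noncomputable def tv {n : ℕ} (k : ℕ) (φ : Fm n k) : Fn n := indic {x | Holds k φ x}

theorem tv_one {n k : ℕ} (φ : Fm n k) (x : Fin n → ZMod 2) : tv k φ x = 1 ↔ Holds k φ x :=
  indic_one _ x

theorem tv_zero {n k : ℕ} (φ : Fm n k) (x : Fin n → ZMod 2) : 1 + tv k φ x = 1 ↔ ¬ Holds k φ x := by
  rw [← tv_one]
  generalize tv k φ x = u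
  revert u
  decide

theorem lit_pol {n : ℕ} (i : Fin n) (b : ZMod 2) : (tv 0 (show Fm n 0 from (i, b)) : Fn n) ∈ Pol n 1 := by
  have h1 : (tv 0 (show Fm n 0 from (i, b)) : Fn n) = mono {i} + fun _ => 1 + b := by
    funext x
    have h2 : tv 0 (show Fm n 0 from (i, b)) x = if x i = b then 1 else 0 := by
      by_cases h : x i = b
      · rw [if_pos h]
        exact (tv_one _ x).mpr h
      · rw [if_neg h]
        have h3 : ¬ tv 0 (show Fm n 0 from (i, b)) x = 1 := fun h4 => h ((tv_one _ x).mp h4)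
        revert h3
        generalize tv 0 (show Fm n 0 from (i, b)) x = u
        revert u
        decide
    rw [h2, Pi.add_apply]
    unfold mono
    rw [Finset.prod_singleton]
    clear h2
    generalize x i = u
    revert u b
    decide
  rw [h1]
  exact Submodule.add_mem _ (Submodule.subset_span ⟨{i}, by simp, rfl⟩) (const_mem _)

/-- a formula without leaves is constant -/
theorem const_of_leaves {n : ℕ} : ∀ (k : ℕ) (φ : Fm n k), leaves k φ = 0 → ∀ x y, Holds k φ x ↔ Holds k φ y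
  | 0, _, h, _, _ => absurd h one_ne_zero
  | k + 1, φ, h, x, y => by
    have h1 : ((show List (Fm n k) from φ).map (leaves k)).sum = 0 := h
    show (¬ ∀ ψ ∈ (show List (Fm n k) from φ), Holds k ψ x) ↔ (¬ ∀ ψ ∈ (show List (Fm n k) from φ), Holds k ψ y)
    rw [List.sum_eq_zero_iff] at h1
    have h2 : ∀ ψ ∈ (show List (Fm n k) from φ), leaves k ψ = 0 := fun ψ hψ => h1 _ (List.mem_map_of_mem hψ)
    refine not_congr (forall₂_congr fun ψ hψ => const_of_leaves k ψ (h2 ψ hψ) x y)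

/-- all formulas of a list of formulas of depth `k` can be computed -/
theorem gates_of {n : ℕ} : ∀ (k : ℕ) (φ : Fm n k), ∃ W : Finset (ℕ × Fn n), GOK 1 k W ∧ W.card ≤ k * leaves k φ ∧
    tv k φ ∈ Pol n 1 ⊔ Submodule.span (ZMod 2) {F | ∃ l, (l, F) ∈ W ∧ l < k + 1}
  | 0, φ => ⟨∅, fun p hp => absurd hp (Finset.notMem_empty p), by simp, Submodule.mem_sup_left (lit_pol φ.1 φ.2)⟩
  | k + 1, φ => by
    by_cases h0 : leaves (k + 1) φ = 0
    · refine ⟨∅, fun p hp => absurd hp (Finset.notMem_empty p), by simp, Submodule.mem_sup_left ?_⟩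
      have h1 : (tv (k + 1) φ : Fn n) = fun _ => tv (k + 1) φ 0 := by
        funext x
        have h2 := const_of_leaves (k + 1) φ h0 x 0
        have h3 := tv_one φ x
        have h4 := tv_one φ 0
        have h5 : tv (k + 1) φ x = 1 ↔ tv (k + 1) φ 0 = 1 := h3.trans (h2.trans h4.symm)
        revert h5
        generalize tv (k + 1) φ x = u
        generalize tv (k + 1) φ 0 = v
        revert u v
        decide
      rw [h1]
      exact const_mem _
    · have hlist : ∀ l : List (Fm n k), ∃ W : Finset (ℕ × Fn n), GOK 1 k W ∧ W.card ≤ k * (l.map (leaves k)).sum ∧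
          ∀ ψ ∈ l, tv k ψ ∈ Pol n 1 ⊔ Submodule.span (ZMod 2) {F | ∃ i, (i, F) ∈ W ∧ i < k + 1} := by
        intro l
        induction l with
        | nil => exact ⟨∅, fun p hp => absurd hp (Finset.notMem_empty p), by simp, fun ψ hψ => absurd hψ List.not_mem_nil⟩
        | cons ψ l ih =>
          obtain ⟨W, hW1, hW2, hW3⟩ := ih
          obtain ⟨W', hW1', hW2', hW3'⟩ := gates_of k ψ
          refine ⟨W' ∪ W, hW1'.union hW1, ?_, ?_⟩
          · refine (Finset.card_union_le _ _).trans ?_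
            rw [List.map_cons, List.sum_cons, Nat.mul_add]
            exact Nat.add_le_add hW2' hW2
          · intro χ hχ
            rcases List.mem_cons.mp hχ with rfl | hχ
            · exact span_le' Finset.subset_union_left le_rfl hW3'
            · exact span_le' Finset.subset_union_right le_rfl (hW3 χ hχ)
      obtain ⟨W, hW1, hW2, hW3⟩ := hlist (show List (Fm n k) from φ)
      refine ⟨insert (k + 1, tv (k + 1) φ) W, ?_, ?_, ?_⟩
      · refine (hW1.mono (Nat.le_succ k)).insert (k + 1) _ (by omega) le_rfl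
          {h | ∃ ψ ∈ (show List (Fm n k) from φ), h = fun x => 1 + tv k ψ x} ?_ ?_
        · rintro _ ⟨ψ, hψ, rfl⟩
          exact Submodule.add_mem _ (Submodule.mem_sup_left (const_mem 1)) (hW3 ψ hψ)
        · intro x
          rw [tv_one]
          show (¬ ∀ ψ ∈ (show List (Fm n k) from φ), Holds k ψ x) ↔ _
          constructor
          · intro h1
            push Not at h1
            obtain ⟨ψ, hψ, h2⟩ := h1
            exact ⟨_, ⟨ψ, hψ, rfl⟩, (tv_zero ψ x).mpr h2⟩
          · rintro ⟨_, ⟨ψ, hψ, rfl⟩, h2⟩ h3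
            exact (tv_zero ψ x).mp h2 (h3 ψ hψ)
      · refine (Finset.card_insert_le _ _).trans ?_
        have h1 : leaves (k + 1) φ = ((show List (Fm n k) from φ).map (leaves k)).sum := rfl
        rw [← h1] at hW2
        have h2 : (k + 1) * leaves (k + 1) φ = k * leaves (k + 1) φ + leaves (k + 1) φ := by ring
        omega
      · refine Submodule.mem_sup_right (Submodule.subset_span ⟨k + 1, Finset.mem_insert_self _ _, by omega⟩)

/-- a closed set of gates gives a circuit -/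
theorem circ_of {n e D : ℕ} {W : Finset (ℕ × Fn n)} (h : GOK e D W) :
    ∃ c : Circ n e D W.card, ∀ a, Pol n e ⊔ Submodule.span (ZMod 2) {F | ∃ l, (l, F) ∈ W ∧ l < a} ≤
      Par e c.G {g | g < W.card} := by
  let E := W.equivFin
  obtain ⟨v, hv⟩ : ∃ v : ℕ → ℕ × Fn n, ∀ g (hg : g < W.card), v g = (E.symm ⟨g, hg⟩ : ℕ × Fn n) :=
    ⟨fun g => if hg : g < W.card then (E.symm ⟨g, hg⟩ : ℕ × Fn n) else (0, 0), fun g hg => by simp only [dif_pos hg]⟩
  have hvW : ∀ g, g < W.card → v g ∈ W := by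
    intro g hg
    rw [hv g hg]
    exact (E.symm ⟨g, hg⟩).2
  have hex : ∀ p ∈ W, ∃ g, g < W.card ∧ v g = p := by
    intro p hp
    refine ⟨(E ⟨p, hp⟩ : ℕ), (E ⟨p, hp⟩).2, ?_⟩
    rw [hv _ (E ⟨p, hp⟩).2]
    show ((E.symm (E ⟨p, hp⟩)) : ℕ × Fn n) = p
    rw [Equiv.symm_apply_apply]
  let c : Circ n e D W.card :=
    { lev := fun g => (v g).1
      G := fun g => (v g).2
      pos := fun g hg => (h _ (hvW g hg)).1
      le := fun g hg => (h _ (hvW g hg)).2.1
      or := fun g hg => by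
        obtain ⟨H, hH1, hH2⟩ := (h _ (hvW g hg)).2.2
        refine ⟨H, fun k hk => ?_, hH2⟩
        refine (sup_le_sup le_rfl (Submodule.span_mono ?_) : Pol n e ⊔ _ ≤ _) (hH1 k hk)
        rintro F ⟨l, h1, h2⟩
        obtain ⟨g', hg', hvg⟩ := hex _ h1
        exact ⟨g', ⟨hg', by rw [hvg]; exact h2⟩, by show (v g').2 = F; rw [hvg]⟩ }
  refine ⟨c, fun a => ?_⟩
  refine sup_le_sup le_rfl (Submodule.span_mono ?_)
  rintro F ⟨l, h1, -⟩
  obtain ⟨g', hg', hvg⟩ := hex _ h1
  exact ⟨g', hg', by show (v g').2 = F; rw [hvg]⟩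

theorem upper {n K r N : ℕ} (Φ : Fin r → Fm n (K + 1)) (hN : ∀ j, leaves (K + 1) (Φ j) ≤ N)
    (hun : ∀ x, ∃ j, ¬ Holds (K + 1) (Φ j) x) :
    Refutes (fun j => {x | Holds (K + 1) (Φ j) x}) 1 (K + 2) 2 (r * ((K + 1) * N + 1)) := by
  -- all gates of the constraints
  choose W hW1 hW2 hW3 using fun j => gates_of (K + 1) (Φ j)
  obtain ⟨W1, hW1d⟩ : ∃ W1 : Finset (ℕ × Fn n), W1 = Finset.univ.biUnion W := ⟨_, rfl⟩
  have hsubW : ∀ j, W j ⊆ W1 := fun j => by
    rw [hW1d]
    exact Finset.subset_biUnion_of_mem W (Finset.mem_univ j)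
  have hok1 : GOK 1 (K + 1) W1 := by
    intro p hp
    rw [hW1d] at hp
    obtain ⟨j, -, hj⟩ := Finset.mem_biUnion.mp hp
    obtain ⟨h2, h3, H, hH1, hH2⟩ := hW1 j p hj
    exact ⟨h2, h3, H, fun k hk => span_le' (hsubW j) le_rfl (hH1 k hk), hH2⟩
  have hcard1 : W1.card ≤ r * ((K + 1) * N) := by
    rw [hW1d]
    refine Finset.card_biUnion_le.trans ?_
    refine (Finset.sum_le_card_nsmul _ _ ((K + 1) * N) fun j _ => (hW2 j).trans (Nat.mul_le_mul_left _ (hN j))).trans ?_
    rw [Finset.card_univ, Fintype.card_fin, smul_eq_mul]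
  -- conjunctions
  obtain ⟨A, hA⟩ : ∃ A : ℕ → Fn n, ∀ i x, A i x = 1 ↔ ∃ j : Fin r, (j : ℕ) ≤ i ∧ ¬ Holds (K + 1) (Φ j) x :=
    ⟨fun i => indic {x | ∃ j : Fin r, (j : ℕ) ≤ i ∧ ¬ Holds (K + 1) (Φ j) x}, fun i x => indic_one _ x⟩
  have hok2 : ∀ R : ℕ, GOK 1 (K + 2) (W1 ∪ (Finset.range R).image (fun i => (K + 2, A i))) := by
    intro R
    induction R with
    | zero =>
      simp only [Finset.range_zero, Finset.image_empty, Finset.union_empty]
      exact hok1.mono (by omega)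
    | succ R ih =>
      rw [Finset.range_add_one, Finset.image_insert, Finset.union_insert]
      refine ih.insert (K + 2) (A R) (by omega) le_rfl {h | ∃ j : Fin r, (j : ℕ) ≤ R ∧ h = fun x => 1 + tv (K + 1) (Φ j) x} ?_ ?_
      · rintro _ ⟨j, -, rfl⟩
        refine Submodule.add_mem _ (Submodule.mem_sup_left (const_mem 1)) ?_
        exact span_le' ((hsubW j).trans Finset.subset_union_left) le_rfl (hW3 j)
      · intro x
        rw [hA]
        constructor
        · rintro ⟨j, hj, h1⟩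
          exact ⟨_, ⟨j, hj, rfl⟩, (tv_zero (Φ j) x).mpr h1⟩
        · rintro ⟨_, ⟨j, hj, rfl⟩, h1⟩
          exact ⟨j, hj, (tv_zero (Φ j) x).mp h1⟩
  obtain ⟨c, hc⟩ := circ_of (hok2 r)
  have hcard2 : (W1 ∪ (Finset.range r).image (fun i => (K + 2, A i))).card ≤ r * ((K + 1) * N + 1) := by
    refine (Finset.card_union_le _ _).trans ?_
    have h1 := (Finset.card_image_le (s := Finset.range r) (f := fun i => (K + 2, A i)))
    rw [Finset.card_range] at h1
    have h2 : r * ((K + 1) * N + 1) = r * ((K + 1) * N) + r := by ring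
    omega
  refine Refutes.mono (by omega) hcard2 ?_
  have hr : 0 < r := by
    obtain ⟨j, -⟩ := hun 0
    exact lt_of_le_of_lt (Nat.zero_le _) j.2
  -- lines: `2 i` is the constraint `i`, `2 i + 1` the conjunction of the first `i + 1` constraints
  obtain ⟨F, hF0, hF1⟩ : ∃ F : ℕ → Fn n, (∀ i (hi : i < r), F (2 * i) = tv (K + 1) (Φ ⟨i, hi⟩)) ∧
      ∀ i, F (2 * i + 1) = fun x => 1 + A i x := by
    refine ⟨fun k => if k % 2 = 0 then (if hk : k / 2 < r then tv (K + 1) (Φ ⟨k / 2, hk⟩) else 0) else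
      fun x => 1 + A (k / 2) x, fun i hi => ?_, fun i => ?_⟩
    · have h1 : 2 * i % 2 = 0 := by omega
      have h2 : 2 * i / 2 = i := by omega
      simp only [h1, h2, if_true, dif_pos hi]
    · have h1 : (2 * i + 1) % 2 ≠ 0 := by omega
      have h2 : (2 * i + 1) / 2 = i := by omega
      simp only [if_neg h1, h2]
  have hA0 : ∀ i x, 1 + A i x = 1 ↔ ∀ j : Fin r, (j : ℕ) ≤ i → Holds (K + 1) (Φ j) x := by
    intro i x
    have h1 := hA i x
    constructor
    · intro h2 j hj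
      by_contra h3
      have h4 := h1.mpr ⟨j, hj, h3⟩
      rw [h4] at h2
      revert h2
      decide
    · intro h2
      have h3 : ¬ A i x = 1 := by
        intro h4
        obtain ⟨j, hj, h5⟩ := h1.mp h4
        exact h5 (h2 j hj)
      revert h3
      generalize A i x = u
      revert u
      decide
  refine ⟨c, 2 * r, F, ?_, ?_, 2 * (r - 1) + 1, by omega, ?_⟩
  · intro k hk
    rcases Nat.even_or_odd' k with ⟨i, rfl | rfl⟩
    · rw [hF0 i (by omega)]
      exact hc (K + 2) (span_le' ((hsubW _).trans Finset.subset_union_left) le_rfl (hW3 _))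
    · rw [hF1 i]
      refine Submodule.add_mem _ (Submodule.mem_sup_left (const_mem 1)) ?_
      refine hc (K + 3) (Submodule.mem_sup_right (Submodule.subset_span ⟨K + 2, ?_, by omega⟩))
      exact Finset.mem_union_right _ (Finset.mem_image.mpr ⟨i, Finset.mem_range.mpr (by omega), rfl⟩)
  · intro k hk
    rcases Nat.even_or_odd' k with ⟨i, rfl | rfl⟩
    · refine Or.inl ⟨⟨i, by omega⟩, fun x hx => ?_⟩
      rw [hF0 i (by omega)]
      exact (tv_one _ x).mpr hx
    · rcases Nat.eq_zero_or_pos i with rfl | hi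
      · refine Or.inr ⟨{0}, by rw [Finset.card_singleton]; omega, ?_, fun x hx => ?_⟩
        · intro l hl
          rw [Finset.mem_singleton] at hl
          omega
        · have h1 := hx 0 (Finset.mem_singleton_self _)
          have h2 := hF0 0 hr
          rw [Nat.mul_zero] at h2
          rw [h2, tv_one] at h1
          rw [hF1 0]
          refine (hA0 0 x).mpr fun j hj => ?_
          have h3 : j = ⟨0, hr⟩ := Fin.ext (by simpa using hj)
          rw [h3]
          exact h1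
      · refine Or.inr ⟨{2 * i, 2 * (i - 1) + 1}, Finset.card_le_two, ?_, fun x hx => ?_⟩
        · intro l hl
          rw [Finset.mem_insert, Finset.mem_singleton] at hl
          omega
        · have h1 := hx (2 * i) (by simp)
          have h2 := hx (2 * (i - 1) + 1) (by simp)
          rw [hF0 i (by omega), tv_one] at h1
          rw [hF1 (i - 1)] at h2
          have h3 := (hA0 (i - 1) x).mp h2
          rw [hF1 i]
          refine (hA0 i x).mpr fun j hj => ?_
          rcases Nat.lt_or_ge (j : ℕ) i with h4 | h4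
          · exact h3 j (by omega)
          · have h5 : j = ⟨i, by omega⟩ := Fin.ext (by simp; omega)
            rw [h5]
            exact h1
  · intro x
    rw [hF1]
    obtain ⟨j, hj⟩ := hun x
    have h1 := (hA (r - 1) x).mpr ⟨j, by have := j.2; omega, hj⟩
    show 1 + A (r - 1) x = 0
    rw [h1]
    decide

end H98DH

end S_H98_DH_Upp

section S_H98_DH_F2

set_option autoImplicit false
open scoped Classical

namespace H98DH

open Filter

/-- eventual conditions -/
theorem f2_ev (D : ℕ) (K : ℝ) : ∀ᶠ N : ℕ in atTop, 10 ^ 6 * K ≤ Real.log N ∧ 10 ≤ Real.log N ∧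
    2 * Real.log N ^ D ≤ (N : ℝ) ^ (1 / 8 : ℝ) ∧ 2 * Real.log N ^ D ≤ (N : ℝ) ^ (1 / 4 : ℝ) ∧ 10 ≤ N ∧ D + 1 ≤ N := by
  have hlog : Tendsto (fun N : ℕ => Real.log N) atTop atTop :=
    Real.tendsto_log_atTop.comp tendsto_natCast_atTop_atTop
  have h1 : ∀ᶠ N : ℕ in atTop, 10 ^ 6 * K ≤ Real.log N := hlog.eventually_ge_atTop _
  have h2 : ∀ᶠ N : ℕ in atTop, (10 : ℝ) ≤ Real.log N := hlog.eventually_ge_atTop _
  have key : ∀ s : ℝ, 0 < s → ∀ᶠ N : ℕ in atTop, 2 * Real.log N ^ D ≤ (N : ℝ) ^ s := by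
    intro s hs
    have h := (isLittleO_log_rpow_rpow_atTop (D : ℝ) hs).bound (show (0 : ℝ) < 1 / 2 by norm_num)
    have h' := tendsto_natCast_atTop_atTop.eventually h
    filter_upwards [h', h2] with N hN hL
    rw [Real.rpow_natCast, Real.norm_of_nonneg (by positivity), Real.norm_of_nonneg (by positivity)] at hN
    linarith
  filter_upwards [h1, h2, key (1 / 8) (by norm_num), key (1 / 4) (by norm_num), eventually_ge_atTop 10,
    eventually_ge_atTop (D + 1)] with N a b c d e f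
  exact ⟨a, b, c, d, e, f⟩

theorem form2 (h : MasterSt) (D : ℕ) (hD : 2 ≤ D) : ∃ c : ℝ, 0 < c ∧ ∃ N0 : ℕ, ∀ N : ℕ, N0 ≤ N →
    ∃ (n r : ℕ) (Φ : Fin r → Fm n D), n ≤ N ∧ r ≤ N ^ 7 ∧ (∀ j, leaves D (Φ j) ≤ N) ∧
      (∀ x, ∃ j, ¬ Holds D (Φ j) x) ∧
      Refutes (fun j => {x | Holds D (Φ j) x}) 1 (D + 1) 2 (N ^ 9) ∧
      ∀ e f S : ℕ, 1 ≤ e → (e : ℝ) ≤ c * Real.log N → (f : ℝ) ≤ (N : ℝ) ^ (1 / 8 : ℝ) →
        Refutes (fun j => {x | Holds D (Φ j) x}) e D f S →
        Real.exp (c * (Real.log N ^ D / e) ^ (1 / ((D : ℝ) - 1))) ≤ S := by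
  obtain ⟨K, rfl⟩ : ∃ K, D = K + 1 := ⟨D - 1, by omega⟩
  have hK : 1 ≤ K := by omega
  have hK' : (1 : ℝ) ≤ K := by exact_mod_cast hK
  set M0 : ℝ := 8 * (8000 * (K : ℝ)) ^ K with hM0
  have hM1 : 1 ≤ M0 := by
    have : (1 : ℝ) ≤ (8000 * (K : ℝ)) ^ K := one_le_pow₀ (by linarith)
    rw [hM0]
    linarith
  have h20 : (1 : ℝ) ≤ 20 ^ K := one_le_pow₀ (by norm_num)
  have h20' : (20 : ℝ) ≤ 20 ^ K := by
    calc (20 : ℝ) = 20 ^ 1 := by norm_num
      _ ≤ 20 ^ K := pow_le_pow_right₀ (by norm_num) hK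
  set c : ℝ := 1 / (M0 * 20 ^ K) with hc
  have hcp : 0 < c := by positivity
  refine ⟨c, hcp, ?_⟩
  obtain ⟨N0, hN0⟩ := eventually_atTop.mp (f2_ev (K + 1) (K : ℝ))
  refine ⟨N0, fun N hN => ?_⟩
  obtain ⟨e1, e2, e3, e4, e5, e6⟩ := hN0 N hN
  obtain ⟨n, r, Φ, hn, hr, hl, hun, hmain⟩ := h K N hK e1
  refine ⟨n, r, Φ, hn, hr, hl, hun, ?_, ?_⟩
  · -- upper bound
    refine Refutes.mono (by omega) ?_ (upper Φ hl hun)
    have h1 : (K + 1) * N + 1 ≤ N ^ 2 := by nlinarith
    calc r * ((K + 1) * N + 1) ≤ N ^ 7 * N ^ 2 := Nat.mul_le_mul hr h1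
      _ = N ^ 9 := by ring
  · intro e f S he hec hf href
    set L := Real.log N with hL
    have he' : (1 : ℝ) ≤ e := by exact_mod_cast he
    have hLp : 0 < L := by linarith
    have hKp : (0 : ℝ) < K := by linarith
    have hDK : ((K + 1 : ℕ) : ℝ) - 1 = K := by push_cast; ring
    rw [hDK]
    set z : ℝ := (L ^ (K + 1) / e) ^ (1 / (K : ℝ)) with hz
    have hzp : 0 < z := by positivity
    have hzK : z ^ K = L ^ (K + 1) / e := by
      rw [hz, ← Real.rpow_natCast, ← Real.rpow_mul (by positivity), one_div, inv_mul_cancel₀ hKp.ne', Real.rpow_one]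
    set y : ℝ := (1 / M0) ^ (1 / (K : ℝ)) * z with hy
    have hyp : 0 < y := by positivity
    have hyK : y ^ K = L ^ (K + 1) / (e * M0) := by
      rw [hy, mul_pow, hzK, ← Real.rpow_natCast ((1 / M0) ^ (1 / (K : ℝ))), ← Real.rpow_mul (by positivity), one_div (K : ℝ),
        inv_mul_cancel₀ hKp.ne', Real.rpow_one]
      field_simp
    -- `20 L ≤ y`
    have hy20 : 20 * L ≤ y := by
      have h1 : (20 * L) ^ K ≤ y ^ K := by
        rw [hyK, mul_pow, le_div_iff₀ (by positivity)]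
        have h2 : (e : ℝ) * M0 * 20 ^ K ≤ L := by
          have h3 : (e : ℝ) * (M0 * 20 ^ K) ≤ c * L * (M0 * 20 ^ K) :=
            mul_le_mul_of_nonneg_right hec (by positivity)
          have h4 : c * L * (M0 * 20 ^ K) = L := by
            rw [hc]
            field_simp
          nlinarith
        calc 20 ^ K * L ^ K * (e * M0) = (e * M0 * 20 ^ K) * L ^ K := by ring
          _ ≤ L * L ^ K := mul_le_mul_of_nonneg_right h2 (by positivity)
          _ = L ^ (K + 1) := by ring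
      exact le_of_pow_le_pow_left₀ (by omega) hyp.le h1
    have hzy : z ≤ M0 * y := by
      have h1 : (1 : ℝ) / M0 ≤ (1 / M0) ^ (1 / (K : ℝ)) := by
        have h2 : (1 / M0 : ℝ) ^ (1 : ℝ) ≤ (1 / M0) ^ (1 / (K : ℝ)) := by
          apply Real.rpow_le_rpow_of_exponent_ge (by positivity)
          · rw [div_le_one (by positivity)]
            exact hM1
          · rw [div_le_one hKp]
            exact hK'
        rwa [Real.rpow_one] at h2
      rw [hy]
      calc z = M0 * (1 / M0 * z) := by field_simp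
        _ ≤ M0 * ((1 / M0) ^ (1 / (K : ℝ)) * z) := by
          apply mul_le_mul_of_nonneg_left _ (by positivity)
          exact mul_le_mul_of_nonneg_right h1 hzp.le
    have hw1 : ((⌊y⌋₊ : ℕ) : ℝ) ≤ y := Nat.floor_le hyp.le
    have hw2 : y - 1 < ((⌊y⌋₊ : ℕ) : ℝ) := by
      have := Nat.lt_floor_add_one y
      linarith
    have hwK : (e : ℝ) * ((⌊y⌋₊ : ℕ) : ℝ) ^ K * M0 ≤ L ^ (K + 1) := by
      have h1 : ((⌊y⌋₊ : ℕ) : ℝ) ^ K ≤ y ^ K := pow_le_pow_left₀ (Nat.cast_nonneg _) hw1 _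
      calc (e : ℝ) * ((⌊y⌋₊ : ℕ) : ℝ) ^ K * M0 ≤ e * y ^ K * M0 := by gcongr
        _ = L ^ (K + 1) := by
          rw [hyK]
          field_simp
    have hwK' : (e : ℝ) * ((⌊y⌋₊ : ℕ) : ℝ) ^ K ≤ L ^ (K + 1) := by
      have : (0 : ℝ) ≤ (e : ℝ) * ((⌊y⌋₊ : ℕ) : ℝ) ^ K := by positivity
      nlinarith
    have hN1 : (1 : ℝ) ≤ (N : ℝ) ^ (1 / 8 : ℝ) := by
      have : (1 : ℝ) ≤ L ^ (K + 1) := one_le_pow₀ (by linarith)
      linarith
    have hmm := hmain (K + 1) e f S ⌊y⌋₊ (by omega) he (by linarith) (by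
        rw [Nat.add_sub_cancel]
        calc 8 * (e : ℝ) * ((⌊y⌋₊ : ℕ) : ℝ) ^ K * (8000 * (K : ℝ)) ^ K = e * ((⌊y⌋₊ : ℕ) : ℝ) ^ K * M0 := by
              rw [hM0]; ring
          _ ≤ _ := hwK) (by
        rw [Nat.add_sub_cancel]
        have h1 : ((f : ℝ) + 1) ≤ 2 * (N : ℝ) ^ (1 / 8 : ℝ) := by linarith
        have h2 : (N : ℝ) ^ (1 / 8 : ℝ) * (N : ℝ) ^ (1 / 8 : ℝ) = (N : ℝ) ^ (1 / 4 : ℝ) := by
          rw [← Real.rpow_add (by positivity)]
          norm_num
        calc ((f : ℝ) + 1) * e * ((⌊y⌋₊ : ℕ) : ℝ) ^ K = ((f : ℝ) + 1) * (e * ((⌊y⌋₊ : ℕ) : ℝ) ^ K) := by ring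
          _ ≤ (2 * (N : ℝ) ^ (1 / 8 : ℝ)) * (L ^ (K + 1)) := by gcongr
          _ = (N : ℝ) ^ (1 / 8 : ℝ) * (2 * L ^ (K + 1)) := by ring
          _ ≤ (N : ℝ) ^ (1 / 8 : ℝ) * (N : ℝ) ^ (1 / 8 : ℝ) := by gcongr
          _ = _ := h2) href
    -- the minimum
    have hlog1 : (0.45 : ℝ) ≤ Real.log (8 / 5) := by
      rw [Real.le_log_iff_exp_le (by norm_num)]
      have h := Real.exp_one_lt_d9
      have h7 : Real.exp (0.45 : ℝ) ^ 20 = Real.exp 1 ^ 9 := by
        rw [← Real.exp_nat_mul, ← Real.exp_nat_mul]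
        norm_num
      have h8 : Real.exp 1 ^ 9 ≤ (2.7182818286 : ℝ) ^ 9 := pow_le_pow_left₀ (Real.exp_pos _).le h.le _
      have h9 : (2.7182818286 : ℝ) ^ 9 ≤ (8 / 5 : ℝ) ^ 20 := by norm_num
      exact le_of_pow_le_pow_left₀ (n := 20) (by norm_num) (by norm_num) (by rw [h7]; exact h8.trans h9)
    have hlog2 : Real.log (8 / 5) ≤ 1 := by
      have := Real.log_le_sub_one_of_pos (show (0 : ℝ) < 8 / 5 by norm_num)
      linarith
    have hw8 : ((8 : ℝ) / 5) ^ ⌊y⌋₊ = Real.exp (⌊y⌋₊ * Real.log (8 / 5)) := by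
      rw [mul_comm, Real.exp_mul, Real.exp_log (by norm_num), Real.rpow_natCast]
    have hyL : y ≤ L ^ (K + 1) := by
      have h1 : y ^ K ≤ (L ^ (K + 1)) ^ K := by
        rw [hyK]
        have h3 : L ^ (K + 1) / (e * M0) ≤ L ^ (K + 1) := div_le_self (by positivity) (by nlinarith)
        have h4 : (1 : ℝ) ≤ L ^ (K + 1) := one_le_pow₀ (by linarith)
        calc L ^ (K + 1) / (e * M0) ≤ (L ^ (K + 1)) ^ 1 := by rw [pow_one]; exact h3
          _ ≤ (L ^ (K + 1)) ^ K := pow_le_pow_right₀ h4 hK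
      exact le_of_pow_le_pow_left₀ (by omega) (by positivity) h1
    have hmin : ((8 : ℝ) / 5) ^ ⌊y⌋₊ ≤ Real.exp ((N : ℝ) ^ (1 / 4 : ℝ) / 2) := by
      rw [hw8]
      apply Real.exp_le_exp.mpr
      have h1 : (⌊y⌋₊ : ℝ) * Real.log (8 / 5) ≤ y * 1 := by gcongr
      linarith
    rw [min_eq_left hmin, hw8] at hmm
    have hN0' : (0 : ℝ) < N := by
      have : 0 < N := by omega
      exact_mod_cast this
    have hNe : (N : ℝ) = Real.exp L := (Real.exp_log hN0').symm
    have h5 : 2 * ((N : ℝ) + 1) ≤ Real.exp (L + 2) := by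
      rw [Real.exp_add, ← hNe]
      have h6 : (2 : ℝ) ^ 2 ≤ Real.exp 2 := by
        have h7 : Real.exp (2 : ℝ) = Real.exp 1 ^ 2 := by rw [← Real.exp_nat_mul]; norm_num
        rw [h7]
        have := Real.add_one_le_exp (1 : ℝ)
        exact pow_le_pow_left₀ (by norm_num) (by linarith) _
      have h8 : (10 : ℝ) ≤ N := by exact_mod_cast e5
      nlinarith
    have hS : (0 : ℝ) ≤ S := Nat.cast_nonneg _
    have h9 : Real.exp (⌊y⌋₊ * Real.log (8 / 5)) ≤ Real.exp (L + 2) * S :=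
      hmm.trans (mul_le_mul_of_nonneg_right h5 hS)
    have h10 : Real.exp (c * z) * Real.exp (L + 2) ≤ Real.exp (⌊y⌋₊ * Real.log (8 / 5)) := by
      rw [← Real.exp_add]
      apply Real.exp_le_exp.mpr
      have h11 : c * z ≤ y / 20 := by
        have h12 : c * z ≤ c * (M0 * y) := mul_le_mul_of_nonneg_left hzy hcp.le
        have h13 : c * (M0 * y) = y / 20 ^ K := by
          rw [hc]
          field_simp
        have h14 : y / 20 ^ K ≤ y / 20 := div_le_div_of_nonneg_left hyp.le (by norm_num) h20'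
        linarith
      have h15 : (y - 1) * 0.45 ≤ (⌊y⌋₊ : ℝ) * Real.log (8 / 5) := by
        apply mul_le_mul hw2.le hlog1 (by norm_num) (Nat.cast_nonneg _)
      linarith
    have h16 : Real.exp (c * z) * Real.exp (L + 2) ≤ S * Real.exp (L + 2) := by
      rw [mul_comm (S : ℝ)]
      exact h10.trans h9
    exact le_of_mul_le_mul_right h16 (Real.exp_pos _)

end H98DH

end S_H98_DH_F2
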